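import Pool.Agent.Lib.H43L.Alg

/-!
# Hulls and the sets `X e`
-/

set_option autoImplicit false

universe u v w

namespace Pool.Agent.H43L

open Set Ordinal Cardinal

open Pool.Agent.Helper43.KK (Idx num idx num_idx num_lt num_lt_num num_le_num num_inj exists_num
  card_num_lt Vr below inl_mem_below inr_mem_below below_mono card_below_le otp otp_spec otp_le
  otp_le_of_map otp_mono le_otp bddAbove_range' card_otp_le otp_range_eq Incr enumerates_unique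
  leStar_of Large FinKappa LeStar Bdd IsScale IsKKappa IsKappaCompact IsWeaklyCompact Enumerates
  bNumber exists_enumerates large_of_strictMono exists_ub mk_Iio_lt mk_Iic_lt isScale_of_rank
  isKKappa_of image_kappaCompact)

variable {κ : Cardinal.{u}} {m m' : ℕ} {𝒜 : Alg.{u}}

theorem vIn_univ {V : Type u} (s : Tm V) : VIn Set.univ s := by
  induction s with
  | var v => trivial
  | g n t ih => exact ih
  | p s t ih ih' => exact ⟨ih, ih'⟩

/-- The hull of the first `δ` indices and the constants. -/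
def hull (𝒜 : Alg.{u}) (e : Vr κ m → Ordinal.{u}) (δ : Ordinal.{u}) : Set Ordinal.{u} :=
  {o | ∃ s : Tm (Vr κ m), VIn (below δ) s ∧ ev 𝒜 e s = o}

theorem hull_eq_range (𝒜 : Alg.{u}) (e : Vr κ m → Ordinal.{u}) (δ : Ordinal.{u}) :
    hull 𝒜 e δ = range (fun s : {s : Tm (Vr κ m) // VIn (below δ) s} => ev 𝒜 e s.1) := by
  ext o
  simp [hull]

theorem bddAbove_hull (𝒜 : Alg.{u}) (e : Vr κ m → Ordinal.{u}) (δ : Ordinal.{u}) : BddAbove (hull 𝒜 e δ) := by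
  rw [hull_eq_range]
  exact bddAbove_range' _

theorem hull_mono (𝒜 : Alg.{u}) (e : Vr κ m → Ordinal.{u}) {δ δ' : Ordinal.{u}} (h : δ ≤ δ') :
    hull 𝒜 e δ ⊆ hull 𝒜 e δ' := fun _ ⟨s, hs, ho⟩ => ⟨s, hs.mono (below_mono h), ho⟩

theorem mem_hull_of_var {e : Vr κ m → Ordinal.{u}} {δ : Ordinal.{u}} {v : Vr κ m}
    (hv : v ∈ below δ) : e v ∈ hull 𝒜 e δ := ⟨.var v, hv, rfl⟩

theorem closed_hull (𝒜 : Alg.{u}) (e : Vr κ m → Ordinal.{u}) (δ : Ordinal.{u}) :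
    𝒜.Closed (hull 𝒜 e δ) := by
  constructor
  · rintro n _ ⟨s, hs, rfl⟩
    exact ⟨.g n s, hs, rfl⟩
  · rintro _ ⟨s, hs, rfl⟩ _ ⟨t, ht, rfl⟩
    exact ⟨.p s t, ⟨hs, ht⟩, rfl⟩

theorem hull_subset {e : Vr κ m → Ordinal.{u}} {δ : Ordinal.{u}} {S : Set Ordinal.{u}}
    (hS : 𝒜.Closed S) (h : ∀ v ∈ below δ, e v ∈ S) : hull 𝒜 e δ ⊆ S := by
  rintro o ⟨s, hs, rfl⟩
  exact ev_mem hS h hs

/-- The order type of the hull. -/
noncomputable def rho (𝒜 : Alg.{u}) (e : Vr κ m → Ordinal.{u}) (δ : Ordinal.{u}) : Ordinal.{u} :=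
  otp (hull 𝒜 e δ)

theorem card_rho_le (𝒜 : Alg.{u}) (e : Vr κ m → Ordinal.{u}) (δ : Ordinal.{u}) :
    (rho 𝒜 e δ).card ≤ max ℵ₀ δ.card := by
  rw [rho, hull_eq_range]
  refine (card_otp_le _).trans ((card_vIn_le _).trans ?_)
  exact max_le (le_max_left _ _) (card_below_le δ)

theorem le_rho {e : Vr κ m → Ordinal.{u}} (he : Incr e) {δ : Ordinal.{u}} (hδ : δ ≤ κ.ord) :
    δ ≤ rho 𝒜 e δ := by
  classical
  refine le_otp (bddAbove_hull 𝒜 e δ)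
    (fun x => if hx : x < κ.ord then e (.inl (idx x hx)) else 0) ?_ ?_
  · intro x hx y hy hxy
    rw [dif_pos (hx.trans_le hδ), dif_pos (hy.trans_le hδ)]
    apply he.1
    rw [← num_lt_num, num_idx, num_idx]
    exact hxy
  · intro x hx
    rw [dif_pos (hx.trans_le hδ)]
    apply mem_hull_of_var
    rw [inl_mem_below, num_idx]
    exact hx

/-- The closure points. -/
def CC (𝒜 : Alg.{u}) (e : Vr κ m → Ordinal.{u}) : Set Ordinal.{u} :=
  {δ | δ < κ.ord ∧ δ.card.ord = δ ∧ ℵ₀ ≤ δ.card ∧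
    ∀ o ∈ hull 𝒜 e δ, o < e (.inr 0) → ∃ ξ : Idx κ, num ξ < δ ∧ e (.inl ξ) = o}

/-- The element of `P(κ)` given by an assignment. -/
def XX (𝒜 : Alg.{u}) (e : Vr κ m → Ordinal.{u}) : Set (Idx κ) := {ξ | ∃ δ ∈ CC 𝒜 e, rho 𝒜 e δ = num ξ}

theorem rho_mono (𝒜 : Alg.{u}) (e : Vr κ m → Ordinal.{u}) {δ δ' : Ordinal.{u}} (h : δ ≤ δ') :
    rho 𝒜 e δ ≤ rho 𝒜 e δ' := otp_mono (bddAbove_hull 𝒜 e δ') (hull_mono 𝒜 e h)

theorem rho_lt_of_lt {e : Vr κ m → Ordinal.{u}} (he : Incr e) {δ δ' : Ordinal.{u}}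
    (h : δ ∈ CC 𝒜 e) (h' : δ' ∈ CC 𝒜 e) (hlt : δ < δ') : rho 𝒜 e δ < rho 𝒜 e δ' := by
  refine lt_of_lt_of_le ?_ (le_rho (𝒜 := 𝒜) he h'.1.le)
  rw [← h'.2.1, Cardinal.lt_ord]
  refine (card_rho_le 𝒜 e δ).trans_lt ?_
  rw [max_eq_right h.2.2.1]
  rw [← h'.2.1, Cardinal.lt_ord] at hlt
  exact hlt

theorem rho_lt_ord {e : Vr κ m → Ordinal.{u}} {δ : Ordinal.{u}} (h : δ ∈ CC 𝒜 e) :
    rho 𝒜 e δ < κ.ord := by
  rw [Cardinal.lt_ord]
  refine (card_rho_le 𝒜 e δ).trans_lt ?_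
  rw [max_eq_right h.2.2.1, ← Cardinal.lt_ord]
  exact h.1

/-! ## Locality of variables -/

theorem exists_vIn_of_directed {D : Set Ordinal.{u}} (hD : D.Nonempty) {s : Tm (Vr κ m)}
    (h : VIn {v | ∃ δ ∈ D, v ∈ below δ} s) : ∃ δ ∈ D, VIn (below δ) s := by
  induction s with
  | var v => exact h
  | g n t ih => exact ih h
  | p s t ih ih' =>
    obtain ⟨δ, h1, h2⟩ := ih h.1
    obtain ⟨δ', h1', h2'⟩ := ih' h.2
    rcases le_total δ δ' with hl | hl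
    · exact ⟨δ', h1', h2.mono (below_mono hl), h2'⟩
    · exact ⟨δ, h1, h2, h2'.mono (below_mono hl)⟩

theorem exists_vIn_lt (hκ : ℵ₀ ≤ κ) (s : Tm (Vr κ m)) : ∃ δ < κ.ord, VIn (below δ) s := by
  refine exists_vIn_of_directed (D := Iio κ.ord) ?_ ?_
  · exact ⟨0, by
      rw [mem_Iio, Cardinal.lt_ord, Ordinal.card_zero]
      exact Cardinal.aleph0_pos.trans_le hκ⟩
  · have : ∀ v : Vr κ m, ∃ δ ∈ Iio κ.ord, v ∈ below δ := by
      rintro (ξ | i)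
      · refine ⟨Order.succ (num ξ), ?_, ?_⟩
        · exact (Cardinal.isSuccLimit_ord hκ).succ_lt (num_lt ξ)
        · rw [inl_mem_below]
          exact Order.lt_succ _
      · exact ⟨0, by
          rw [mem_Iio, Cardinal.lt_ord, Ordinal.card_zero]
          exact Cardinal.aleph0_pos.trans_le hκ, inr_mem_below⟩
    have h2 : {v : Vr κ m | ∃ δ ∈ Iio κ.ord, v ∈ below δ} = Set.univ := by
      ext v
      simpa using this v
    rw [h2]
    exact vIn_univ s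

end Pool.Agent.H43L
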