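import Pool.Agent.Lib.H43L.A1

/-!
# Closure points are unbounded; comparison of hulls
-/

set_option autoImplicit false

universe u v w

namespace Pool.Agent.H43L

open Set Ordinal Cardinal

open Pool.Agent.Helper43.KK (Idx num idx num_idx num_lt num_lt_num num_le_num num_inj exists_num
  card_num_lt Vr below inl_mem_below inr_mem_below below_mono card_below_le otp otp_spec otp_le
  otp_le_of_map otp_mono le_otp bddAbove_range' card_otp_le otp_range_eq Incr enumerates_unique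
  leStar_of Large FinKappa LeStar Bdd IsScale IsKKappa IsKappaCompact IsWeaklyCompact Enumerates
  bNumber exists_enumerates large_of_strictMono exists_ub mk_Iio_lt mk_Iic_lt isScale_of_rank
  isKKappa_of image_kappaCompact)

variable {κ : Cardinal.{u}} {m m' : ℕ} {𝒜 : Alg.{u}}

/-- Standard assignments: the hull of everything is the ordinal `γ`. -/
structure Std (𝒜 : Alg.{u}) (e : Vr κ m → Ordinal.{u}) (γ : Ordinal.{u}) : Prop where
  inl : ∀ ξ, e (.inl ξ) = num ξ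
  inr : e (.inr 0) = κ.ord
  range : ∀ o, (∃ s : Tm (Vr κ m), ev 𝒜 e s = o) ↔ o < γ

theorem Std.incr {e : Vr κ m → Ordinal.{u}} {γ : Ordinal.{u}} (h : Std 𝒜 e γ) : Incr e := by
  refine ⟨fun ξ η hlt => ?_, fun ξ => ?_⟩
  · rw [h.inl, h.inl, num_lt_num]
    exact hlt
  · rw [h.inl, h.inr]
    exact num_lt ξ

/-- The closure points are unbounded. -/
theorem exists_CC (hreg : κ.IsRegular) (hsl : κ.IsStrongLimit) (hunc : ℵ₀ < κ)
    {e : Vr κ m → Ordinal.{u}} {γ : Ordinal.{u}} (he : Std 𝒜 e γ) {ε : Ordinal.{u}}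
    (hε : ε < κ.ord) : ∃ δ ∈ CC 𝒜 e, ε < δ := by
  classical
  -- a bound for the hull below `κ`
  have hB : ∀ δ : Ordinal.{u}, δ < κ.ord → ∃ b < κ.ord, ∀ o ∈ hull 𝒜 e δ, o < κ.ord → o < b := by
    intro δ hδ
    let f : {s : Tm (Vr κ m) // VIn (below δ) s} → Ordinal.{u} := fun s =>
      if ev 𝒜 e s.1 < κ.ord then Order.succ (ev 𝒜 e s.1) else 0
    refine ⟨⨆ s, f s, ?_, ?_⟩
    · apply Ordinal.iSup_lt_of_lt_cof
      · rw [hreg.cof_ord]
        refine (card_vIn_le _).trans_lt (max_lt hunc ((card_below_le δ).trans_lt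
          (max_lt hunc ?_)))
        exact Cardinal.lt_ord.1 hδ
      · intro s
        dsimp only [f]
        split_ifs with h
        · exact (Cardinal.isSuccLimit_ord hreg.aleph0_le).succ_lt h
        · rw [Cardinal.lt_ord, Ordinal.card_zero]
          exact hreg.pos
    · rintro o ⟨s, hs, rfl⟩ ho
      refine lt_of_lt_of_le ?_ (Ordinal.le_iSup f ⟨s, hs⟩)
      dsimp only [f]
      rw [if_pos ho]
      exact Order.lt_succ _
  choose! B hB1 hB2 using hB
  let step : Ordinal.{u} → Ordinal.{u} := fun δ =>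
    (Order.succ (max (max (B δ).card δ.card) ℵ₀)).ord
  have hstep1 : ∀ δ < κ.ord, step δ < κ.ord := by
    intro δ hδ
    dsimp only [step]
    rw [Cardinal.ord_lt_ord]
    refine hsl.isSuccPrelimit.succ_lt (max_lt (max_lt ?_ ?_) hunc)
    · exact Cardinal.lt_ord.1 (hB1 δ hδ)
    · exact Cardinal.lt_ord.1 hδ
  have hstep2 : ∀ δ, δ < step δ := by
    intro δ
    dsimp only [step]
    rw [Cardinal.lt_ord, Order.lt_succ_iff]
    exact (le_max_right _ _).trans (le_max_left _ _)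
  have hstep3 : ∀ δ, B δ < step δ := by
    intro δ
    dsimp only [step]
    rw [Cardinal.lt_ord, Order.lt_succ_iff]
    exact (le_max_left _ _).trans (le_max_left _ _)
  have hstep4 : ∀ δ, ℵ₀ ≤ (step δ).card := by
    intro δ
    dsimp only [step]
    rw [Cardinal.card_ord]
    exact (le_max_right _ _).trans (Order.le_succ _)
  let d : ℕ → Ordinal.{u} := fun n => step^[n] ε
  have hd : ∀ n, d (n + 1) = step (d n) := fun n => Function.iterate_succ_apply' step n ε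
  have hd1 : ∀ n, d n < κ.ord := by
    intro n
    induction n with
    | zero => exact hε
    | succ n ih =>
      rw [hd]
      exact hstep1 _ ih
  have hd2 : StrictMono d := strictMono_nat_of_lt_succ fun n => by
    rw [hd]
    exact hstep2 _
  let δ : Ordinal.{u} := ⨆ n, d n
  have hle : ∀ n, d n ≤ δ := fun n => Ordinal.le_iSup d n
  have hlt : ∀ n, d n < δ := fun n => (hd2 (Nat.lt_succ_self n)).trans_le (hle (n + 1))
  have hδ : δ < κ.ord := by
    apply Ordinal.lift_iSup_lt_of_lt_cof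
    · simpa [hreg.cof_ord] using hunc
    · exact hd1
  refine ⟨δ, ⟨hδ, ?_, ?_, ?_⟩, hlt 0⟩
  · refine le_antisymm (Cardinal.ord_card_le δ) ?_
    refine Ordinal.iSup_le fun n => ?_
    refine (hd2 (Nat.lt_succ_self n)).le.trans ?_
    change d (n + 1) ≤ _
    rw [hd]
    dsimp only [step]
    rw [Cardinal.ord_le_ord]
    have := Ordinal.card_le_card (hle (n + 1))
    rw [hd] at this
    dsimp only [step] at this
    rwa [Cardinal.card_ord] at this
  · refine le_trans ?_ (Ordinal.card_le_card (hle 1))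
    have : d 1 = step (d 0) := hd 0
    rw [this]
    exact hstep4 _
  · rintro o ⟨s, hs, rfl⟩ ho
    rw [he.inr] at ho
    obtain ⟨δ', ⟨n, rfl⟩, hs'⟩ := exists_vIn_of_directed (D := Set.range d) ⟨_, mem_range_self 0⟩
      (s := s) (hs.mono (by
        rintro (ξ | i) hv
        · rw [inl_mem_below] at hv
          obtain ⟨n, hn⟩ := Ordinal.lt_iSup_iff.1 hv
          exact ⟨d n, mem_range_self n, by rw [inl_mem_below]; exact hn⟩
        · exact ⟨d 0, mem_range_self 0, inr_mem_below⟩))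
    obtain ⟨ξ, hξ⟩ := exists_num ho
    refine ⟨ξ, ?_, by rw [he.inl, hξ]⟩
    rw [hξ]
    refine (hB2 (d n) (hd1 n) _ ⟨s, hs', rfl⟩ ho).trans ?_
    refine (hstep3 (d n)).trans_le ?_
    rw [← hd]
    exact hle _

/-- Absorption of hulls. -/
theorem exists_absorb (hκ : ℵ₀ ≤ κ) {e : Vr κ m → Ordinal.{u}} {e' : Vr κ m' → Ordinal.{u}}
    (h1 : ∀ ξ, e (.inl ξ) = num ξ) (h2 : ∀ ξ, e' (.inl ξ) = num ξ)
    (h3 : ∀ i, ∃ s : Tm (Vr κ m), ev 𝒜 e s = e' (.inr i)) :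
    ∃ δ₀ < κ.ord, ∀ δ, δ₀ ≤ δ → δ ≤ κ.ord → hull 𝒜 e' δ ⊆ hull 𝒜 e δ := by
  choose s hs using h3
  choose d hd1 hd2 using fun i => exists_vIn_lt hκ (s i)
  obtain ⟨i, hi⟩ := Finite.exists_max d
  refine ⟨d i, hd1 i, fun δ hδ hδκ => hull_subset (closed_hull 𝒜 e δ) ?_⟩
  rintro (ξ | j) hv
  · rw [h2, ← h1]
    rw [inl_mem_below] at hv
    exact mem_hull_of_var (inl_mem_below.2 hv)
  · rw [← hs j]
    exact ⟨s j, (hd2 j).mono (below_mono ((hi j).trans hδ)), rfl⟩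

theorem Std.exists_absorb (hκ : ℵ₀ ≤ κ) {e : Vr κ m → Ordinal.{u}} {e' : Vr κ m' → Ordinal.{u}}
    {γ γ' : Ordinal.{u}} (h : Std 𝒜 e γ) (h' : Std 𝒜 e' γ') (hle : γ' ≤ γ) :
    ∃ δ₀ < κ.ord, ∀ δ, δ₀ ≤ δ → δ ≤ κ.ord → hull 𝒜 e' δ ⊆ hull 𝒜 e δ :=
  H43L.exists_absorb hκ h.inl h'.inl fun i =>
    (h.range _).2 (((h'.range _).1 ⟨.var (.inr i), rfl⟩).trans_le hle)

/-- Closure points of the bigger structure are closure points of the smaller one. -/
theorem mem_CC_of_absorb {e : Vr κ m → Ordinal.{u}} {e' : Vr κ m' → Ordinal.{u}}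
    {γ γ' : Ordinal.{u}} (h : Std 𝒜 e γ) (h' : Std 𝒜 e' γ') {δ : Ordinal.{u}}
    (hsub : hull 𝒜 e' δ ⊆ hull 𝒜 e δ) (hδ : δ ∈ CC 𝒜 e) : δ ∈ CC 𝒜 e' := by
  refine ⟨hδ.1, hδ.2.1, hδ.2.2.1, fun o ho hlt => ?_⟩
  rw [h'.inr, ← h.inr] at hlt
  obtain ⟨ξ, h1, h2⟩ := hδ.2.2.2 o (hsub ho) hlt
  exact ⟨ξ, h1, by rw [h'.inl, ← h.inl, h2]⟩

theorem XX_subset_lt {e : Vr κ m → Ordinal.{u}} {ξ : Idx κ} (h : ξ ∈ XX 𝒜 e) :
    ∃ δ ∈ CC 𝒜 e, rho 𝒜 e δ = num ξ := h

/-- `XX 𝒜 e` is unbounded in `κ`, hence of size `κ`. -/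
theorem Std.large (hreg : κ.IsRegular) (hsl : κ.IsStrongLimit) (hunc : ℵ₀ < κ)
    {e : Vr κ m → Ordinal.{u}} {γ : Ordinal.{u}} (he : Std 𝒜 e γ) : XX 𝒜 e ∈ Large κ := by
  refine le_antisymm ((Cardinal.mk_set_le _).trans ?_) ?_
  · simp
  · by_contra hn
    rw [not_le] at hn
    have h1 : ⨆ ξ : XX 𝒜 e, Order.succ (num ξ.1) < κ.ord := by
      apply Ordinal.iSup_lt_of_lt_cof
      · rw [hreg.cof_ord]
        exact hn
      · intro ξ
        exact (Cardinal.isSuccLimit_ord hreg.aleph0_le).succ_lt (num_lt _)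
    obtain ⟨δ, hδ, hlt⟩ := exists_CC hreg hsl hunc he h1
    obtain ⟨ξ, hξ⟩ := exists_num (rho_lt_ord hδ)
    have hmem : ξ ∈ XX 𝒜 e := ⟨δ, hδ, hξ.symm⟩
    have h2 := Ordinal.le_iSup (fun ξ : XX 𝒜 e => Order.succ (num ξ.1)) ⟨ξ, hmem⟩
    have h3 := le_rho (𝒜 := 𝒜) he.incr hδ.1.le
    rw [← hξ] at h3
    exact absurd (h3.trans ((Order.le_succ _).trans h2)) (not_le.2 hlt)

end Pool.Agent.H43L
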