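import Pool.Agent.Lib.H43L.A2

/-!
# The scale: comparison and unboundedness criteria
-/

set_option autoImplicit false

universe u v w

namespace Pool.Agent.H43L

open Set Ordinal Cardinal

open Pool.Agent.Helper43.KK (Idx num idx num_idx num_lt num_lt_num num_le_num num_inj exists_num
  card_num_lt Vr below inl_mem_below inr_mem_below below_mono card_below_le otp otp_spec otp_le
  otp_le_of_map otp_mono le_otp bddAbove_range' card_otp_le otp_range_eq Incr enumerates_unique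
  leStar_of Large FinKappa LeStar Bdd IsScale IsKKappa IsKappaCompact IsWeaklyCompact Enumerates
  bNumber exists_enumerates large_of_strictMono exists_ub mk_Iio_lt mk_Iic_lt isScale_of_rank
  isKKappa_of image_kappaCompact)

variable {κ : Cardinal.{u}} {m m' : ℕ} {𝒜 : Alg.{u}}

/-- The closure points are enumerated along with `XX 𝒜 e`. -/
theorem exists_dd {e : Vr κ m → Ordinal.{u}} {f : Idx κ → Idx κ}
    (hf : Enumerates f (XX 𝒜 e)) :
    ∃ d : Idx κ → Ordinal.{u}, StrictMono d ∧ (∀ ξ, d ξ ∈ CC 𝒜 e) ∧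
      (∀ ξ, rho 𝒜 e (d ξ) = num (f ξ)) ∧ ∀ ξ, num ξ ≤ d ξ := by
  have h1 : ∀ ξ, ∃ δ ∈ CC 𝒜 e, rho 𝒜 e δ = num (f ξ) := fun ξ => by
    have : f ξ ∈ XX 𝒜 e := by
      rw [← hf.2]
      exact mem_range_self _
    exact this
  choose d hd1 hd2 using h1
  have hmono : StrictMono d := by
    intro ξ η hlt
    by_contra hn
    rw [not_lt] at hn
    have h2 := rho_mono 𝒜 e hn
    rw [hd2, hd2, num_le_num] at h2
    exact absurd (hf.1 hlt) (not_lt.2 h2)
  refine ⟨d, hmono, hd1, hd2, ?_⟩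
  intro ξ
  induction ξ using WellFoundedLT.induction with
  | ind ξ ih =>
    by_contra hn
    rw [not_le] at hn
    obtain ⟨η, hη⟩ := exists_num (hn.trans (num_lt ξ))
    have h3 : η < ξ := by
      rw [← num_lt_num, hη]
      exact hn
    have h4 := ih η h3
    rw [hη] at h4
    exact absurd (hmono h3) (not_lt.2 h4)

theorem leStar_XX (hunc : ℵ₀ < κ) {e : Vr κ m → Ordinal.{u}} {e' : Vr κ m' → Ordinal.{u}}
    {γ γ' : Ordinal.{u}} (h : Std 𝒜 e γ) (h' : Std 𝒜 e' γ') (hle : γ' ≤ γ)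
    {fa fb : Idx κ → Idx κ} (hfa : Enumerates fa (XX 𝒜 e)) (hfb : Enumerates fb (XX 𝒜 e')) :
    LeStar (XX 𝒜 e') (XX 𝒜 e) := by
  classical
  obtain ⟨δ₀, hδ₀, habs⟩ := h.exists_absorb hunc.le h' hle
  obtain ⟨d, hd1, hd2, hd3, hd4⟩ := exists_dd hfa
  obtain ⟨ξ₀, rfl⟩ := exists_num hδ₀
  have hCC : ∀ ξ, ξ₀ ≤ ξ → d ξ ∈ CC 𝒜 e' := fun ξ hξ =>
    mem_CC_of_absorb h h' (habs _ ((num_le_num.2 hξ).trans (hd4 ξ)) (hd2 ξ).1.le) (hd2 ξ)
  refine leStar_of hunc hfa hfb ξ₀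
    (fun ξ => if hh : rho 𝒜 e' (d ξ) < κ.ord then idx _ hh else ξ₀) ?_ ?_
  · intro ξ hξ η hη
    have h1 := hCC ξ hξ
    have h2 := hCC η (hξ.trans hη.le)
    rw [dif_pos (rho_lt_ord h1), dif_pos (rho_lt_ord h2), ← num_lt_num, num_idx, num_idx]
    exact rho_lt_of_lt h'.incr h1 h2 (hd1 hη)
  · intro ξ hξ
    have h1 := hCC ξ hξ
    rw [dif_pos (rho_lt_ord h1)]
    refine ⟨⟨d ξ, h1, by rw [num_idx]⟩, ?_⟩
    rw [← num_le_num, num_idx, ← hd3]
    exact otp_mono (bddAbove_hull _ _ _) (habs _ ((num_le_num.2 hξ).trans (hd4 ξ)) (hd2 ξ).1.le)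

theorem not_leStar_XX (hunc : ℵ₀ < κ) {e : Vr κ m → Ordinal.{u}} {γ : Ordinal.{u}}
    (h : Std 𝒜 e γ) {b : Set (Idx κ)}
    (hcl : ∀ δ ∈ CC 𝒜 e, ∀ ξ : Idx κ, num ξ < δ → ∃ η ∈ b, ξ ≤ η ∧ num η < δ) :
    ¬ LeStar (XX 𝒜 e) b := by
  rintro ⟨fx, fb, hfx, hfb, hcard⟩
  obtain ⟨d, hd1, hd2, hd3, hd4⟩ := exists_dd hfx
  have hsucc : ∀ ξ : Idx κ, Order.succ (num ξ) < κ.ord := fun ξ =>
    (Cardinal.isSuccLimit_ord hunc.le).succ_lt (num_lt ξ)
  let s : Idx κ → Idx κ := fun ξ => idx _ (hsucc ξ)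
  have hs : ∀ ξ τ, ξ < τ → s ξ ≤ τ := fun ξ τ hlt => by
    rw [← num_le_num, num_idx]
    exact Order.succ_le_of_lt (num_lt_num.2 hlt)
  have hs' : ∀ ξ, ξ < s ξ := fun ξ => by
    rw [← num_lt_num, num_idx]
    exact Order.lt_succ _
  have claim : ∀ ξ, num (fb ξ) < d (s ξ) := by
    intro ξ
    induction ξ using WellFoundedLT.induction with
    | ind ξ ih =>
      obtain ⟨τ₀, hτ₀⟩ := exists_num (hd2 ξ).1
      obtain ⟨ζ, hζb, hζ1, hζ2⟩ := hcl _ (hd2 (s ξ)) τ₀ (by rw [hτ₀]; exact hd1 (hs' ξ))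
      rw [← hfb.2] at hζb
      obtain ⟨τ, rfl⟩ := hζb
      have h1 : ξ ≤ τ := by
        by_contra hn
        rw [not_le] at hn
        have h2 := (ih τ hn).trans_le (hd1.monotone (hs τ ξ hn))
        rw [← hτ₀, num_lt_num] at h2
        exact absurd h2 (not_lt.2 hζ1)
      exact (num_le_num.2 (hfb.1.monotone h1)).trans_lt hζ2
  have claim2 : ∀ ξ, fb (s ξ) < fx (s ξ) := by
    intro ξ
    have hlim : Order.IsSuccLimit (d (s ξ)) := by
      rw [← (hd2 (s ξ)).2.1]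
      exact Cardinal.isSuccLimit_ord (hd2 (s ξ)).2.2.1
    have h1 : num (s (fb ξ)) < d (s ξ) := by
      rw [num_idx]
      exact hlim.succ_lt (claim ξ)
    obtain ⟨ζ, hζb, hζ1, hζ2⟩ := hcl _ (hd2 (s ξ)) (s (fb ξ)) h1
    rw [← hfb.2] at hζb
    obtain ⟨τ, rfl⟩ := hζb
    have h2 : ξ < τ := hfb.1.lt_iff_lt.1 ((hs' _).trans_le hζ1)
    have h3 : fb (s ξ) ≤ fb τ := hfb.1.monotone (hs _ _ h2)
    rw [← num_lt_num, ← hd3]
    exact ((num_le_num.2 h3).trans_lt hζ2).trans_le (le_rho (𝒜 := 𝒜) h.incr (hd2 _).1.le)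
  have hinj : Function.Injective s := by
    intro ξ η hh
    have : num (s ξ) = num (s η) := by rw [hh]
    rw [num_idx, num_idx] at this
    exact num_inj.1 (Order.succ_injective this)
  have h5 : #(Set.range s) = κ := by
    rw [Cardinal.mk_range_eq s hinj]
    simp
  refine absurd hcard (not_lt.2 ?_)
  refine h5.ge.trans ?_
  apply Cardinal.mk_le_mk_of_subset
  rintro _ ⟨ξ, rfl⟩
  exact claim2 ξ

/-! ## Criterion for standardness -/

/-- An increasing collapsed assignment whose hull meets `e(c)` only in the range of `κ` is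
standard. -/
theorem std_of {e : Vr κ m → Ordinal.{u}} (he : Incr e)
    (hcol : ∀ s : Tm (Vr κ m), ∀ o < ev 𝒜 e s, ∃ t : Tm (Vr κ m), ev 𝒜 e t = o)
    (hmeet : ∀ s : Tm (Vr κ m), ev 𝒜 e s < e (.inr 0) → ∃ ξ : Idx κ, e (.inl ξ) = ev 𝒜 e s) :
    ∃ γ, Std 𝒜 e γ := by
  have h0 : ∀ o < e (.inr 0), ∃ ξ : Idx κ, e (.inl ξ) = o := by
    intro o ho
    obtain ⟨t, rfl⟩ := hcol (.var (.inr 0)) o ho
    exact hmeet t ho
  have hinl : ∀ ξ, e (.inl ξ) = num ξ := by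
    intro ξ
    induction ξ using WellFoundedLT.induction with
    | ind ξ ih =>
      apply le_antisymm
      · by_contra hn
        rw [not_le] at hn
        obtain ⟨η, hη⟩ := h0 _ (hn.trans (he.2 ξ))
        rcases lt_trichotomy η ξ with h1 | h1 | h1
        · rw [ih η h1, num_inj] at hη
          exact absurd hη h1.ne
        · rw [h1] at hη
          exact absurd hη hn.ne'
        · have := he.1 _ _ h1
          rw [hη] at this
          exact absurd this (not_lt.2 hn.le)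
      · by_contra hn
        rw [not_le] at hn
        obtain ⟨η, hη⟩ := exists_num (hn.trans (num_lt ξ))
        have h1 : η < ξ := by
          rw [← num_lt_num, hη]
          exact hn
        have h2 := he.1 _ _ h1
        rw [ih η h1, hη] at h2
        exact lt_irrefl _ h2
  refine ⟨sSup (Set.range fun s : Tm (Vr κ m) => Order.succ (ev 𝒜 e s)), hinl, ?_, ?_⟩
  · apply le_antisymm
    · by_contra hn
      rw [not_le] at hn
      obtain ⟨ξ, hξ⟩ := h0 _ hn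
      rw [hinl] at hξ
      exact absurd (num_lt ξ) (by rw [hξ]; exact lt_irrefl _)
    · by_contra hn
      rw [not_le] at hn
      obtain ⟨ξ, hξ⟩ := exists_num hn
      have := he.2 ξ
      rw [hinl, hξ] at this
      exact lt_irrefl _ this
  · intro o
    constructor
    · rintro ⟨s, rfl⟩
      refine (Order.lt_succ _).trans_le ?_
      exact le_csSup (bddAbove_range' _) (mem_range_self s)
    · intro ho
      obtain ⟨_, ⟨s, rfl⟩, hs⟩ := exists_lt_of_lt_csSup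
        (by
          exact ⟨_, mem_range_self (Tm.var (.inr 0))⟩) ho
      rcases (Order.lt_succ_iff.1 hs).lt_or_eq with h1 | h1
      · exact hcol s o h1
      · exact ⟨s, h1.symm⟩

/-- If the closure points of a collapsed assignment are unbounded then it is standard. -/
theorem std_of_CC (hκ : ℵ₀ ≤ κ) {e : Vr κ m → Ordinal.{u}} (he : Incr e)
    (hcol : ∀ s : Tm (Vr κ m), ∀ o < ev 𝒜 e s, ∃ t : Tm (Vr κ m), ev 𝒜 e t = o)
    (hC : ∀ ε < κ.ord, ∃ δ ∈ CC 𝒜 e, ε ≤ δ) : ∃ γ, Std 𝒜 e γ := by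
  refine std_of he hcol fun s hs => ?_
  obtain ⟨ε, hε, hs'⟩ := exists_vIn_lt hκ s
  obtain ⟨δ, hδ, hle⟩ := hC ε hε
  obtain ⟨ξ, -, hξ⟩ := hδ.2.2.2 _ ⟨s, hs'.mono (below_mono hle), rfl⟩ hs
  exact ⟨ξ, hξ⟩

end Pool.Agent.H43L
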