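import Pool.Agent.Lib.H43L.Alg

/-!
# Chunk R2: closing off

Iterate.  `W 0 = W₀`, `S 0 = {rk t : VIn (W 0) t}`.  Given countable `W i` and countable `S i ⊆ Iio l`, let
`C i ⊇ S i` be the (countable) closure of `S i` under the functions `A.g n` and `A.p` (for example
`{ev A (fun x : S i => x.1) t | t : Tm (S i)}`, which is countable by `card_tm_le`, or an iteration), choose
for each `x ∈ C i` in the range of `rk` a term `t x` with `rk (t x) = x`, and put
`W (i + 1) = W i ∪ ⋃ x, (a finite set of variables of t x)` (`exists_finite_vIn`), countable,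
`S (i + 1) = C i ∪ {rk t : VIn (W (i + 1)) t}`.  Take `W = ⋃ W i`, `S = ⋃ S i`.  A term over `W` is a term over
some `W i` (finitely many variables).
-/

set_option autoImplicit false

universe u

namespace Pool.Agent.H43L

open Set Ordinal Cardinal

/-- the closure of a set of ordinals -/
def r2C (A : Alg.{u}) (S : Set Ordinal.{u}) : Set Ordinal.{u} :=
  range fun t : Tm S => ev A (fun x : S => x.1) t

theorem r2C_countable (A : Alg.{u}) {S : Set Ordinal.{u}} (hS : S.Countable) :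
    (r2C A S).Countable := by
  have h1 : #(Tm S) ≤ ℵ₀ := card_tm_le.trans (max_le le_rfl
    (Cardinal.le_aleph0_iff_set_countable.2 hS))
  have : Countable (Tm S) := Cardinal.mk_le_aleph0_iff.1 h1
  exact countable_range _

theorem r2C_subset {A : Alg.{u}} {S : Set Ordinal.{u}} {l : Ordinal.{u}} (hA : A.Closed (Iio l))
    (hS : S ⊆ Iio l) : r2C A S ⊆ Iio l := by
  rintro _ ⟨t, rfl⟩
  induction t with
  | var v => exact hS v.2
  | g n t ih => exact hA.g n _ ih
  | p s t ih ih' => exact hA.p _ ih _ ih'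

theorem r2_subset_C (A : Alg.{u}) (S : Set Ordinal.{u}) : S ⊆ r2C A S :=
  fun x hx => ⟨.var ⟨x, hx⟩, rfl⟩

theorem r2C_g {A : Alg.{u}} {S : Set Ordinal.{u}} (n : ℕ) {x : Ordinal.{u}} (hx : x ∈ S) :
    A.g n x ∈ r2C A S := ⟨.g n (.var ⟨x, hx⟩), rfl⟩

theorem r2C_p {A : Alg.{u}} {S : Set Ordinal.{u}} {x y : Ordinal.{u}} (hx : x ∈ S) (hy : y ∈ S) :
    A.p x y ∈ r2C A S := ⟨.p (.var ⟨x, hx⟩) (.var ⟨y, hy⟩), rfl⟩

theorem r2_directed {V : Type u} {W : ℕ → Set V} (hW : Monotone W) {t : Tm V}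
    (h : VIn (⋃ n, W n) t) : ∃ n, VIn (W n) t := by
  induction t with
  | var v => exact mem_iUnion.1 h
  | g n t ih => exact ih h
  | p s t ih ih' =>
    obtain ⟨n, hn⟩ := ih h.1
    obtain ⟨n', hn'⟩ := ih' h.2
    exact ⟨max n n', hn.mono (hW (le_max_left _ _)), hn'.mono (hW (le_max_right _ _))⟩

theorem exists_closed_pair {A : Alg.{u}} {V : Type u} {l : Ordinal.{u}} (hA : A.Closed (Iio l))
    (rk : Tm V → Ordinal.{u}) (hrk : ∀ s, rk s < l) (W₀ : Set V) (hW₀ : W₀.Countable) :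
    ∃ (W : Set V) (S : Set Ordinal.{u}), W₀ ⊆ W ∧ W.Countable ∧ S.Countable ∧ S ⊆ Iio l ∧
      A.Closed S ∧ (∀ t, VIn W t → rk t ∈ S) ∧ ∀ x ∈ S, (∃ t, rk t = x) → ∃ t, VIn W t ∧ rk t = x := by
  classical
  have hF : ∀ x : Ordinal.{u}, ∃ F : Set V, F.Finite ∧ ((∃ t, rk t = x) →
      ∃ t, VIn F t ∧ rk t = x) := by
    intro x
    by_cases hx : ∃ t, rk t = x
    · obtain ⟨t, rfl⟩ := hx
      obtain ⟨F, h1, h2⟩ := exists_finite_vIn t
      exact ⟨F, h1, fun _ => ⟨t, h2, rfl⟩⟩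
    · exact ⟨∅, finite_empty, fun h => absurd h hx⟩
  choose F hF1 hF2 using hF
  let stepW : Set V × Set Ordinal.{u} → Set V := fun P => P.1 ∪ ⋃ x ∈ r2C A P.2, F x
  let P : ℕ → Set V × Set Ordinal.{u} := fun n => Nat.rec (W₀, rk '' {t | VIn W₀ t})
    (fun _ P => (stepW P, r2C A P.2 ∪ rk '' {t | VIn (stepW P) t})) n
  have hW' : ∀ n, (P (n + 1)).1 = (P n).1 ∪ ⋃ x ∈ r2C A (P n).2, F x := fun n => rfl
  have hS' : ∀ n, (P (n + 1)).2 = r2C A (P n).2 ∪ rk '' {t | VIn (P (n + 1)).1 t} := fun n => rfl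
  have key : ∀ n, (P n).1.Countable ∧ (P n).2.Countable ∧ (P n).2 ⊆ Iio l := by
    intro n
    induction n with
    | zero =>
      refine ⟨hW₀, (countable_vIn hW₀).image _, ?_⟩
      rintro _ ⟨t, -, rfl⟩
      exact hrk t
    | succ n ih =>
      have h1 : (P (n + 1)).1.Countable := by
        rw [hW']
        exact ih.1.union ((r2C_countable A ih.2.1).biUnion fun x _ => (hF1 x).countable)
      refine ⟨h1, ?_, ?_⟩
      · rw [hS']
        exact (r2C_countable A ih.2.1).union ((countable_vIn h1).image _)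
      · rw [hS']
        refine union_subset (r2C_subset hA ih.2.2) ?_
        rintro _ ⟨t, -, rfl⟩
        exact hrk t
  have hWm : Monotone fun n => (P n).1 := monotone_nat_of_le_succ fun n => by
    rw [hW']
    exact subset_union_left
  have hSm : Monotone fun n => (P n).2 := monotone_nat_of_le_succ fun n => by
    rw [hS']
    exact (r2_subset_C A _).trans subset_union_left
  have hC : ∀ n, r2C A (P n).2 ⊆ (P (n + 1)).2 := fun n => by
    rw [hS']
    exact subset_union_left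
  have hr : ∀ n t, VIn (P n).1 t → rk t ∈ (P n).2 := by
    intro n t ht
    cases n with
    | zero => exact ⟨t, ht, rfl⟩
    | succ n =>
      rw [hS']
      exact Or.inr ⟨t, ht, rfl⟩
  refine ⟨⋃ n, (P n).1, ⋃ n, (P n).2, ?_, ?_, ?_, ?_, ⟨?_, ?_⟩, ?_, ?_⟩
  · exact subset_iUnion (fun n => (P n).1) 0
  · exact countable_iUnion fun n => (key n).1
  · exact countable_iUnion fun n => (key n).2.1
  · exact iUnion_subset fun n => (key n).2.2
  · intro k x hx
    obtain ⟨n, hn⟩ := mem_iUnion.1 hx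
    exact mem_iUnion.2 ⟨n + 1, hC n (r2C_g k hn)⟩
  · intro x hx y hy
    obtain ⟨n, hn⟩ := mem_iUnion.1 hx
    obtain ⟨n', hn'⟩ := mem_iUnion.1 hy
    exact mem_iUnion.2 ⟨max n n' + 1, hC _ (r2C_p (hSm (le_max_left _ _) hn)
      (hSm (le_max_right _ _) hn'))⟩
  · intro t ht
    obtain ⟨n, hn⟩ := r2_directed hWm ht
    exact mem_iUnion.2 ⟨n, hr n t hn⟩
  · intro x hx hex
    obtain ⟨n, hn⟩ := mem_iUnion.1 hx
    obtain ⟨t, ht, rfl⟩ := hF2 x hex
    refine ⟨t, ht.mono ?_, rfl⟩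
    refine Subset.trans ?_ (subset_iUnion (fun n => (P n).1) (n + 1))
    rw [hW']
    refine Subset.trans ?_ subset_union_right
    exact subset_biUnion_of_mem (u := F) (r2_subset_C A _ hn)

end Pool.Agent.H43L
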