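import Pool.Agent.Lib.H43L.R1
import Pool.Agent.Lib.H43L.R2

/-!
# Chunk R3: realization of consistent sets of facts

Take `rk` from `exists_rk` and `e v = rk (.var v)`.  It suffices to show `ev A e s = rk s` for all terms, by
induction on `s`; that is `rk (.g n t) = A.g n (rk t)` and `rk (.p s t) = A.p (rk s) (rk t)`.

Let `W₀` be the finite set of variables of the terms, and `W, S` from `exists_closed_pair`; let `e'` realize
the facts over `W` (`Good A l g W e'`).  The set `H = {ev A e' t : VIn W t}` is countable (`countable_vIn`), closed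
under the functions and contained in `Iio l` (`ev_mem`).  Let `f` be an isomorphism of `H` and `f'` an
isomorphism of `S` onto an initial segment (`hA.iso`).  Claim: `f (ev A e' t) = f' (rk t)` for all `t` over `W`.
Indeed both are order preserving with respect to the order of the facts: for `s, t` over `W`,
`f (ev A e' s) < f (ev A e' t) ↔ (s, t) ∈ g ↔ f' (rk s) < f' (rk t)` (for ordinals a strictly monotone map on a set
reflects the order and equality), and both ranges (over the terms over `W`) are initial segments: for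
`f` by `init`; for `f'`: if `z < f' (rk t)` then `z = f' y` with `y ∈ S`, `y < rk t` (monotonicity), so `y` is a value of
`rk` and hence of the form `rk t'` with `t'` over `W`.  So the two functions agree, by induction on the
ordinal `f' (rk t)` (a general lemma: two functions `F F' : T → Ordinal` with `F s < F t ↔ F' s < F' t` and
ranges which are initial segments are equal).
Now `f' (rk (.g n t)) = f (ev A e' (.g n t)) = f (A.g n (ev A e' t)) = A.g n (f (ev A e' t)) = A.g n (f' (rk t)) =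
f' (A.g n (rk t))`, and `f'` is injective on `S`.
-/

set_option autoImplicit false

universe u

namespace Pool.Agent.H43L

open Set Ordinal Cardinal

/-- two order isomorphic functions onto initial segments are equal -/
theorem r3_unique {T : Type u} {F F' : T → Ordinal.{u}} (h : ∀ s t, F s < F t ↔ F' s < F' t)
    (h1 : ∀ s, ∀ o < F s, ∃ t, F t = o) (h2 : ∀ s, ∀ o < F' s, ∃ t, F' t = o) (s : T) :
    F s = F' s := by
  have key : ∀ o s, F' s = o → F s = o := by
    intro o
    induction o using WellFoundedLT.induction with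
    | ind o ih =>
      intro s hs
      rcases lt_trichotomy (F s) o with hl | hl | hl
      · obtain ⟨t, ht⟩ := h2 s (F s) (by rw [hs]; exact hl)
        have h3 := ih (F s) hl t ht
        have h4 : F' t < F' s := by
          rw [ht, hs]
          exact hl
        rw [← h, h3] at h4
        exact absurd h4 (lt_irrefl _)
      · exact hl
      · obtain ⟨t, ht⟩ := h1 s o hl
        have h4 : F t < F s := by
          rw [ht]
          exact hl
        rw [h, hs] at h4
        have h3 := ih (F' t) h4 t rfl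
        rw [ht] at h3
        rw [← h3] at h4
        exact absurd h4 (lt_irrefl _)
  exact key _ s rfl

theorem r3_lt_iff {S : Set Ordinal.{u}} {f : Ordinal.{u} → Ordinal.{u}}
    (hf : ∀ x ∈ S, ∀ y ∈ S, x < y → f x < f y) {x y : Ordinal.{u}} (hx : x ∈ S) (hy : y ∈ S) :
    f x < f y ↔ x < y := by
  constructor
  · intro h
    by_contra hn
    rcases (not_lt.1 hn).lt_or_eq with h1 | h1
    · exact lt_asymm h (hf _ hy _ hx h1)
    · rw [h1] at h
      exact lt_irrefl _ h
  · exact hf x hx y hy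

theorem r3_local {A : Alg.{u}} {l : Ordinal.{u}}
    (hA : A.Cond l) {V : Type u} (g : Set (Fact V))
    (h : ∀ W : Set V, W.Countable → ∃ e, Good A l g W e) {rk : Tm V → Ordinal.{u}}
    (hr1 : ∀ s t, rk s < rk t ↔ (s, t) ∈ g) (hr2 : ∀ s, ∀ o < rk s, ∃ t, rk t = o)
    (hr3 : ∀ s, rk s < l) {W₀ : Set V} (hW₀ : W₀.Countable) :
    (∀ n t, VIn W₀ t → rk (.g n t) = A.g n (rk t)) ∧
      ∀ s t, VIn W₀ s → VIn W₀ t → rk (.p s t) = A.p (rk s) (rk t) := by
  obtain ⟨W, S, hW1, hW2, hS1, hS2, hS3, hS4, hS5⟩ := exists_closed_pair hA.closed rk hr3 W₀ hW₀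
  obtain ⟨e, he⟩ := h W hW2
  obtain ⟨f', hf'⟩ := hA.iso S hS2 hS1 hS3
  obtain ⟨f, hf⟩ := hA.iso ((ev A e) '' {t | VIn W t}) (by
      rintro _ ⟨t, ht, rfl⟩
      exact ev_mem hA.closed (fun v _ => he.1 v) ht) ((countable_vIn hW2).image _) (by
      constructor
      · rintro n _ ⟨t, ht, rfl⟩
        exact ⟨.g n t, ht, rfl⟩
      · rintro _ ⟨s, hs, rfl⟩ _ ⟨t, ht, rfl⟩
        exact ⟨.p s t, ⟨hs, ht⟩, rfl⟩)
  have hmem : ∀ t : {t : Tm V // VIn W t}, ev A e t.1 ∈ (ev A e) '' {t | VIn W t} :=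
    fun t => ⟨t.1, t.2, rfl⟩
  have key : ∀ t : {t : Tm V // VIn W t}, f (ev A e t.1) = f' (rk t.1) := by
    refine r3_unique (F := fun t : {t : Tm V // VIn W t} => f (ev A e t.1))
      (F' := fun t => f' (rk t.1)) ?_ ?_ ?_
    · intro s t
      rw [r3_lt_iff hf.mono (hmem s) (hmem t), r3_lt_iff hf'.mono (hS4 _ s.2) (hS4 _ t.2), hr1]
      exact (he.2 (s.1, t.1) ⟨s.2, t.2⟩).symm
    · intro s o ho
      obtain ⟨_, ⟨t, ht, rfl⟩, h1⟩ := hf.init _ (hmem s) o ho
      exact ⟨⟨t, ht⟩, h1⟩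
    · intro s o ho
      obtain ⟨y, hy, rfl⟩ := hf'.init _ (hS4 _ s.2) o ho
      rw [r3_lt_iff hf'.mono hy (hS4 _ s.2)] at ho
      obtain ⟨t, ht, h1⟩ := hS5 y hy (hr2 _ _ ho)
      exact ⟨⟨t, ht⟩, by rw [← h1]⟩
  have hinj : ∀ x ∈ S, ∀ y ∈ S, f' x = f' y → x = y := by
    intro x hx y hy hxy
    rcases lt_trichotomy x y with hl | hl | hl
    · exact absurd (hf'.mono _ hx _ hy hl) (by rw [hxy]; exact lt_irrefl _)
    · exact hl
    · exact absurd (hf'.mono _ hy _ hx hl) (by rw [hxy]; exact lt_irrefl _)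
  constructor
  · intro n t ht
    have ht' : VIn W t := ht.mono hW1
    have hgt : VIn W (.g n t) := ht'
    refine hinj _ (hS4 _ hgt) _ (hS3.g n _ (hS4 _ ht')) ?_
    rw [hf'.g n _ (hS4 _ ht'), ← key ⟨t, ht'⟩, ← key ⟨.g n t, hgt⟩]
    exact hf.g n _ (hmem ⟨t, ht'⟩)
  · intro s t hs ht
    have hs' : VIn W s := hs.mono hW1
    have ht' : VIn W t := ht.mono hW1
    have hst : VIn W (.p s t) := ⟨hs', ht'⟩
    refine hinj _ (hS4 _ hst) _ (hS3.p _ (hS4 _ hs') _ (hS4 _ ht')) ?_
    rw [hf'.p _ (hS4 _ hs') _ (hS4 _ ht'), ← key ⟨t, ht'⟩, ← key ⟨s, hs'⟩, ← key ⟨.p s t, hst⟩]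
    exact hf.p _ (hmem ⟨s, hs'⟩) _ (hmem ⟨t, ht'⟩)

theorem realization {A : Alg.{u}} {κ : Cardinal.{u}} (hκ : ℵ₀ ≤ κ)
    (hA : A.Cond (Order.succ κ).ord) {V : Type u} (hV : #V ≤ κ) (g : Set (Fact V))
    (h : ∀ W : Set V, W.Countable → ∃ e, Good A (Order.succ κ).ord g W e) :
    ∃ e : V → Ordinal.{u}, (∀ v, e v < (Order.succ κ).ord) ∧ (∀ f, f ∈ g ↔ Holds A e f) ∧
      ∀ s, ∀ o < ev A e s, ∃ t, ev A e t = o := by
  obtain ⟨rk, hr1, hr2, hr3⟩ := exists_rk hκ hV h
  have key : ∀ s, ev A (fun v => rk (.var v)) s = rk s := by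
    intro s
    induction s with
    | var v => rfl
    | g n t ih =>
      obtain ⟨W, hW, ht⟩ := exists_finite_vIn t
      rw [(r3_local hA g h hr1 hr2 hr3 hW.countable).1 n t ht, ← ih]
      rfl
    | p s t ih ih' =>
      obtain ⟨W, hW, hs⟩ := exists_finite_vIn s
      obtain ⟨W', hW', ht⟩ := exists_finite_vIn t
      rw [(r3_local hA g h hr1 hr2 hr3 (hW.union hW').countable).2 s t
        (hs.mono subset_union_left) (ht.mono subset_union_right), ← ih, ← ih']
      rfl
  refine ⟨fun v => rk (.var v), fun v => hr3 _, ?_, ?_⟩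
  · rintro ⟨s, t⟩
    unfold Holds
    rw [key, key]
    exact (hr1 s t).symm
  · intro s o ho
    rw [key] at ho
    obtain ⟨t, ht⟩ := hr2 s o ho
    exact ⟨t, by rw [key, ht]⟩

end Pool.Agent.H43L
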