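import Pool.Agent.Lib.H43L.A3
import Pool.Agent.Lib.H43L.R3

/-!
# Diagrams: compactness and continuity
-/

set_option autoImplicit false

universe u v w

namespace Pool.Agent.H43L

open Set Ordinal Cardinal

open Pool.Agent.Helper43.KK (Idx num idx num_idx num_lt num_lt_num num_le_num num_inj exists_num
  card_num_lt Vr below inl_mem_below inr_mem_below below_mono card_below_le otp otp_spec otp_le
  otp_le_of_map otp_mono le_otp bddAbove_range' card_otp_le otp_range_eq Incr enumerates_unique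
  leStar_of Large FinKappa LeStar Bdd IsScale IsKKappa IsKappaCompact IsWeaklyCompact Enumerates
  bNumber exists_enumerates large_of_strictMono exists_ub mk_Iio_lt mk_Iic_lt isScale_of_rank
  isKKappa_of image_kappaCompact)

variable {κ : Cardinal.{u}} {m m' : ℕ} {𝒜 : Alg.{u}}

/-- The set of diagrams of increasing collapsed assignments. -/
def DD (𝒜 : Alg.{u}) (κ : Cardinal.{u}) (m : ℕ) : Set (Set (Fact (Vr κ m))) :=
  {g | ∃ e : Vr κ m → Ordinal.{u}, Incr e ∧ (∀ v, e v < (Order.succ κ).ord) ∧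
    (∀ s : Tm (Vr κ m), ∀ o < ev 𝒜 e s, ∃ t : Tm (Vr κ m), ev 𝒜 e t = o) ∧ g = {f | Holds 𝒜 e f}}

/-- The map from diagrams to `P(κ)`. -/
def FF (𝒜 : Alg.{u}) (g : Set (Fact (Vr κ m))) : Set (Idx κ) :=
  {ξ | ∃ e : Vr κ m → Ordinal.{u}, Incr e ∧ g = {f | Holds 𝒜 e f} ∧ ξ ∈ XX 𝒜 e}

theorem mk_fact_le {V : Type u} (W : Set V) (c : Cardinal.{u}) (hc : ℵ₀ ≤ c)
    (hT : #{s : Tm V // VIn W s} ≤ c) : #{f : Fact V | f.Over W} ≤ c := by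
  have hinj : Function.Injective (fun f : {f : Fact V | f.Over W} =>
      ((⟨f.1.1, f.2.1⟩, ⟨f.1.2, f.2.2⟩) : {s : Tm V // VIn W s} × {s : Tm V // VIn W s})) := by
    rintro ⟨⟨a, b⟩, h⟩ ⟨⟨a', b'⟩, h'⟩ hh
    simp only [Prod.mk.injEq, Subtype.mk.injEq] at hh
    obtain ⟨rfl, rfl⟩ := hh
    rfl
  refine (Cardinal.mk_le_of_injective hinj).trans ?_
  rw [Cardinal.mk_prod]
  simp only [Cardinal.lift_id]
  exact (mul_le_mul' hT hT).trans (Cardinal.mul_eq_self hc).le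

theorem mk_Vr_le (hκ : ℵ₀ ≤ κ) : #(Vr κ m) ≤ κ := by
  rw [Cardinal.mk_sum]
  refine (Cardinal.add_le_max _ _).trans (max_le (max_le ?_ ?_) hκ)
  · simp
  · refine le_trans ?_ hκ
    simp

theorem mk_fact_Vr_le (hκ : ℵ₀ ≤ κ) : #(Fact (Vr κ m)) ≤ κ := by
  have h1 : {f : Fact (Vr κ m) | f.Over Set.univ} = Set.univ := by
    ext f
    simp only [mem_ofPred_eq, mem_univ, iff_true]
    exact ⟨vIn_univ _, vIn_univ _⟩
  rw [← Cardinal.mk_univ, ← h1]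
  refine mk_fact_le _ κ hκ ((card_vIn_le _).trans (max_le hκ ?_))
  rw [Cardinal.mk_univ]
  exact mk_Vr_le hκ

theorem mk_fact_below_lt (hunc : ℵ₀ < κ) {ε : Ordinal.{u}} (hε : ε < κ.ord) :
    #{f : Fact (Vr κ m) | f.Over (below ε)} < κ := by
  refine (mk_fact_le _ (max ℵ₀ ε.card) (le_max_left _ _) ?_).trans_lt
    (max_lt hunc (Cardinal.lt_ord.1 hε))
  exact (card_vIn_le _).trans (max_le (le_max_left _ _) (card_below_le ε))

theorem mk_fact_countable {V : Type u} {W : Set V} (hW : W.Countable) :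
    #{f : Fact V | f.Over W} ≤ ℵ₀ := by
  refine mk_fact_le _ ℵ₀ le_rfl ?_
  exact (Cardinal.le_aleph0_iff_set_countable).2 (countable_vIn hW)

/-- The set of diagrams is closed. -/
theorem DD_closed (hunc : ℵ₀ < κ) (hA : 𝒜.Cond (Order.succ κ).ord) (g : Set (Fact (Vr κ m)))
    (h : ∀ B : Set (Fact (Vr κ m)), #B < κ → ∃ g' ∈ DD 𝒜 κ m, g' ∩ B = g ∩ B) :
    g ∈ DD 𝒜 κ m := by
  have hcons : ∀ W : Set (Vr κ m), W.Countable → ∃ e, Good 𝒜 (Order.succ κ).ord g W e := by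
    intro W hW
    obtain ⟨g', ⟨e, -, hlt, -, rfl⟩, h2⟩ :=
      h {f | f.Over W} ((mk_fact_countable hW).trans_lt hunc)
    refine ⟨e, hlt, fun f hf => ?_⟩
    have h3 : f ∈ {f | Holds 𝒜 e f} ∩ {f | f.Over W} ↔ f ∈ g ∩ {f | f.Over W} := by rw [h2]
    constructor
    · exact fun h4 => (h3.2 ⟨h4, hf⟩).1
    · exact fun h4 => (h3.1 ⟨h4, hf⟩).1
  obtain ⟨e, he0, he1, he2⟩ := realization hunc.le hA (mk_Vr_le hunc.le) g hcons
  have hone : ∀ f : Fact (Vr κ m), (∀ e' : Vr κ m → Ordinal.{u}, Incr e' → Holds 𝒜 e' f) →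
      Holds 𝒜 e f := by
    intro f hf
    obtain ⟨g', ⟨e', h1, -, -, rfl⟩, h2⟩ := h {f} (by
      rw [Cardinal.mk_singleton]
      exact Cardinal.one_lt_aleph0.trans hunc)
    have h3 : f ∈ {f | Holds 𝒜 e' f} ∩ {f} := ⟨hf e' h1, rfl⟩
    rw [h2] at h3
    exact (he1 f).1 h3.1
  refine ⟨e, ⟨fun ξ η hlt => ?_, fun ξ => ?_⟩, he0, he2, ?_⟩
  · exact hone (.var (.inl ξ), .var (.inl η)) fun e' he' => he'.1 ξ η hlt
  · exact hone (.var (.inl ξ), .var (.inr 0)) fun e' he' => he'.2 ξ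
  · ext f
    exact he1 f

/-- Local dependence. -/
theorem XX_local {e e' : Vr κ m → Ordinal.{u}} (he : Incr e) {ε : Ordinal.{u}}
    (h : ∀ f : Fact (Vr κ m), f.Over (below ε) → (Holds 𝒜 e f ↔ Holds 𝒜 e' f)) {ξ : Idx κ}
    (hξ : num ξ < ε) (hmem : ξ ∈ XX 𝒜 e) : ξ ∈ XX 𝒜 e' := by
  obtain ⟨δ, hδ, hr⟩ := hmem
  have hδε : δ ≤ ε := (le_rho (𝒜 := 𝒜) he hδ.1.le).trans (hr.le.trans hξ.le)
  have hlt : ∀ s t : Tm (Vr κ m), VIn (below δ) s → VIn (below δ) t →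
      (ev 𝒜 e s < ev 𝒜 e t ↔ ev 𝒜 e' s < ev 𝒜 e' t) := fun s t hs ht =>
    h ((s, t)) ⟨hs.mono (below_mono hδε), ht.mono (below_mono hδε)⟩
  have heq : ∀ s t : Tm (Vr κ m), VIn (below δ) s → VIn (below δ) t →
      ev 𝒜 e s = ev 𝒜 e t → ev 𝒜 e' s = ev 𝒜 e' t := by
    intro s t hs ht hst
    have h1 := hlt s t hs ht
    have h2 := hlt t s ht hs
    rw [hst, lt_self_iff_false, false_iff, not_lt] at h1
    rw [hst, lt_self_iff_false, false_iff, not_lt] at h2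
    exact le_antisymm h2 h1
  have hrho : rho 𝒜 e δ = rho 𝒜 e' δ := by
    rw [rho, rho, hull_eq_range, hull_eq_range]
    exact otp_range_eq fun s t => hlt s.1 t.1 s.2 t.2
  refine ⟨δ, ⟨hδ.1, hδ.2.1, hδ.2.2.1, ?_⟩, hrho ▸ hr⟩
  rintro o ⟨s, hs, rfl⟩ ho
  have h1 : ev 𝒜 e s < e (.inr 0) := (hlt s (.var (.inr 0)) hs inr_mem_below).2 ho
  obtain ⟨ξ', h2, h3⟩ := hδ.2.2.2 _ ⟨s, hs, rfl⟩ h1
  exact ⟨ξ', h2, heq (.var (.inl ξ')) s (inl_mem_below.2 h2) hs h3⟩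

theorem FF_eq {e : Vr κ m → Ordinal.{u}} (he : Incr e) : FF 𝒜 {f | Holds 𝒜 e f} = XX 𝒜 e := by
  ext ξ
  constructor
  · rintro ⟨e', he', h1, h2⟩
    refine XX_local (ε := Order.succ (num ξ)) he' (fun f _ => ?_) (Order.lt_succ _) h2
    have h3 : f ∈ {f | Holds 𝒜 e f} ↔ f ∈ {f | Holds 𝒜 e' f} := by rw [h1]
    exact h3.symm
  · exact fun h => ⟨e, he, rfl, h⟩

/-- Continuity. -/
theorem FF_continuous (hreg : κ.IsRegular) (hunc : ℵ₀ < κ) (g : Set (Fact (Vr κ m)))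
    (hg : g ∈ DD 𝒜 κ m) (A : Set (Idx κ)) (hA : #A < κ) : ∃ B : Set (Fact (Vr κ m)), #B < κ ∧
      ∀ g' ∈ DD 𝒜 κ m, g' ∩ B = g ∩ B → FF 𝒜 g' ∩ A = FF 𝒜 g ∩ A := by
  have h1 : ⨆ ξ : A, Order.succ (num ξ.1) < κ.ord := by
    apply Ordinal.iSup_lt_of_lt_cof
    · rw [hreg.cof_ord]
      exact hA
    · intro ξ
      exact (Cardinal.isSuccLimit_ord hreg.aleph0_le).succ_lt (num_lt _)
  have h2 : ∀ ξ ∈ A, num ξ < ⨆ ξ : A, Order.succ (num ξ.1) := fun ξ hξ =>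
    (Order.lt_succ _).trans_le (Ordinal.le_iSup (fun ξ : A => Order.succ (num ξ.1)) ⟨ξ, hξ⟩)
  refine ⟨_, mk_fact_below_lt hunc h1, ?_⟩
  rintro g' ⟨e', he', -, -, rfl⟩ hgg
  obtain ⟨e, he, -, -, rfl⟩ := hg
  have h3 : ∀ f : Fact (Vr κ m), f.Over (below (⨆ ξ : A, Order.succ (num ξ.1))) →
      (Holds 𝒜 e f ↔ Holds 𝒜 e' f) := by
    intro f hf
    have h4 : f ∈ {f | Holds 𝒜 e' f} ∩ {f | f.Over (below (⨆ ξ : A, Order.succ (num ξ.1)))} ↔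
      f ∈ {f | Holds 𝒜 e f} ∩ {f | f.Over (below (⨆ ξ : A, Order.succ (num ξ.1)))} := by rw [hgg]
    constructor
    · exact fun h5 => (h4.2 ⟨h5, hf⟩).1
    · exact fun h5 => (h4.1 ⟨h5, hf⟩).1
  rw [FF_eq he, FF_eq he']
  ext ξ
  constructor
  · rintro ⟨h5, h6⟩
    exact ⟨XX_local he' (fun f hf => (h3 f hf).symm) (h2 ξ h6) h5, h6⟩
  · rintro ⟨h5, h6⟩
    exact ⟨XX_local he h3 (h2 ξ h6) h5, h6⟩

/-- Either the assignment is standard or `XX 𝒜 e` is small. -/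
theorem std_or_small (hκ : ℵ₀ ≤ κ) {e : Vr κ m → Ordinal.{u}} (he : Incr e)
    (hcol : ∀ s : Tm (Vr κ m), ∀ o < ev 𝒜 e s, ∃ t : Tm (Vr κ m), ev 𝒜 e t = o) :
    (∃ γ, Std 𝒜 e γ) ∨ XX 𝒜 e ∈ FinKappa κ := by
  by_cases hC : ∀ ε < κ.ord, ∃ δ ∈ CC 𝒜 e, ε ≤ δ
  · exact Or.inl (std_of_CC hκ he hcol hC)
  · right
    push Not at hC
    obtain ⟨ε, hε, hC⟩ := hC
    choose d hd1 hd2 using fun ξ : XX 𝒜 e => ξ.2
    have hinj : Function.Injective (fun ξ : XX 𝒜 e =>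
        (Ordinal.ToType.mk ⟨d ξ, hC _ (hd1 ξ)⟩ : ε.ToType)) := by
      intro ξ η hh
      have h1 := congrArg Subtype.val (Ordinal.ToType.mk.injective hh)
      simp only at h1
      apply Subtype.ext
      rw [← num_inj, ← hd2, ← hd2, h1]
    refine (Cardinal.mk_le_of_injective hinj).trans_lt ?_
    rw [Cardinal.mk_toType]
    exact Cardinal.lt_ord.1 hε

end Pool.Agent.H43L
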