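import Pool.Agent.Lib.H43L.A4

/-!
# The scale from a condensing algebra
-/

set_option autoImplicit false

universe u v w

namespace Pool.Agent.H43L

open Set Ordinal Cardinal

open Pool.Agent.Helper43.KK (Idx num idx num_idx num_lt num_lt_num num_le_num num_inj exists_num
  card_num_lt Vr below inl_mem_below inr_mem_below below_mono card_below_le otp otp_spec otp_le
  otp_le_of_map otp_mono le_otp bddAbove_range' card_otp_le otp_range_eq Incr enumerates_unique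
  leStar_of Large FinKappa LeStar Bdd IsScale IsKKappa IsKappaCompact IsWeaklyCompact Enumerates
  bNumber exists_enumerates large_of_strictMono exists_ub mk_Iio_lt mk_Iic_lt isScale_of_rank
  isKKappa_of image_kappaCompact)

variable {κ : Cardinal.{u}} {m m' : ℕ} {𝒜 : Alg.{u}}

/-- The scale. -/
def Scale (𝒜 : Alg.{u}) (κ : Cardinal.{u}) : Set (Set (Idx κ)) :=
  {x | ∃ (m : ℕ) (e : Vr κ m → Ordinal.{u}) (γ : Ordinal.{u}), Std 𝒜 e γ ∧ XX 𝒜 e = x}

/-- The rank function of the scale. -/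
noncomputable def srank (𝒜 : Alg.{u}) (x : Set (Idx κ)) : Ordinal.{u} :=
  sInf {γ | ∃ (m : ℕ) (e : Vr κ m → Ordinal.{u}), Std 𝒜 e γ ∧ XX 𝒜 e = x}

theorem srank_spec {x : Set (Idx κ)} (hx : x ∈ Scale 𝒜 κ) :
    ∃ (m : ℕ) (e : Vr κ m → Ordinal.{u}), Std 𝒜 e (srank 𝒜 x) ∧ XX 𝒜 e = x := by
  have h1 : srank 𝒜 x ∈ {γ | ∃ (m : ℕ) (e : Vr κ m → Ordinal.{u}), Std 𝒜 e γ ∧ XX 𝒜 e = x} := by
    apply csInf_mem
    obtain ⟨m, e, γ, h1, h2⟩ := hx
    exact ⟨γ, m, e, h1, h2⟩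
  exact h1

theorem Std.card_le (hκ : ℵ₀ ≤ κ) {m : ℕ} {e : Vr κ m → Ordinal.{u}} {γ : Ordinal.{u}}
    (h : Std 𝒜 e γ) : γ.card ≤ κ := by
  have h1 : Set.Iio γ ⊆ Set.range (fun s : Tm (Vr κ m) => ev 𝒜 e s) := by
    intro o ho
    exact (h.range o).2 ho
  have h2 : #(Tm (Vr κ m)) ≤ κ := card_tm_le.trans (max_le hκ (mk_Vr_le hκ))
  have h3 : Cardinal.lift.{u + 1} γ.card ≤ Cardinal.lift.{u + 1} κ := by
    rw [← Cardinal.mk_Iio_ordinal]
    refine (Cardinal.mk_le_mk_of_subset h1).trans ?_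
    have h4 := Cardinal.mk_range_le_lift (f := fun s : Tm (Vr κ m) => ev 𝒜 e s)
    rw [Cardinal.lift_id'.{u, u + 1}] at h4
    exact h4.trans (Cardinal.lift_le.2 h2)
  exact Cardinal.lift_le.1 h3

theorem scale_subset (hreg : κ.IsRegular) (hsl : κ.IsStrongLimit) (hunc : ℵ₀ < κ) :
    Scale 𝒜 κ ⊆ Large κ := by
  rintro _ ⟨m, e, γ, h, rfl⟩
  exact h.large hreg hsl hunc

/-- Each cofinal set is captured by the algebra. -/
def Capture (𝒜 : Alg.{u}) (κ : Cardinal.{u}) : Prop :=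
  ∀ b ∈ Large κ, ∃ (n : ℕ) (u p : Ordinal.{u}), u < (Order.succ κ).ord ∧
    p < (Order.succ κ).ord ∧ ∀ ξ : Idx κ, ∃ η ∈ b, ξ < η ∧
      𝒜.g n (𝒜.p u (𝒜.p p (num ξ))) = num η

theorem holds_eq_iff {V : Type u} {e e' : V → Ordinal.{u}}
    (h : ∀ f : Fact V, Holds 𝒜 e f ↔ Holds 𝒜 e' f)
    {s t : Tm V} : ev 𝒜 e s = ev 𝒜 e t ↔ ev 𝒜 e' s = ev 𝒜 e' t := by
  have h1 := h (s, t)
  have h2 := h (t, s)
  simp only [Holds] at h1 h2
  constructor
  · intro hh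
    rw [hh, lt_self_iff_false, false_iff, not_lt] at h1
    rw [hh, lt_self_iff_false, false_iff, not_lt] at h2
    exact le_antisymm h2 h1
  · intro hh
    rw [hh, lt_self_iff_false, iff_false, not_lt] at h1
    rw [hh, lt_self_iff_false, iff_false, not_lt] at h2
    exact le_antisymm h2 h1

theorem exists_std (hκ : ℵ₀ ≤ κ) (hA : 𝒜.Cond (Order.succ κ).ord) (hC : Capture 𝒜 κ)
    {b : Set (Idx κ)} (hb : b ∈ Large κ) :
    ∃ (m : ℕ) (e : Vr κ m → Ordinal.{u}) (γ : Ordinal.{u}), Std 𝒜 e γ ∧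
      ∀ δ ∈ CC 𝒜 e, ∀ ξ : Idx κ, num ξ < δ → ∃ η ∈ b, ξ ≤ η ∧ num η < δ := by
  obtain ⟨n, u, p, hu, hp, hcap⟩ := hC b hb
  have hκs : κ.ord < (Order.succ κ).ord := Cardinal.ord_lt_ord.2 (Order.lt_succ κ)
  -- the assignment
  let e0 : Vr κ 2 → Ordinal.{u} := Sum.elim num ![κ.ord, u, p]
  have e0l : ∀ ξ, e0 (.inl ξ) = num ξ := fun ξ => rfl
  have e0lt : ∀ v, e0 v < (Order.succ κ).ord := by
    rintro (ξ | i)
    · exact (num_lt ξ).trans hκs
    · fin_cases i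
      · exact hκs
      · exact hu
      · exact hp
  obtain ⟨e, -, he1, he2⟩ := realization hκ hA (mk_Vr_le hκ) {f | Holds 𝒜 e0 f}
    fun W _ => ⟨e0, e0lt, fun f _ => Iff.rfl⟩
  have hF : ∀ f, Holds 𝒜 e0 f ↔ Holds 𝒜 e f := fun f => he1 f
  have hlt : ∀ s t, ev 𝒜 e0 s < ev 𝒜 e0 t ↔ ev 𝒜 e s < ev 𝒜 e t := fun s t => hF (s, t)
  have hincr : Incr e := by
    constructor
    · intro ξ η h
      refine (hlt (.var (.inl ξ)) (.var (.inl η))).1 ?_
      exact num_lt_num.2 h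
    · intro ξ
      refine (hlt (.var (.inl ξ)) (.var (.inr 0))).1 ?_
      exact num_lt ξ
  obtain ⟨γ, hγ⟩ : ∃ γ, Std 𝒜 e γ := by
    refine std_of hincr he2 ?_
    intro s hs
    have h1 : ev 𝒜 e0 s < κ.ord := (hlt s (.var (.inr 0))).2 hs
    obtain ⟨ξ, hξ⟩ := exists_num h1
    exact ⟨ξ, (holds_eq_iff hF (s := .var (.inl ξ)) (t := s)).1 hξ⟩
  refine ⟨2, e, γ, hγ, ?_⟩
  intro δ hδ ξ hξ
  obtain ⟨η, hηb, hξη, hval⟩ := hcap ξ
  let w : Tm (Vr κ 2) := .g n (.p (.var (.inr 1)) (.p (.var (.inr 2)) (.var (.inl ξ))))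
  have hw : ev 𝒜 e0 w = num η := hval
  have ow : VIn (below δ) w := ⟨inr_mem_below, inr_mem_below, inl_mem_below.2 hξ⟩
  have h8 : ev 𝒜 e w = ev 𝒜 e (.var (.inl η)) :=
    (holds_eq_iff hF (s := w) (t := .var (.inl η))).1 hw
  have h9 : ev 𝒜 e w < e (.inr 0) := by
    rw [h8]
    exact hincr.2 η
  obtain ⟨ξ', hξ'1, hξ'2⟩ := hδ.2.2.2 _ ⟨w, ow, rfl⟩ h9
  have h10 : e (.inl ξ') = e (.inl η) := hξ'2.trans h8
  rw [hγ.inl, hγ.inl, num_inj] at h10
  subst h10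
  exact ⟨ξ', hηb, hξη.le, hξ'1⟩

theorem scale_unbounded (hunc : ℵ₀ < κ) (hA : 𝒜.Cond (Order.succ κ).ord) (hC : Capture 𝒜 κ) :
    ¬ Bdd (Scale 𝒜 κ) := by
  rintro ⟨b, hb, h⟩
  obtain ⟨m, e, γ, he, hcl⟩ := exists_std hunc.le hA hC hb
  exact not_leStar_XX hunc he hcl (h _ ⟨m, e, γ, he, rfl⟩)

theorem scale_isScale (hA : 𝒜.Cond (Order.succ κ).ord) (hC : Capture 𝒜 κ) (hreg : κ.IsRegular) (hsl : κ.IsStrongLimit)
    (hunc : ℵ₀ < κ) : IsScale κ (Scale 𝒜 κ) := by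
  have hκ : ℵ₀ ≤ κ := hunc.le
  refine isScale_of_rank hreg _ (scale_subset hreg hsl hunc) (scale_unbounded hunc hA hC) (srank 𝒜)
    ?_ ?_ ?_
  · intro x hx
    obtain ⟨m, e, he, -⟩ := srank_spec hx
    rw [Cardinal.lt_ord, Order.lt_succ_iff]
    exact he.card_le hκ
  · intro γ
    by_cases hγ : γ.card ≤ κ
    · -- choose representatives
      have h1 : ∀ x : {x // x ∈ Scale 𝒜 κ ∧ srank 𝒜 x = γ}, ∃ (m : ℕ) (e : Vr κ m → Ordinal.{u}),
          Std 𝒜 e γ ∧ XX 𝒜 e = x.1 := by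
        rintro ⟨x, hx, rfl⟩
        exact srank_spec hx
      choose m e he hxe using h1
      have hlt : ∀ x (i : Fin (m x + 1)), e x (.inr i) < γ := fun x i =>
        ((he x).range _).1 ⟨.var (.inr i), rfl⟩
      let J : {x // x ∈ Scale 𝒜 κ ∧ srank 𝒜 x = γ} → List γ.ToType := fun x =>
        List.ofFn (fun i : Fin (m x + 1) => (Ordinal.ToType.mk ⟨e x (.inr i), hlt x i⟩ : γ.ToType))
      have hJ : Function.Injective J := by
        intro x y hxy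
        have key : ∀ (n1 n2 : ℕ) (e1 : Vr κ n1 → Ordinal.{u}) (e2 : Vr κ n2 → Ordinal.{u})
            (s1 : Std 𝒜 e1 γ) (s2 : Std 𝒜 e2 γ) (l1 : ∀ i, e1 (.inr i) < γ)
            (l2 : ∀ i, e2 (.inr i) < γ),
            List.ofFn (fun i : Fin (n1 + 1) =>
              (Ordinal.ToType.mk ⟨e1 (.inr i), l1 i⟩ : γ.ToType)) =
            List.ofFn (fun i : Fin (n2 + 1) =>
              (Ordinal.ToType.mk ⟨e2 (.inr i), l2 i⟩ : γ.ToType)) → XX 𝒜 e1 = XX 𝒜 e2 := by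
          intro n1 n2 e1 e2 s1 s2 l1 l2 hl
          have hn : n1 = n2 := by
            have := congrArg List.length hl
            simpa using this
          subst hn
          have h2 := List.ofFn_inj.1 hl
          have h3 : e1 = e2 := by
            funext v
            rcases v with ξ | i
            · rw [s1.inl, s2.inl]
            · have h4 := congrFun h2 i
              have h5 := congrArg Subtype.val (Ordinal.ToType.mk.injective h4)
              exact h5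
          rw [h3]
        apply Subtype.ext
        rw [← hxe x, ← hxe y]
        exact key _ _ _ _ (he x) (he y) (hlt x) (hlt y) hxy
      refine (Cardinal.mk_le_of_injective hJ).trans ?_
      refine (Cardinal.mk_list_le_max _).trans (max_le hκ ?_)
      rw [Cardinal.mk_toType]
      exact hγ
    · have : IsEmpty {x // x ∈ Scale 𝒜 κ ∧ srank 𝒜 x = γ} := by
        refine ⟨?_⟩
        rintro ⟨x, hx, rfl⟩
        obtain ⟨m, e, he, -⟩ := srank_spec hx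
        exact hγ (he.card_le hκ)
      rw [Cardinal.mk_eq_zero]
      exact zero_le
  · intro x hx y hy hle
    obtain ⟨m, e, he, hxe⟩ := srank_spec hx
    obtain ⟨m', e', he', hye⟩ := srank_spec hy
    obtain ⟨fx, hfx⟩ := exists_enumerates (scale_subset hreg hsl hunc hx)
    obtain ⟨fy, hfy⟩ := exists_enumerates (scale_subset hreg hsl hunc hy)
    rw [← hxe] at hfx ⊢
    rw [← hye] at hfy ⊢
    exact leStar_XX hunc he' he hle hfy hfx

theorem scale_kKappa (h : IsWeaklyCompact κ) (hA : 𝒜.Cond (Order.succ κ).ord) : IsKKappa κ (Scale 𝒜 κ ∪ FinKappa κ) := by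
  have hreg := h.isRegular
  have hsl := h.isStrongLimit
  have hunc := h.1
  have hκ : ℵ₀ ≤ κ := hunc.le
  refine isKKappa_of hreg hsl (fun m => FF 𝒜 '' DD 𝒜 κ m) ?_ _ ?_ ?_
  · intro m
    exact image_kappaCompact h (mk_fact_Vr_le hκ) (DD 𝒜 κ m) (fun g hg => DD_closed hunc hA g hg) (FF 𝒜)
      fun g hg A hA => FF_continuous hreg hunc g hg A hA
  · rintro _ ⟨m, e, γ, he, rfl⟩
    refine mem_iUnion.2 ⟨m, {f | Holds 𝒜 e f}, ⟨e, he.incr, ?_, ?_, rfl⟩, FF_eq he.incr⟩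
    · intro v
      refine ((he.range _).1 ⟨.var v, rfl⟩).trans ?_
      rw [Cardinal.lt_ord, Order.lt_succ_iff]
      exact he.card_le hκ
    intro s o ho
    exact (he.range o).2 (ho.trans ((he.range _).1 ⟨s, rfl⟩))
  · rintro m _ ⟨g, ⟨e, he, -, hcol, rfl⟩, rfl⟩
    rw [FF_eq he]
    rcases std_or_small hκ he hcol with ⟨γ, hγ⟩ | hs
    · exact Or.inl ⟨m, e, γ, hγ, rfl⟩
    · exact Or.inr hs

/-- For every weakly compact cardinal `κ` with a condensing algebra on `κ⁺` which captures all cofinal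
subsets of `κ` there is a `𝔟_κ`-scale `X` such that `X ∪ Fin_κ` is `K_κ`. -/
theorem exists_scale_of_alg (h : IsWeaklyCompact κ) (hA : 𝒜.Cond (Order.succ κ).ord)
    (hC : Capture 𝒜 κ) : ∃ X : Set (Set (Idx κ)), IsScale κ X ∧ IsKKappa κ (X ∪ FinKappa κ) :=
  ⟨Scale 𝒜 κ, scale_isScale hA hC h.isRegular h.isStrongLimit h.1, scale_kKappa h hA⟩

end Pool.Agent.H43L
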