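import Pool.Agent.Lib.Helper43.KK.Final

/-!
# Condensing algebras on the ordinals: terms
-/

set_option autoImplicit false

universe u v w

namespace Pool.Agent.H43L

open Set Ordinal Cardinal

/-- Countably many unary functions and a binary function on the ordinals. -/
structure Alg where
  g : ℕ → Ordinal.{u} → Ordinal.{u}
  p : Ordinal.{u} → Ordinal.{u} → Ordinal.{u}

/-- `S` is closed under the functions. -/
structure Alg.Closed (A : Alg.{u}) (S : Set Ordinal.{u}) : Prop where
  g : ∀ n, ∀ x ∈ S, A.g n x ∈ S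
  p : ∀ x ∈ S, ∀ y ∈ S, A.p x y ∈ S

/-- `f` is an isomorphism of `S` onto an initial segment of the ordinals. -/
structure Alg.Iso (A : Alg.{u}) (S : Set Ordinal.{u}) (f : Ordinal.{u} → Ordinal.{u}) : Prop where
  mono : ∀ x ∈ S, ∀ y ∈ S, x < y → f x < f y
  init : ∀ x ∈ S, ∀ z < f x, ∃ y ∈ S, f y = z
  g : ∀ n, ∀ x ∈ S, f (A.g n x) = A.g n (f x)
  p : ∀ x ∈ S, ∀ y ∈ S, f (A.p x y) = A.p (f x) (f y)

/-- Condensation below `l`, for countable subalgebras. -/
structure Alg.Cond (A : Alg.{u}) (l : Ordinal.{u}) : Prop where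
  closed : A.Closed (Iio l)
  iso : ∀ S ⊆ Iio l, S.Countable → A.Closed S → ∃ f, A.Iso S f

/-- Terms with variables in `V`. -/
inductive Tm (V : Type u) : Type u
  | var (v : V) : Tm V
  | g (n : ℕ) (t : Tm V) : Tm V
  | p (s t : Tm V) : Tm V

variable {V : Type u}

/-- Evaluation of terms. -/
noncomputable def ev (A : Alg.{v}) (e : V → Ordinal.{v}) : Tm V → Ordinal.{v}
  | .var v => e v
  | .g n t => A.g n (ev A e t)
  | .p s t => A.p (ev A e s) (ev A e t)

/-- All variables of the term lie in `W`. -/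
def VIn (W : Set V) : Tm V → Prop
  | .var v => v ∈ W
  | .g _ t => VIn W t
  | .p s t => VIn W s ∧ VIn W t

theorem VIn.mono {W W' : Set V} (h : W ⊆ W') {s : Tm V} (hs : VIn W s) : VIn W' s := by
  induction s with
  | var v => exact h hs
  | g n t ih => exact ih hs
  | p s t ih ih' => exact ⟨ih hs.1, ih' hs.2⟩

theorem exists_finite_vIn (s : Tm V) : ∃ W : Set V, W.Finite ∧ VIn W s := by
  induction s with
  | var v => exact ⟨{v}, finite_singleton v, mem_singleton v⟩
  | g n t ih => exact ih
  | p s t ih ih' =>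
    obtain ⟨W, hW, h⟩ := ih
    obtain ⟨W', hW', h'⟩ := ih'
    exact ⟨W ∪ W', hW.union hW', h.mono subset_union_left, h'.mono subset_union_right⟩

theorem ev_congr {A : Alg.{v}} {W : Set V} {e e' : V → Ordinal.{v}} (h : ∀ v ∈ W, e v = e' v)
    {s : Tm V} (hs : VIn W s) : ev A e s = ev A e' s := by
  induction s with
  | var v => exact h v hs
  | g n t ih => simp only [ev]; rw [ih hs]
  | p s t ih ih' => simp only [ev]; rw [ih hs.1, ih' hs.2]

theorem ev_mem {A : Alg.{v}} {S : Set Ordinal.{v}} (hS : A.Closed S) {W : Set V}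
    {e : V → Ordinal.{v}} (h : ∀ v ∈ W, e v ∈ S) {s : Tm V} (hs : VIn W s) : ev A e s ∈ S := by
  induction s with
  | var v => exact h v hs
  | g n t ih => exact hS.g n _ (ih hs)
  | p s t ih ih' => exact hS.p _ (ih hs.1) _ (ih' hs.2)

/-- Shapes of terms. -/
def tmβ : V ⊕ ℕ ⊕ Unit → Type
  | .inl _ => Empty
  | .inr (.inl _) => Unit
  | .inr (.inr _) => Bool

instance (a : V ⊕ ℕ ⊕ Unit) : Finite (tmβ a) := by
  rcases a with a | a | a
  · exact inferInstanceAs (Finite Empty)
  · exact inferInstanceAs (Finite Unit)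
  · exact inferInstanceAs (Finite Bool)

/-- A term as a tree. -/
def tmW : Tm V → WType (tmβ (V := V))
  | .var v => ⟨.inl v, fun x => x.elim⟩
  | .g n t => ⟨.inr (.inl n), fun _ => tmW t⟩
  | .p s t => ⟨.inr (.inr ()), fun b => Bool.rec (motive := fun _ => WType (tmβ (V := V)))
      (tmW t) (tmW s) b⟩

theorem tmW_inj (s t : Tm V) (h : tmW s = tmW t) : s = t := by
  induction s generalizing t with
  | var v =>
    cases t with
    | var v' =>
      simp only [tmW, WType.mk.injEq, Sum.inl.injEq] at h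
      rw [h.1]
    | g n t => simp [tmW] at h
    | p s t => simp [tmW] at h
  | g n s ih =>
    cases t with
    | var v' => simp [tmW] at h
    | g n' t =>
      simp only [tmW, WType.mk.injEq, Sum.inr.injEq, Sum.inl.injEq] at h
      obtain ⟨rfl, h⟩ := h
      have h1 := congrFun (eq_of_heq h) ()
      rw [ih t h1]
    | p s t => simp [tmW] at h
  | p s s' ih ih' =>
    cases t with
    | var v' => simp [tmW] at h
    | g n' t => simp [tmW] at h
    | p t t' =>
      unfold tmW at h
      injection h with h1 h2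
      have h0 := h2
      have h3 : tmW s = tmW t := congrFun h0 true
      have h4 : tmW s' = tmW t' := congrFun h0 false
      rw [ih t h3, ih' t' h4]

theorem card_tm_le : #(Tm V) ≤ max ℵ₀ #V := by
  refine (Cardinal.mk_le_of_injective (f := tmW (V := V)) fun s t h => tmW_inj s t h).trans ?_
  refine WType.cardinalMk_le_max_aleph0_of_finite'.trans ?_
  refine max_le ?_ (le_max_left _ _)
  rw [Cardinal.lift_uzero, Cardinal.mk_sum]
  refine (Cardinal.add_le_max _ _).trans ?_
  refine max_le (max_le ?_ ?_) (le_max_left _ _)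
  · rw [Cardinal.lift_uzero]
    exact le_max_right _ _
  · refine le_trans ?_ (le_max_left _ _)
    have : #(ℕ ⊕ Unit) ≤ ℵ₀ := Cardinal.mk_le_aleph0
    exact (Cardinal.lift_le.2 this).trans Cardinal.lift_aleph0.le

theorem exists_tm_of_vIn {W : Set V} {s : Tm V} (hs : VIn W s) : ∃ t : Tm W,
    s = Tm.rec (motive := fun _ => Tm V) (fun v => .var v.1) (fun n _ r => .g n r)
      (fun _ _ r r' => .p r r') t := by
  induction s with
  | var v => exact ⟨.var ⟨v, hs⟩, rfl⟩
  | g n t ih =>
    obtain ⟨t', h⟩ := ih hs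
    exact ⟨.g n t', by rw [h]⟩
  | p s t ih ih' =>
    obtain ⟨s', h⟩ := ih hs.1
    obtain ⟨t', h'⟩ := ih' hs.2
    exact ⟨.p s' t', by rw [h, h']⟩

theorem card_vIn_le (W : Set V) : #{s : Tm V // VIn W s} ≤ max ℵ₀ #W := by
  have h1 : ∀ s : {s : Tm V // VIn W s}, ∃ t : Tm W, s.1 = Tm.rec (motive := fun _ => Tm V)
      (fun v => .var v.1) (fun n _ r => .g n r) (fun _ _ r r' => .p r r') t :=
    fun s => exists_tm_of_vIn s.2
  choose F hF using h1
  have hinj : Function.Injective F := by
    intro a b hab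
    apply Subtype.ext
    rw [hF a, hF b, hab]
  exact (Cardinal.mk_le_of_injective hinj).trans card_tm_le

theorem countable_vIn {W : Set V} (hW : W.Countable) : {s : Tm V | VIn W s}.Countable := by
  rw [← Cardinal.le_aleph0_iff_set_countable]
  refine (card_vIn_le W).trans (max_le le_rfl ?_)
  exact Cardinal.le_aleph0_iff_set_countable.2 hW

/-- A fact: an inequality between two terms. -/
abbrev Fact (V : Type u) : Type u := Tm V × Tm V

/-- The variables of the fact lie in `W`. -/
def Fact.Over (W : Set V) (f : Fact V) : Prop := VIn W f.1 ∧ VIn W f.2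

/-- The fact `s < t` holds for the assignment. -/
def Holds (A : Alg.{v}) (e : V → Ordinal.{v}) (f : Fact V) : Prop := ev A e f.1 < ev A e f.2

/-- `e` realizes the facts over `W`. -/
def Good (A : Alg.{v}) (l : Ordinal.{v}) (g : Set (Fact V)) (W : Set V) (e : V → Ordinal.{v}) : Prop :=
  (∀ v, e v < l) ∧ ∀ f : Fact V, f.Over W → (f ∈ g ↔ Holds A e f)

end Pool.Agent.H43L
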