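import Pool.Agent.Lib.H5Z.Defs

/-!
# A weakly compact cardinal and a condensing algebra, as a first-order sentence

`CondIn E` is a sentence about the structure `(M, E)`: there are a well-ordered set `(U, R)` and
countably many functions `G_n : U → U`, such that `U` is closed under Kuratowski pairs, and

* every subset of `U` closed under the functions and under pairs is isomorphic, as an ordered
  algebra, to an initial segment of `U` (condensation);
* `K` is a proper initial segment of `U`, uncountable, and weakly compact: each sequence of subsets of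
  `K` indexed by `K` has a cluster point;
* `U` is of size `|K|⁺`;
* each cofinal subset `b` of `K` is captured by one of the functions.
-/

set_option autoImplicit false

open Set Function

namespace Pool.Agent.H43L

open Pool.Agent.H5Z (Rel IsPair IsOmega)

variable {M : Type*} (E : M → M → Prop)

/-- `((n, x), y) ∈ G`, that is `G_n(x) = y`. -/
def App (G n x y : M) : Prop := ∃ q, IsPair E q n x ∧ Rel E q y G

/-- `G_n(u, (p, x)) = y`. -/
def Val (G n u p x y : M) : Prop :=
  ∃ q r, IsPair E q p x ∧ IsPair E r u q ∧ App E G n r y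

/-- `f` is an injection of the class `P` into the set `K`. -/
def Injects (P : M → Prop) (K f : M) : Prop :=
  (∀ y, P y → ∃ c, E c K ∧ Rel E y c f) ∧
    ∀ y y' c, P y → P y' → E c K → Rel E y c f → Rel E y' c f → y = y'

/-- `(U, R)` is a well-ordered set closed under Kuratowski pairs, `w = ω`, and `G` gives functions
`G_n : U → U`, `n ∈ ω`. -/
structure IsAlg (w U R G : M) : Prop where
  omega : IsOmega E w
  irrefl : ∀ x, E x U → ¬ Rel E x x R
  trans : ∀ x y z, E x U → E y U → E z U → Rel E x y R → Rel E y z R → Rel E x z R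
  total : ∀ x y, E x U → E y U → x ≠ y → Rel E x y R ∨ Rel E y x R
  wf : ∀ s, (∃ x, E x s ∧ E x U) → ∃ x, E x s ∧ E x U ∧ ∀ y, E y s → E y U → ¬ Rel E y x R
  pair : ∀ x y p, E x U → E y U → IsPair E p x y → E p U
  app : ∀ n x, E n w → E x U → ∃ y, E y U ∧ App E G n x y
  unique : ∀ n x y y', E n w → E x U → App E G n x y → App E G n x y' → y = y'

/-- `S` is a subalgebra of `U`. -/
structure IsSub (w U G S : M) : Prop where
  sub : ∀ x, E x S → E x U
  app : ∀ n x y, E n w → E x S → App E G n x y → E y S
  pair : ∀ x y p, E x S → E y S → IsPair E p x y → E p S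

/-- `f` is an isomorphism of the ordered algebra `S` onto an initial segment of `U`. -/
structure IsIso (w U R G S f : M) : Prop where
  total : ∀ x, E x S → ∃ y, E y U ∧ Rel E x y f
  unique : ∀ x y y', E x S → Rel E x y f → Rel E x y' f → y = y'
  mono : ∀ x x' y y', E x S → E x' S → Rel E x y f → Rel E x' y' f → Rel E x x' R → Rel E y y' R
  init : ∀ x y z, E x S → Rel E x y f → E z U → Rel E z y R → ∃ x', E x' S ∧ Rel E x' z f
  app : ∀ n x x' y y', E n w → E x S → App E G n x x' → Rel E x y f → Rel E x' y' f →
    App E G n y y'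
  pair : ∀ p x x' q y y', E x S → E x' S → IsPair E p x x' → Rel E x y f → Rel E x' y' f →
    Rel E p q f → IsPair E q y y'

/-- The data: see the introduction of this file. -/
structure CondData (w U R G K : M) : Prop where
  alg : IsAlg E w U R G
  cond : ∀ S, IsSub E w U G S → ∃ f, IsIso E w U R G S f
  sub : ∀ x, E x K → E x U
  init : ∀ x y, E x K → E y U → Rel E y x R → E y K
  limit : ∃ a, E a K ∧ (∃ x, E x U ∧ Rel E x a R) ∧
    ∀ x, E x U → Rel E x a R → ∃ y, E y U ∧ Rel E x y R ∧ Rel E y a R
  cluster : ∀ F, ∃ b, ∀ a, E a K → ∃ i, E i K ∧ Rel E a i R ∧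
    ∀ x, E x U → Rel E x a R → (E x b ↔ Rel E i x F)
  small : ∀ x, E x U → ∃ f, Injects E (fun y => E y U ∧ Rel E y x R) K f
  large : ∀ f, ¬ Injects E (fun y => E y U) K f
  capture : ∀ b, (∀ x, E x K → ∃ y, E y K ∧ E y b ∧ Rel E x y R) →
    ∃ n u p, E n w ∧ E u U ∧ E p U ∧
      ∀ x, E x K → ∃ y, E y K ∧ E y b ∧ Rel E x y R ∧ Val E G n u p x y

/-- There are a weakly compact cardinal and a condensing algebra of the size of its successor. -/
def CondIn : Prop := ∃ w U R G K : M, CondData E w U R G K

end Pool.Agent.H43L
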