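import Pool.Agent.Lib.H43L.U2

/-!
# The functions of the algebra on the constructible universe
-/

set_option autoImplicit false

open Set Function

namespace Pool.Agent.H43L

open Pool.Agent.H94L

/-- `u` is a level -/
def IsLev (u : ZFSet.{0}) : Prop := TT u ∅ ∅ ∅ u

/-- `u` is a limit level -/
def LimLev (u : ZFSet.{0}) : Prop :=
  IsLev u ∧ (∃ v ∈ u, IsLev v) ∧ ∀ v ∈ u, IsLev v → ∃ w ∈ u, IsLev w ∧ v ∈ w

/-- `u` is the least limit level with `x ∈ u` -/
def Top (x u : ZFSet.{0}) : Prop := LimLev u ∧ x ∈ u ∧ ∀ v ∈ u, LimLev v → x ∉ v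

/-- `z` is the least element of the level `u` which satisfies the formula with number `m` and
parameter `p` in `u` -/
def Wit (m u p z : ZFSet.{0}) : Prop :=
  z ∈ u ∧ TT u m p ∅ z ∧ ∀ y ∈ u, WW y z → ¬ TT u m p ∅ y

/-- `z` is the least witness for the pair `x = (u, p)`, and `∅` if there is none -/
def WitPair (m x z : ZFSet.{0}) : Prop :=
  (∃ u p, x = ZFSet.pair u p ∧ Wit m u p z) ∨
    (¬ ∃ u p z', x = ZFSet.pair u p ∧ Wit m u p z') ∧ z = ∅

/-- the graph of the functions -/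
def GR (n x y : ZFSet.{0}) : Prop :=
  (n = ∅ ∧ Top x y) ∨ ∃ m, n = insert m m ∧ WitPair m x y

open Classical in
/-- the functions -/
noncomputable def GG (k : ℕ) (x : ZFSet.{0}) : ZFSet.{0} :=
  if h : ∃ y, GR (nat k) x y then h.choose else ∅

/-- a limit of limit ordinals -/
def LimLim (δ : Ordinal.{0}) : Prop := 0 < δ ∧ ∀ β < δ, ∃ γ, β < γ ∧ γ < δ ∧ Lim γ

theorem LimLim.lim {δ : Ordinal.{0}} (h : LimLim δ) : Lim δ := by
  refine ⟨h.1, fun β hβ => ?_⟩
  obtain ⟨γ, h1, h2, h3⟩ := h.2 β hβ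
  exact (h3.2 β h1).trans h2

/-- nice classes of constructible sets -/
def NiceL (A : ZFSet.{0} → Prop) : Prop := Nice A ∧ ∀ x, A x → LL x

theorem niceL_Lev {δ : Ordinal.{0}} (hδ : Lim δ) : NiceL (cl (Lev δ)) :=
  ⟨nice_Lev hδ, fun _ hx => ⟨δ, hx⟩⟩

theorem niceL_LL : NiceL LL := ⟨nice_LL, fun _ h => h⟩

end Pool.Agent.H43L
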