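import Pool.Agent.Lib.H43L.G0

/-!
# Chunk G0a: levels and limit levels

`TT_iff`, `Lev_inj`, `Lev_mem_Lev`, `empty_mem_Lev`, `nat 0 = ∅`.  For `limLev_iff`: `u = Lev γ`, the levels in `u` are the
`Lev β`, `β < γ`; `0 < γ` iff there is a level in `u`; if `β < γ` and `Lev β ∈ Lev β' ∈ Lev γ` then `β + 1 ≤ β' < γ`;
conversely take `Lev (β + 1)`.
-/

set_option autoImplicit false

open Set Function

namespace Pool.Agent.H43L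

open Pool.Agent.H94L

theorem isLev_iff (u : ZFSet.{0}) : IsLev u ↔ ∃ γ, u = Lev γ := by
  unfold IsLev
  rw [TT_iff]
  constructor
  · rintro ⟨γ, k, h, -⟩
    exact ⟨γ, h⟩
  · rintro ⟨γ, h⟩
    exact ⟨γ, 0, h, rfl, empty_mem_Lev γ, empty_mem_Lev γ, Or.inl h⟩

theorem g0a_isLev (γ : Ordinal.{0}) : IsLev (Lev γ) := (isLev_iff _).2 ⟨γ, rfl⟩

theorem limLev_iff (u : ZFSet.{0}) : LimLev u ↔ ∃ γ, Lim γ ∧ u = Lev γ := by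
  constructor
  · rintro ⟨h1, ⟨v, hv, hv1⟩, h3⟩
    obtain ⟨γ, rfl⟩ := (isLev_iff u).1 h1
    obtain ⟨β, rfl⟩ := (isLev_iff v).1 hv1
    refine ⟨γ, ⟨lt_of_le_of_lt zero_le (Lev_mem_Lev.1 hv), fun β hβ => ?_⟩, rfl⟩
    obtain ⟨w, hw, hw1, hw2⟩ := h3 _ (Lev_mem_Lev.2 hβ) (g0a_isLev β)
    obtain ⟨β', rfl⟩ := (isLev_iff w).1 hw1
    exact lt_of_le_of_lt (Order.add_one_le_of_lt (Lev_mem_Lev.1 hw2)) (Lev_mem_Lev.1 hw)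
  · rintro ⟨γ, hγ, rfl⟩
    refine ⟨g0a_isLev γ, ⟨Lev 0, Lev_mem_Lev.2 hγ.1, g0a_isLev 0⟩, fun v hv hv1 => ?_⟩
    obtain ⟨β, rfl⟩ := (isLev_iff v).1 hv1
    exact ⟨Lev (β + 1), Lev_mem_Lev.2 (hγ.2 β (Lev_mem_Lev.1 hv)), g0a_isLev _,
      Lev_mem_Lev.2 (NICE_lt β)⟩

end Pool.Agent.H43L
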