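import Pool.Agent.Lib.H43L.G0a

/-!
# Chunk G0b: the least limit level containing a given set

`limLev_iff`; existence: the least `γ` with `Lim γ`, `x ∈ Lev γ` (`exists_closed` gives one: for `x ∈ Lev β` there is a limit
`γ > β`; `WellFounded.has_min` for the ordinals).
-/

set_option autoImplicit false

open Set Function

namespace Pool.Agent.H43L

open Pool.Agent.H94L

theorem top_iff (x u : ZFSet.{0}) : Top x u ↔ ∃ γ, Lim γ ∧ u = Lev γ ∧ x ∈ Lev γ ∧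
    ∀ β < γ, Lim β → x ∉ Lev β := by
  constructor
  · rintro ⟨h1, h2, h3⟩
    obtain ⟨γ, hγ, rfl⟩ := (limLev_iff u).1 h1
    exact ⟨γ, hγ, rfl, h2, fun β hβ hlim => h3 _ (Lev_mem_Lev.2 hβ)
      ((limLev_iff _).2 ⟨β, hlim, rfl⟩)⟩
  · rintro ⟨γ, hγ, rfl, h2, h3⟩
    refine ⟨(limLev_iff _).2 ⟨γ, hγ, rfl⟩, h2, fun v hv hv1 => ?_⟩
    obtain ⟨β, hβ, rfl⟩ := (limLev_iff v).1 hv1
    exact h3 β (Lev_mem_Lev.1 hv) hβ

theorem exists_top {x : ZFSet.{0}} (hx : LL x) : ∃ u, Top x u := by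
  obtain ⟨β, hβ⟩ := hx
  obtain ⟨δ, hδ, hlim, -⟩ := exists_closed (fun γ => γ) β
  obtain ⟨γ, ⟨h1, h2⟩, h3⟩ := WellFounded.has_min (wellFounded_lt (α := Ordinal.{0}))
    {γ | Lim γ ∧ x ∈ Lev γ} ⟨δ, hlim, Lev_mono hδ.le hβ⟩
  exact ⟨Lev γ, (top_iff x _).2 ⟨γ, h1, rfl, h2, fun β hβ hlim hx => h3 β ⟨hlim, hx⟩ hβ⟩⟩

theorem Top.unique {x u u' : ZFSet.{0}} (h : Top x u) (h' : Top x u') : u = u' := by
  obtain ⟨γ, h1, rfl, h2, h3⟩ := (top_iff x u).1 h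
  obtain ⟨γ', h1', rfl, h2', h3'⟩ := (top_iff x u').1 h'
  rcases lt_trichotomy γ γ' with hl | hl | hl
  · exact absurd h2 (h3' γ hl h1)
  · rw [hl]
  · exact absurd h2' (h3 γ' hl h1')

end Pool.Agent.H43L
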