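import Pool.Agent.Lib.H43L.G0b

/-!
# Chunk G0c: existence and uniqueness of the values

* `exists_wit`: `TT u m p ∅ z` gives `u = Lev γ` (`TT_iff`); `(WW_good γ).2`.  `Wit.unique`: `WW_total` (elements of `u = Lev γ` are
in `LL`).
* `insert_inj`: `insert m m = insert m' m'` gives `m = m'` (otherwise `m ∈ m'` and `m' ∈ m`, `ZFSet.mem_asymm`).
* `exists_GR`, `GR.unique`: cases `k = 0` (`nat 0 = ∅`, which is not of the form `insert m m`; `exists_top`, `Top.unique`) and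
`k + 1` (`nat (k + 1) = insert (nat k) (nat k)`).
* the rest follows from the definition of `GG`.
-/

set_option autoImplicit false

open Set Function

namespace Pool.Agent.H43L

open Pool.Agent.H94L

theorem g0c_LL {u m p q z : ZFSet.{0}} (h : TT u m p q z) : ∃ γ, u = Lev γ := by
  obtain ⟨γ, k, h1, -⟩ := (TT_iff _ _ _ _ _).1 h
  exact ⟨γ, h1⟩

theorem exists_wit {m u p : ZFSet.{0}} (h : ∃ z ∈ u, TT u m p ∅ z) : ∃ z, Wit m u p z := by
  obtain ⟨z, hz, hT⟩ := h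
  obtain ⟨γ, rfl⟩ := g0c_LL hT
  obtain ⟨x, hx, hS, hmin⟩ := (WW_good γ).2 (fun z => TT (Lev γ) m p ∅ z) ⟨z, hz, hT⟩
  exact ⟨x, hx, hS, fun y hy hW hT => hmin y hy hT hW⟩

theorem Wit.unique {m u p z z' : ZFSet.{0}} (h : Wit m u p z) (h' : Wit m u p z') : z = z' := by
  obtain ⟨γ, rfl⟩ := g0c_LL h.2.1
  by_contra hne
  rcases WW_total ⟨γ, h.1⟩ ⟨γ, h'.1⟩ hne with hW | hW
  · exact h'.2.2 z h.1 hW h.2.1
  · exact h.2.2 z' h'.1 hW h'.2.1

theorem insert_inj {m m' : ZFSet.{0}} (h : (insert m m : ZFSet.{0}) = insert m' m') : m = m' := by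
  have h1 : m ∈ (insert m' m' : ZFSet.{0}) := by
    rw [← h]
    exact ZFSet.mem_insert_iff.2 (Or.inl rfl)
  have h2 : m' ∈ (insert m m : ZFSet.{0}) := by
    rw [h]
    exact ZFSet.mem_insert_iff.2 (Or.inl rfl)
  rcases ZFSet.mem_insert_iff.1 h1 with h3 | h3
  · exact h3
  · rcases ZFSet.mem_insert_iff.1 h2 with h4 | h4
    · exact h4.symm
    · exact absurd h4 (ZFSet.mem_asymm h3)

theorem g0c_ne (m : ZFSet.{0}) : (∅ : ZFSet.{0}) ≠ insert m m := by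
  intro h
  have h1 : m ∈ (insert m m : ZFSet.{0}) := ZFSet.mem_insert_iff.2 (Or.inl rfl)
  rw [← h] at h1
  exact ZFSet.notMem_empty _ h1

theorem exists_GR (k : ℕ) {x : ZFSet.{0}} (hx : LL x) : ∃ y, LL y ∧ GR (nat k) x y := by
  cases k with
  | zero =>
    obtain ⟨u, hu⟩ := exists_top hx
    refine ⟨u, ?_, Or.inl ⟨rfl, hu⟩⟩
    obtain ⟨γ, -, rfl⟩ := (limLev_iff u).1 hu.1
    exact ⟨γ + 1, Lev_mem_Lev.2 (NICE_lt γ)⟩
  | succ k =>
    by_cases h : ∃ u p z, x = ZFSet.pair u p ∧ Wit (nat k) u p z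
    · obtain ⟨u, p, z, hxp, hw⟩ := h
      refine ⟨z, ?_, Or.inr ⟨nat k, rfl, Or.inl ⟨u, p, hxp, hw⟩⟩⟩
      rw [hxp] at hx
      exact nice_LL.trans _ _ (nice_LL.of_kpair hx).1 hw.1
    · exact ⟨∅, nice_LL.empty, Or.inr ⟨nat k, rfl, Or.inr ⟨h, rfl⟩⟩⟩

theorem g0c_witPair {m x y y' : ZFSet.{0}} (h : WitPair m x y) (h' : WitPair m x y') : y = y' := by
  rcases h with ⟨u, p, h1, h2⟩ | ⟨h1, h2⟩
  · rcases h' with ⟨u', p', h1', h2'⟩ | ⟨h1', h2'⟩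
    · rw [h1, ZFSet.pair_inj] at h1'
      obtain ⟨rfl, rfl⟩ := h1'
      exact h2.unique h2'
    · exact absurd ⟨u, p, y, h1, h2⟩ h1'
  · rcases h' with ⟨u', p', h1', h2'⟩ | ⟨h1', h2'⟩
    · exact absurd ⟨u', p', y', h1', h2'⟩ h1
    · rw [h2, h2']

theorem g0c_GR_zero {x y : ZFSet.{0}} (h : GR (nat 0) x y) : Top x y := by
  rcases h with h | ⟨m, hm, -⟩
  · exact h.2
  · exact absurd hm (g0c_ne m)

theorem g0c_GR_succ {k : ℕ} {x y : ZFSet.{0}} (h : GR (nat (k + 1)) x y) :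
    WitPair (nat k) x y := by
  rcases h with h | ⟨m, hm, h⟩
  · exact absurd h.1.symm (g0c_ne (nat k))
  · have h1 : nat k = m := insert_inj hm
    rw [h1]
    exact h

theorem GR.unique {k : ℕ} {x y y' : ZFSet.{0}} (h : GR (nat k) x y) (h' : GR (nat k) x y') :
    y = y' := by
  cases k with
  | zero => exact (g0c_GR_zero h).unique (g0c_GR_zero h')
  | succ k => exact g0c_witPair (g0c_GR_succ h) (g0c_GR_succ h')

theorem GG_spec (k : ℕ) {x : ZFSet.{0}} (hx : LL x) : LL (GG k x) ∧ GR (nat k) x (GG k x) := by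
  obtain ⟨y, hy, hG⟩ := exists_GR k hx
  have h1 : ∃ y, GR (nat k) x y := ⟨y, hG⟩
  have h2 : GG k x = y := by
    unfold GG
    rw [dif_pos h1]
    exact h1.choose_spec.unique hG
  rw [h2]
  exact ⟨hy, hG⟩

theorem GG_eq {k : ℕ} {x y : ZFSet.{0}} (h : GR (nat k) x y) : GG k x = y := by
  have h1 : ∃ y, GR (nat k) x y := ⟨y, h⟩
  unfold GG
  rw [dif_pos h1]
  exact h1.choose_spec.unique h

theorem GG_zero {x : ZFSet.{0}} (hx : LL x) : Top x (GG 0 x) :=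
  g0c_GR_zero (GG_spec 0 hx).2

theorem GG_succ {k : ℕ} {u p z : ZFSet.{0}} (h : Wit (nat k) u p z) :
    GG (k + 1) (ZFSet.pair u p) = z :=
  GG_eq (Or.inr ⟨nat k, rfl, Or.inl ⟨u, p, rfl, h⟩⟩)

theorem GG_succ_of_not {k : ℕ} {x : ZFSet.{0}}
    (h : ∀ u p z, x = ZFSet.pair u p → ¬ Wit (nat k) u p z) : GG (k + 1) x = ∅ :=
  GG_eq (Or.inr ⟨nat k, rfl, Or.inr ⟨fun ⟨u, p, z, h1, h2⟩ => h u p z h1 h2, rfl⟩⟩)

end Pool.Agent.H43L
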