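import Pool.Agent.Lib.H43L.G0c

/-!
# Chunk G0d: witnesses and satisfaction; the functions preserve limits of limit levels

* `wit_Lev`: `TT_iff`, `Lev_inj`, `nat_inj`, `empty_mem_Lev`; `z ∈ Lev γ` excludes `z = Lev γ` (`ZFSet.mem_irrefl`).
* `GG_mem_Lev`: for `k = 0`: `x ∈ Lev β` for a limit `β < δ` (`LimLim`, `Lim.exists_lt`), so the least such level is `Lev γ`, `γ < δ`.
For `k + 1`: the value is `∅`, or an element of `u`, where `x = pair u p ∈ Lev δ`, so `u ∈ Lev δ` (`Nice.of_kpair`) and `Lev_trans`.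
-/

set_option autoImplicit false

open Set Function

namespace Pool.Agent.H43L

open Pool.Agent.H94L

theorem g0d_TT {γ : Ordinal.{0}} {k : ℕ} {p z : ZFSet.{0}} (hp : p ∈ Lev γ) (hz : z ∈ Lev γ) :
    TT (Lev γ) (nat k) p ∅ z ↔ SatL (cl (Lev γ)) (enumF k) (asg z p ∅) := by
  rw [TT_iff]
  constructor
  · rintro ⟨γ', k', h1, h2, -, -, h3⟩
    have h4 := Lev_inj h1
    have h5 := nat_inj h2
    subst h4
    subst h5
    rcases h3 with h3 | h3
    · rw [h3] at hz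
      exact absurd hz (ZFSet.mem_irrefl _)
    · exact h3.2
  · intro h
    exact ⟨γ, k, rfl, rfl, hp, empty_mem_Lev γ, Or.inr ⟨hz, h⟩⟩

theorem wit_Lev {γ : Ordinal.{0}} {k : ℕ} {p z : ZFSet.{0}} (hp : p ∈ Lev γ) :
    Wit (nat k) (Lev γ) p z ↔ z ∈ Lev γ ∧ SatL (cl (Lev γ)) (enumF k) (asg z p ∅) ∧
      ∀ y ∈ Lev γ, WW y z → ¬ SatL (cl (Lev γ)) (enumF k) (asg y p ∅) := by
  unfold Wit
  refine and_congr_right fun hz => ?_
  rw [g0d_TT hp hz]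
  refine and_congr_right fun _ => ?_
  refine forall_congr' fun y => forall_congr' fun hy => ?_
  rw [g0d_TT hp hy]

theorem GG_mem_Lev {δ : Ordinal.{0}} (hδ : LimLim δ) (k : ℕ) {x : ZFSet.{0}} (hx : x ∈ Lev δ) :
    GG k x ∈ Lev δ := by
  cases k with
  | zero =>
    obtain ⟨γ, h1, h2, h3, h4⟩ := (top_iff x _).1 (GG_zero ⟨δ, hx⟩)
    rw [h2]
    obtain ⟨β, hβ, hxβ⟩ := hδ.lim.exists_lt hx
    obtain ⟨γ', h5, h6, h7⟩ := hδ.2 β hβ
    apply Lev_mem_Lev.2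
    by_contra hc
    exact h4 γ' (lt_of_lt_of_le h6 (not_lt.1 hc)) h7 (Lev_mono h5.le hxβ)
  | succ k =>
    rcases g0c_GR_succ (GG_spec (k + 1) ⟨δ, hx⟩).2 with ⟨u, p, h1, h2⟩ | ⟨h1, h2⟩
    · rw [h1] at hx
      have hu : u ∈ Lev δ := ((nice_Lev hδ.lim).of_kpair hx).1
      exact Lev_trans hu h2.1
    · rw [h2]
      exact empty_mem_Lev δ

end Pool.Agent.H43L
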