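import Pool.Agent.Lib.H43L.G0c

/-!
# Chunk G0e: uniform definability

Use the combinators of files U1, U2 (`UD.tt`, `UD.ww`, `ud_empty`, `ud_pair`, `ud_succ`, `ud_nat`, `ud_ball`, `ud_bex`, `UD.ex`,
`UD.congr`, ...), as in `H94L/DfnS.lean` and `H94L/Code*.lean`.
* `IsLev (v i)` iff `∃ e, A e ∧ e = ∅ ∧ TT (v i) e e e (v i)`.
* In `WitPair`: `x = pair u p` with `A x` implies `A u`, `A p` (`Nice.of_kpair`), `z' ∈ u` implies `A z'`.
* In `GR`: `n = insert m m` with `A n` implies `A m` (`m ∈ n`).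
* `ud_GG`: `v i = GG k (v j)` iff `∃ n, A n ∧ n = nat k ∧ GR n (v j) (v i)` (`GG_spec`, `GG_eq`; `ud_nat`; `UD.mono` from `Nice` to
`NiceL`).
-/

set_option autoImplicit false

open Set Function

namespace Pool.Agent.H43L

open Pool.Agent.H94L

theorem ud_isLev (i : ℕ) : UD Nice fun _ v => IsLev (v i) := by
  refine (UD.ex ((ud_empty 0).and (UD.tt (i + 1) 0 0 0 (i + 1)))).congr ?_
  intro A hA v hv
  constructor
  · intro h
    exact ⟨∅, hA.empty, rfl, h⟩
  · rintro ⟨e, he, h1, h2⟩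
    have h1' : e = ∅ := h1
    subst h1'
    exact h2

theorem g0e_tt (i j k l : ℕ) : UD Nice fun _ v => TT (v i) (v j) (v k) ∅ (v l) := by
  refine (UD.ex ((ud_empty 0).and (UD.tt (i + 1) (j + 1) (k + 1) 0 (l + 1)))).congr ?_
  intro A hA v hv
  constructor
  · intro h
    exact ⟨∅, hA.empty, rfl, h⟩
  · rintro ⟨e, he, h1, h2⟩
    have h1' : e = ∅ := h1
    subst h1'
    exact h2

theorem ud_limLev (i : ℕ) : UD Nice fun _ v => LimLev (v i) := by
  refine ((ud_isLev i).and ((ud_bex (ud_isLev 0) i).and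
    (ud_ball ((ud_isLev 0).imp (ud_bex ((ud_isLev 0).and (UD.mem 1 0)) (i + 1))) i))).congr ?_
  intro A hA v hv
  exact Iff.rfl

theorem ud_top (i j : ℕ) : UD Nice fun _ v => Top (v i) (v j) := by
  refine ((ud_limLev j).and ((UD.mem i j).and
    (ud_ball ((ud_limLev 0).imp (UD.mem (i + 1) 0).not) j))).congr ?_
  intro A hA v hv
  exact Iff.rfl

theorem ud_wit (i j k l : ℕ) : UD Nice fun _ v => Wit (v i) (v j) (v k) (v l) := by
  refine ((UD.mem l j).and ((g0e_tt j i k l).and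
    (ud_ball ((UD.ww 0 (l + 1)).imp (g0e_tt (j + 1) (i + 1) (k + 1) 0).not) j))).congr ?_
  intro A hA v hv
  exact Iff.rfl

theorem ud_witPair (i j k : ℕ) : UD Nice fun _ v => WitPair (v i) (v j) (v k) := by
  have h1 : UD Nice fun _ v => ∃ u p, v j = ZFSet.pair u p ∧ Wit (v i) u p (v k) := by
    refine (UD.ex (UD.ex ((ud_pair (j + 2) 1 0).and (ud_wit (i + 2) 1 0 (k + 2))))).congr ?_
    intro A hA v hv
    constructor
    · rintro ⟨u, p, h1, h2⟩
      have h3 : A (ZFSet.pair u p) := by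
        rw [← h1]
        exact hv j
      exact ⟨u, (hA.of_kpair h3).1, p, (hA.of_kpair h3).2, h1, h2⟩
    · rintro ⟨u, _, p, _, h1, h2⟩
      exact ⟨u, p, h1, h2⟩
  have h2 : UD Nice fun _ v => ∃ u p z', v j = ZFSet.pair u p ∧ Wit (v i) u p z' := by
    refine (UD.ex (UD.ex (UD.ex ((ud_pair (j + 3) 2 1).and (ud_wit (i + 3) 2 1 0))))).congr ?_
    intro A hA v hv
    constructor
    · rintro ⟨u, p, z', h1, h2⟩
      have h3 : A (ZFSet.pair u p) := by
        rw [← h1]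
        exact hv j
      exact ⟨u, (hA.of_kpair h3).1, p, (hA.of_kpair h3).2, z',
        hA.trans _ _ (hA.of_kpair h3).1 h2.1, h1, h2⟩
    · rintro ⟨u, _, p, _, z', _, h1, h2⟩
      exact ⟨u, p, z', h1, h2⟩
  exact (h1.or (h2.not.and (ud_empty k))).congr fun _ _ _ _ => Iff.rfl

theorem ud_GR (i j k : ℕ) : UD Nice fun _ v => GR (v i) (v j) (v k) := by
  refine (((ud_empty i).and (ud_top j k)).or
    (UD.ex ((ud_succ (i + 1) 0).and (ud_witPair 0 (j + 1) (k + 1))))).congr ?_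
  intro A hA v hv
  refine or_congr Iff.rfl ?_
  constructor
  · rintro ⟨m, h1, h2⟩
    refine ⟨m, hA.trans _ _ (hv i) ?_, h1, h2⟩
    rw [h1]
    exact ZFSet.mem_insert_iff.2 (Or.inl rfl)
  · rintro ⟨m, _, h1, h2⟩
    exact ⟨m, h1, h2⟩

theorem ud_GG (k i j : ℕ) : UD NiceL fun _ v => v i = GG k (v j) := by
  have h1 : UD Nice fun A v => ∃ n, A n ∧ n = nat k ∧ GR n (v j) (v i) :=
    (UD.ex ((ud_nat 0 k).and (ud_GR 0 (j + 1) (i + 1)))).congr fun _ _ _ _ => Iff.rfl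
  refine (h1.mono fun A hA => hA.1).congr ?_
  intro A hA v hv
  constructor
  · intro h
    refine ⟨nat k, hA.1.natMem k, rfl, ?_⟩
    rw [h]
    exact (GG_spec k (hA.2 _ (hv j))).2
  · rintro ⟨n, _, rfl, h⟩
    exact (GG_eq h).symm

end Pool.Agent.H43L
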