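import Pool.Agent.Lib.H43L.G0d

/-!
# Chunk G1a: closed classes are Tarski-Vaught in their limit levels

* `Cl.empty`: let `enumF k = LF.bot` (`enumF_surj`); then no `Wit (nat k) u p z` holds (`TT_iff`: `TT u (nat k) p ∅ z` with `z ∈ u` gives
`SatL _ LF.bot _`), so `GG (k + 1) x = ∅` (`GG_succ_of_not`).
* `Cl.tv`: the class `C y = S y ∧ y ∈ Lev γ` is closed under pairs (`(nice_Lev hγ).kpair`) and contains `∅`.  For `wit`: let `Q`, `v` be as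
in `TV.wit`.  By `param_red hγ` (with `q = ∅`) there are `k`, `p` with `C p` and `Q (cons z v) ↔ SatL (cl (Lev γ)) (enumF k) (asg z p ∅)` for
`z ∈ Lev γ`.  There is `z ∈ Lev γ` with `TT (Lev γ) (nat k) p ∅ z`, so `Wit (nat k) (Lev γ) p z` for some `z` (`exists_wit`), and `z = GG (k + 1)
(pair (Lev γ) p)` is in `S` (`h.gg`, `h.pair`, `GG_succ`); `wit_Lev`.
-/

set_option autoImplicit false

open Set Function

namespace Pool.Agent.H43L

open Pool.Agent.H94L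

/-- classes of constructible sets which are closed under the functions and pairs -/
structure Cl (S : ZFSet.{0} → Prop) : Prop where
  ll : ∀ x, S x → LL x
  gg : ∀ k x, S x → S (GG k x)
  pair : ∀ x y, S x → S y → S (ZFSet.pair x y)

theorem Cl.empty {S : ZFSet.{0} → Prop} (h : Cl S) (hne : ∃ x, S x) : S ∅ := by
  obtain ⟨x, hx⟩ := hne
  obtain ⟨k, hk⟩ := enumF_surj LF.bot
  have h1 : GG (k + 1) x = ∅ := by
    refine GG_succ_of_not fun u p z _ hw => ?_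
    obtain ⟨hz, ht, -⟩ := hw
    obtain ⟨γ, k', rfl, hk', -, -, -⟩ := (TT_iff _ _ _ _ _).1 ht
    rw [CODE1_tt hz, hk] at ht
    exact ht.2.2
  rw [← h1]
  exact h.gg _ _ hx

theorem Cl.tv {S : ZFSet.{0} → Prop} (h : Cl S) {γ : Ordinal.{0}} (hγ : Lim γ)
    (hS : S (Lev γ)) : TV γ fun y => S y ∧ y ∈ Lev γ := by
  have hemp : S ∅ := h.empty ⟨_, hS⟩
  refine ⟨fun x hx => hx.2, ⟨∅, hemp, empty_mem_Lev γ⟩, ?_⟩
  rintro Q hQ v hv ⟨a, ha, hQa⟩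
  obtain ⟨k, p, ⟨hSp, hp⟩, h1⟩ := param_red hγ (C := fun y => S y ∧ y ∈ Lev γ) (fun x hx => hx.2)
    (fun x y hx hy => ⟨h.pair x y hx.1 hy.1, (nice_Lev hγ).kpair hx.2 hy.2⟩)
    ⟨∅, hemp, empty_mem_Lev γ⟩ (empty_mem_Lev γ) hQ (v := v) (fun i => Or.inl (hv i))
  obtain ⟨z, hz⟩ := exists_wit (m := nat k) (u := Lev γ) (p := p)
    ⟨a, ha, (CODE1_tt ha).2 ⟨hp, empty_mem_Lev γ, (h1 a ha).1 hQa⟩⟩
  have hzγ : z ∈ Lev γ := hz.1
  refine ⟨z, ⟨?_, hzγ⟩, (h1 z hzγ).2 ((wit_Lev hp).1 hz).2.1⟩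
  rw [← GG_succ hz]
  exact h.gg _ _ (h.pair _ _ hS hSp)

end Pool.Agent.H43L
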