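import Pool.Agent.Lib.H43L.G0

/-!
# Chunk G1b: locality of the collapse

Induction on `x` (`ZFSet.inductionOn`), `mem_coll`.
-/

set_option autoImplicit false

open Set Function

namespace Pool.Agent.H43L

open Pool.Agent.H94L

theorem coll_congr {S S' : ZFSet.{0} → Prop} {c : ZFSet.{0}} (hc : ∀ y ∈ c, ∀ z ∈ y, z ∈ c)
    (h : ∀ y ∈ c, (S y ↔ S' y)) {x : ZFSet.{0}} (hx : ∀ y ∈ x, y ∈ c) :
    coll S x = coll S' x := by
  induction x using ZFSet.inductionOn with
  | _ x ih =>
    ext w
    rw [mem_coll, mem_coll]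
    refine exists_congr fun z => and_congr_right fun hz => ?_
    rw [ih z hz (hc z (hx z hz)), h z (hx z hz)]

end Pool.Agent.H43L
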