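import Pool.Agent.Lib.H43L.G0a
import Pool.Agent.Lib.H43L.G0e

/-!
# Chunk G1c: condensation, with a limit level not above the given one

As `H94L.condensation` (copy its proof, file Cond.lean), with the additional conclusions `γ ≤ δ` and `Lim γ`.
`exists_KK h hδ le_rfl (ih_all h hδ)` gives `γ` with `KK N δ γ` and: for all `ε < γ` there is `β < δ` with `N (Lev β)`, `KK N β ε`.
* General fact: if `α ≤ δ`, `KK N α ε` and for all `ε' < ε` there is `β < α` with `N (Lev β)`, `KK N β ε'`, then `ε ≤ α`.  Induction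
on `α`: let `ε' < ε`, `β < α` with `N (Lev β)`, `KK N β ε'`.  By `exists_KK` for `β` there is `ε''` with `KK N β ε''` and the second
property; `Lev ε' = Lev ε''` by `KK.onto`, so `ε' = ε''` (`Lev_inj`) and `ε' ≤ β < α` by induction.  So `ε ≤ α`.
* `Lim γ`: `N` contains a level (`h.wit` for `Q v = TT (v 0) ∅ ∅ ∅ (v 0)`; or: `N ∅` by `TV.emptyN`, and
by `TV.stage` the stage `Lev β` of `∅` is in `N`); its image `coll N (Lev β)` is an element of `Lev γ` and a level `Lev ε`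
(`ih_all`, `KK.coll_Lev`), so `0 < γ` (`Lev_mem_Lev`).  Let `ε < γ`, `β < δ`, `N (Lev β)`, `KK N β ε`.  Then `N (Lev (β + 1))` by
`TV.uniq`: `Lev (β + 1)` is the unique `w ∈ Lev δ` with `IsLev w ∧ Lev β ∈ w ∧ ∀ w' ∈ w, IsLev w' → Lev β ∉ w'` (`ud_isLev`, `ud_ball`,
`UD.dfn`, `isLev_iff`, `Lev_mem_Lev`).  Let `KK N (β + 1) ε''` (`ih_all`, `β + 1 < δ`); `ε < ε''` (`KK.lt`) and `ε'' < γ`
(`Lev ε'' = coll N (Lev (β + 1)) ∈ Lev γ`), so `ε + 1 < γ`.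
-/

set_option autoImplicit false

open Set Function

namespace Pool.Agent.H43L

open Pool.Agent.H94L

theorem g1c_le {δ : Ordinal.{0}} {N : ZFSet.{0} → Prop} (hδ : Lim δ) (h : TV δ N)
    (α : Ordinal.{0}) : α ≤ δ → ∀ ε, KK N α ε →
      (∀ ε' < ε, ∃ β < α, N (Lev β) ∧ KK N β ε') → ε ≤ α := by
  induction α using WellFoundedLT.induction with
  | ind α ih =>
    intro hα ε hK h2
    by_contra hc
    rw [not_le] at hc
    obtain ⟨β, hβ, hNβ, hKβ⟩ := h2 α hc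
    obtain ⟨ε'', h3, h4⟩ := ih_all h hδ β (hβ.trans_le hα) hNβ
    have h5 : Lev α = Lev ε'' := by
      ext w
      rw [hKβ.onto, h3.onto]
    have h6 := ih β hβ (hβ.le.trans hα) ε'' h3 h4
    rw [← Lev_inj h5] at h6
    exact absurd hβ (not_lt.2 h6)

theorem g1c_succ {δ : Ordinal.{0}} {N : ZFSet.{0} → Prop} (hδ : Lim δ) (h : TV δ N)
    {β : Ordinal.{0}} (hβ : β < δ) (hN : N (Lev β)) : N (Lev (β + 1)) := by
  have hud : UD Nice fun _ v => IsLev (v 0) ∧ v 1 ∈ v 0 ∧ ∀ a ∈ v 0, IsLev a → v 1 ∉ a :=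
    (ud_isLev 0).and ((UD.mem 1 0).and (ud_ball ((ud_isLev 0).imp (UD.mem 2 0).not) 0))
  refine h.uniq (Q := fun v => IsLev (v 0) ∧ v 1 ∈ v 0 ∧ ∀ a ∈ v 0, IsLev a → v 1 ∉ a)
    (hud.dfn (nice_Lev hδ)) (v := fun _ => Lev β) (fun _ => hN)
    (Lev_mem_Lev.2 (hδ.2 β hβ)) ?_ ?_
  · refine ⟨(isLev_iff _).2 ⟨_, rfl⟩, Lev_mem_Lev.2 (NICE_lt β), ?_⟩
    intro a ha hl hb
    obtain ⟨γ', rfl⟩ := (isLev_iff _).1 hl
    have h1 : γ' < β + 1 := Lev_mem_Lev.1 ha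
    have h2 : β < γ' := Lev_mem_Lev.1 hb
    exact absurd (Order.add_one_le_of_lt h2) (not_le.2 h1)
  · rintro b _ ⟨h1, h2, h3⟩
    obtain ⟨γ', rfl⟩ := (isLev_iff _).1 h1
    have h4 : β < γ' := Lev_mem_Lev.1 h2
    have h5 : γ' = β + 1 := by
      refine le_antisymm ?_ (Order.add_one_le_of_lt h4)
      by_contra hc
      rw [not_le] at hc
      exact h3 (Lev (β + 1)) (Lev_mem_Lev.2 hc) ((isLev_iff _).2 ⟨_, rfl⟩)
        (Lev_mem_Lev.2 (NICE_lt β))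
    rw [h5]

theorem condensation' {δ : Ordinal.{0}} {N : ZFSet.{0} → Prop} (hδ : Lim δ) (h : TV δ N) :
    ∃ γ, γ ≤ δ ∧ Lim γ ∧ (∀ w, w ∈ Lev γ ↔ ∃ y, N y ∧ w = coll N y) ∧
      ∀ (φ : LF) (v : ℕ → ZFSet.{0}), (∀ i, N (v i)) →
        (SatL (cl (Lev γ)) φ (coll N ∘ v) ↔ SatL (cl (Lev δ)) φ v) := by
  obtain ⟨γ, hK, h2⟩ := exists_KK h hδ le_rfl (ih_all h hδ)
  have h1 : ∀ w, w ∈ Lev γ ↔ ∃ y, N y ∧ w = coll N y := by
    intro w
    rw [hK.onto]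
    exact ⟨fun ⟨y, hy, _, hw⟩ => ⟨y, hy, hw⟩, fun ⟨y, hy, hw⟩ => ⟨y, hy, h.sub y hy, hw⟩⟩
  refine ⟨γ, g1c_le hδ h δ le_rfl γ hK h2, ⟨?_, ?_⟩, h1, fun φ v hv => ?_⟩
  · obtain ⟨β, k, p, q, hβ, hNβ, -⟩ := h.stage hδ (h.emptyN hδ)
    obtain ⟨ε, hKβ, -⟩ := ih_all h hδ β hβ hNβ
    exact lt_of_le_of_lt zero_le (hKβ.lt h hNβ hβ hK)
  · intro ε hε
    obtain ⟨β, hβ, hNβ, hKβ⟩ := h2 ε hε
    have hN' := g1c_succ hδ h hβ hNβ
    obtain ⟨ε'', hK', -⟩ := ih_all h hδ (β + 1) (hδ.2 β hβ) hN'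
    have h3 : ε < ε'' := KK.lt h hNβ (NICE_lt β) hKβ hK'
    have h4 : ε'' < γ := KK.lt h hN' (hδ.2 β hβ) hK' hK
    exact lt_of_le_of_lt (Order.add_one_le_of_lt h3) h4
  rw [← h.elem φ v hv]
  refine (SatL_iso (A := N) (B := cl (Lev γ)) (coll N) ?_ ?_ ?_ ?_ ?_ ?_ φ v hv).symm
  · intro x hx
    exact (h1 _).2 ⟨x, hx, rfl⟩
  · intro y hy
    exact (h1 y).1 hy
  · intro x y hx hy he
    exact h.coll_inj hx hy he
  · intro x y hx hy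
    exact (h.coll_mem hx hy).symm
  · intro x y hx hy
    exact hK.ww x y hx hy (h.sub x hx) (h.sub y hy)
  · intro u n p q z hu hn hp hq hz
    exact hK.tt u n p q z hu hn hp hq hz (h.sub u hu) (h.sub n hn) (h.sub p hp) (h.sub q hq)
      (h.sub z hz)

end Pool.Agent.H43L
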