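import Pool.Agent.Lib.H43L.G1a
import Pool.Agent.Lib.H43L.G1b
import Pool.Agent.Lib.H43L.G1c

/-!
# Chunk G1d: local condensation of closed classes

`Cl.tv`, `condensation'`, `UD.coll` (file U1, with `C = NiceL`, `niceL_Lev`), and `coll S x = coll (fun y => S y ∧ y ∈ Lev γ) x` for
`x ∈ Lev γ` by `coll_congr` with `c = Lev γ`.
-/

set_option autoImplicit false

open Set Function

namespace Pool.Agent.H43L

open Pool.Agent.H94L

theorem Cl.loc {S : ZFSet.{0} → Prop} (h : Cl S) {γ : Ordinal.{0}} (hγ : Lim γ)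
    (hS : S (Lev γ)) : ∃ ε, ε ≤ γ ∧ Lim ε ∧
      (∀ w, w ∈ Lev ε ↔ ∃ y, S y ∧ y ∈ Lev γ ∧ w = coll S y) ∧
      ∀ P, UD NiceL P → ∀ v : ℕ → ZFSet.{0}, (∀ i, S (v i) ∧ v i ∈ Lev γ) →
        (P (cl (Lev ε)) (coll S ∘ v) ↔ P (cl (Lev γ)) v) := by
  have hT := h.tv hγ hS
  obtain ⟨ε, hle, hlim, h1, h2⟩ := condensation' hγ hT
  have hcoll : ∀ x ∈ Lev γ, coll S x = coll (fun y => S y ∧ y ∈ Lev γ) x := by
    intro x hx
    refine coll_congr (c := Lev γ) (fun y hy z hz => Lev_trans hy hz) (fun y hy => ?_)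
      (fun y hy => Lev_trans hx hy)
    exact ⟨fun h => ⟨h, hy⟩, fun h => h.1⟩
  refine ⟨ε, hle, hlim, fun w => ?_, fun P hP v hv => ?_⟩
  · rw [h1]
    constructor
    · rintro ⟨y, hy, rfl⟩
      exact ⟨y, hy.1, hy.2, (hcoll y hy.2).symm⟩
    · rintro ⟨y, hy, hy', rfl⟩
      exact ⟨y, ⟨hy, hy'⟩, hcoll y hy'⟩
  · have h3 : coll S ∘ v = coll (fun y => S y ∧ y ∈ Lev γ) ∘ v := by
      funext i
      exact hcoll _ (hv i).2
    rw [h3]
    exact hP.coll (niceL_Lev hγ) (niceL_Lev hlim) h1 h2 hT.sub v hv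

end Pool.Agent.H43L
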