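import Pool.Agent.Lib.H43L.G1d
import Pool.Agent.Lib.H43L.G0e

/-!
# Chunk G1e: the collapse of a closed class

For finitely many elements of `S` there is a limit level `Lev γ` in `S` which contains them: `GG 0 (pair x (pair y z))` (`GG_zero`,
`top_iff`, `Nice.of_kpair`).  Apply `Cl.loc` there:
* `Cl.ww`: `P = WW (v 0) (v 1)` (`UD.ww`) with `v = cons x (fun _ => y)`.
* `Cl.coll_inj`: `P` is `v 0 = v 1`.
* `Cl.coll_pair`: `P` is `v 0 = pair (v 1) (v 2)` (`ud_pair`, `UD.mono`), with `v = cons (pair x y) (cons x fun _ => y)`.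
* `Cl.coll_GG`: `P` is `v 0 = GG k (v 1)` (`ud_GG`), with `v = cons (GG k x) fun _ => x`.
* `Cl.condense`: the family of all `ε` from `Cl.loc` for the limit levels in `S`, which are below `δ`; let `ζ ≤ δ` be the
supremum (the least ordinal `ζ` such that `ε ≤ ζ` for all of them).  If `w ∈ Lev ζ` then `w = ∅ = coll S ∅` (`Cl.empty`) or `w` has a code at a stage `< ζ` (`mem_Lev`), hence `w ∈ Lev ε` for some
`ε` of the family.  Conversely every `y` with `S y` is in a limit level `GG 0 y` in `S`.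
-/

set_option autoImplicit false

open Set Function

namespace Pool.Agent.H43L

open Pool.Agent.H94L

variable {S : ZFSet.{0} → Prop}

theorem g1e_top (h : Cl S) {x y z : ZFSet.{0}} (hx : S x) (hy : S y) (hz : S z) :
    ∃ γ, Lim γ ∧ S (Lev γ) ∧ x ∈ Lev γ ∧ y ∈ Lev γ ∧ z ∈ Lev γ := by
  have hp := h.pair _ _ hx (h.pair _ _ hy hz)
  have h1 := GG_zero (h.ll _ hp)
  have h2 := h.gg 0 _ hp
  obtain ⟨γ, hγ, he, hm, -⟩ := (top_iff _ _).1 h1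
  rw [he] at h2
  have h3 := (nice_Lev hγ).of_kpair (A := cl (Lev γ)) hm
  have h4 := (nice_Lev hγ).of_kpair (A := cl (Lev γ)) h3.2
  exact ⟨γ, hγ, h2, h3.1, h4.1, h4.2⟩

theorem Cl.coll_ll (h : Cl S) {x : ZFSet.{0}} (hx : S x) : LL (coll S x) := by
  obtain ⟨γ, hγ, hS, hxγ, -, -⟩ := g1e_top h hx hx hx
  obtain ⟨ε, -, -, h1, -⟩ := h.loc hγ hS
  exact ⟨ε, (h1 _).2 ⟨x, hx, hxγ, rfl⟩⟩

theorem Cl.ww (h : Cl S) {x y : ZFSet.{0}} (hx : S x) (hy : S y) :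
    WW (coll S x) (coll S y) ↔ WW x y := by
  obtain ⟨γ, hγ, hS, hxγ, hyγ, -⟩ := g1e_top h hx hy hy
  obtain ⟨ε, -, -, -, h1⟩ := h.loc hγ hS
  exact h1 (fun _ v => WW (v 0) (v 1)) (UD.ww 0 1) (cons x fun _ => y)
    (cons_mem (A := fun z => S z ∧ z ∈ Lev γ) ⟨hx, hxγ⟩ fun _ => ⟨hy, hyγ⟩)

theorem Cl.coll_inj (h : Cl S) {x y : ZFSet.{0}} (hx : S x) (hy : S y)
    (he : coll S x = coll S y) : x = y := by
  obtain ⟨γ, hγ, hS, hxγ, hyγ, -⟩ := g1e_top h hx hy hy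
  obtain ⟨ε, -, -, -, h1⟩ := h.loc hγ hS
  exact (h1 (fun _ v => v 0 = v 1) (UD.eq 0 1) (cons x fun _ => y)
    (cons_mem (A := fun z => S z ∧ z ∈ Lev γ) ⟨hx, hxγ⟩ fun _ => ⟨hy, hyγ⟩)).1 he

theorem Cl.coll_pair (h : Cl S) {x y : ZFSet.{0}} (hx : S x) (hy : S y) :
    coll S (ZFSet.pair x y) = ZFSet.pair (coll S x) (coll S y) := by
  have hp := h.pair _ _ hx hy
  obtain ⟨γ, hγ, hS, hpγ, hxγ, hyγ⟩ := g1e_top h hp hx hy
  obtain ⟨ε, -, -, -, h1⟩ := h.loc hγ hS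
  exact (h1 (fun _ v => v 0 = ZFSet.pair (v 1) (v 2)) ((ud_pair 0 1 2).mono fun _ hA => hA.1)
    (cons (ZFSet.pair x y) (cons x fun _ => y))
    (cons_mem (A := fun z => S z ∧ z ∈ Lev γ) ⟨hp, hpγ⟩
      (cons_mem (A := fun z => S z ∧ z ∈ Lev γ) ⟨hx, hxγ⟩ fun _ => ⟨hy, hyγ⟩))).2 rfl

theorem Cl.coll_GG (h : Cl S) (k : ℕ) {x : ZFSet.{0}} (hx : S x) :
    coll S (GG k x) = GG k (coll S x) := by
  have hg := h.gg k _ hx
  obtain ⟨γ, hγ, hS, hgγ, hxγ, -⟩ := g1e_top h hg hx hx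
  obtain ⟨ε, -, -, -, h1⟩ := h.loc hγ hS
  exact (h1 (fun _ v => v 0 = GG k (v 1)) (ud_GG k 0 1) (cons (GG k x) fun _ => x)
    (cons_mem (A := fun z => S z ∧ z ∈ Lev γ) ⟨hg, hgγ⟩ fun _ => ⟨hx, hxγ⟩)).2 rfl

theorem Cl.condense (h : Cl S) (hne : ∃ x, S x) {δ : Ordinal.{0}} (hδ : ∀ x, S x → x ∈ Lev δ) :
    ∃ ζ ≤ δ, ∀ w, w ∈ Lev ζ ↔ ∃ y, S y ∧ w = coll S y := by
  obtain ⟨ζ, h1, h2⟩ := WellFounded.has_min (wellFounded_lt (α := Ordinal.{0}))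
    {ζ | ∀ ε γ, S (Lev γ) → ε ≤ γ →
      (∀ w, w ∈ Lev ε ↔ ∃ y, S y ∧ y ∈ Lev γ ∧ w = coll S y) → ε ≤ ζ}
    ⟨δ, fun ε γ hS hle _ => hle.trans (Lev_mem_Lev.1 (hδ _ hS)).le⟩
  have hζ : ζ ≤ δ := by
    by_contra hc
    rw [not_le] at hc
    exact h2 δ (fun ε γ hS hle _ => hle.trans (Lev_mem_Lev.1 (hδ _ hS)).le) hc
  refine ⟨ζ, hζ, fun w => ⟨fun hw => ?_, ?_⟩⟩
  · rw [mem_Lev] at hw
    rcases hw with rfl | ⟨α, hα, k, p, q, hc⟩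
    · refine ⟨∅, h.empty hne, ?_⟩
      symm
      rw [ZFSet.eq_empty]
      intro y hy
      obtain ⟨z, hz, -⟩ := mem_coll.1 hy
      exact ZFSet.notMem_empty z hz
    · by_contra hcon
      refine h2 α ?_ hα
      intro ε γ hS hle h3
      by_contra hlt
      rw [not_le] at hlt
      obtain ⟨y, hy, -, hw⟩ := (h3 w).1 (hc.mem_Lev hlt)
      exact hcon ⟨y, hy, hw⟩
  · rintro ⟨y, hy, rfl⟩
    obtain ⟨γ, hγ, hS, hyγ, -, -⟩ := g1e_top h hy hy hy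
    obtain ⟨ε, hle, -, h3, -⟩ := h.loc hγ hS
    exact Lev_mono (h1 ε γ hS hle h3) ((h3 _).2 ⟨y, hy, hyγ, rfl⟩)

end Pool.Agent.H43L
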