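import Pool.Agent.Lib.H43L.G0

/-!
# Chunk G2: the order type of the constructible universe

(a) `WW` is transitive on `LL` and well-founded (`WW_total`, `WW_least`, `WW_irrefl`: if `WW x y`, `WW y z` and not `WW x z` then `x = z` or
`WW z x`; the class `{x, y, z}` has no least element, a contradiction).  `WW x y` implies `LL x` and `LL y` (`WW_iff`, `HasStage.mem_Lev`).
(b) The predecessors of `x ∈ LL` form a small type: they are in a level (`WW_end`).  Define
`ρ x = ⨆ y : {y // y ∈ ZFSet.sep (fun y => WW y x) (Lev β)}, (ρ y + 1)` by well-founded recursion; or take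
`IsWellFounded.rank` with values in `Ordinal.{1}` and show that all its values are `Ordinal.lift.{1}` of ordinals in
`Ordinal.{0}` (`Ordinal.mem_range_lift_of_le`, `Ordinal.lift_iSup` or a small index type).
(c) `ρ` is strictly monotone; its range is an initial segment (an ordinal `o < ρ x` is `≤ ρ y` for some `y` before `x`;
induction); the range is unbounded, since `ρ` is injective on `LL` and `LL` is not small: `β ≤ ρ (Lev β)` as
`β ↦ ρ (Lev β)` is strictly increasing (`WW (Lev β) (Lev γ)` for `β < γ`: otherwise `Lev γ ∈ Lev (β + 1)` by `WW_end`).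
-/

set_option autoImplicit false

open Set Function Cardinal

namespace Pool.Agent.H43L

open Pool.Agent.H94L

theorem WW.ll {x y : ZFSet.{0}} (h : WW x y) : LL x ∧ LL y := by
  obtain ⟨γ, γ', h1, h2, -⟩ := (WW_iff x y).1 h
  exact ⟨⟨γ + 1, h1.mem_Lev (by simp)⟩, ⟨γ' + 1, h2.mem_Lev (by simp)⟩⟩

theorem WW.trans {x y z : ZFSet.{0}} (h : WW x y) (h' : WW y z) : WW x z := by
  have hx : LL x := (WW.ll h).1
  have hy : LL y := (WW.ll h).2
  have hz : LL z := (WW.ll h').2
  by_contra hc
  obtain ⟨m, -, hm, hmin⟩ := WW_least (fun w => w = x ∨ w = y ∨ w = z) ⟨x, hx, Or.inl rfl⟩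
  have hmx : ¬ WW x m := hmin x hx (Or.inl rfl)
  have hmy : ¬ WW y m := hmin y hy (Or.inr (Or.inl rfl))
  have hmz : ¬ WW z m := hmin z hz (Or.inr (Or.inr rfl))
  rcases hm with rfl | rfl | rfl
  · by_cases hxz : m = z
    · subst hxz
      exact hmy h'
    · rcases WW_total hx hz hxz with hW | hW
      · exact hc hW
      · exact hmz hW
  · exact hmx h
  · exact hmy h'

theorem WW_Lev {β γ : Ordinal.{0}} (h : β < γ) : WW (Lev β) (Lev γ) := by
  have h1 : Lev β ∈ Lev (β + 1) := Lev_mem_of_lt (by simp)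
  have hβ : LL (Lev β) := ⟨_, h1⟩
  have hγ : LL (Lev γ) := ⟨γ + 1, Lev_mem_of_lt (by simp)⟩
  rcases WW_total hβ hγ (fun he => h.ne (Lev_inj he)) with hW | hW
  · exact hW
  · have h2 : Lev γ ∈ Lev (β + 1) := WW_end (by simp) h1 hW
    have h3 := lt_of_Lev_mem h2
    rw [← Order.succ_eq_add_one, Order.lt_succ_iff] at h3
    exact absurd h (not_lt.2 h3)

theorem g2_wf : WellFounded WW := by
  rw [WellFounded.wellFounded_iff_has_min]
  intro s hs
  by_cases h : ∃ x, LL x ∧ x ∈ s
  · obtain ⟨m, -, hm, hmin⟩ := WW_least (fun w => w ∈ s) h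
    exact ⟨m, hm, fun y hy hW => hmin y (WW.ll hW).1 hy hW⟩
  · obtain ⟨x, hx⟩ := hs
    refine ⟨x, hx, fun y hy hW => h ⟨x, (WW.ll hW).2, hx⟩⟩

instance g2_inst : IsWellFounded ZFSet.{0} WW := ⟨g2_wf⟩

theorem g2_small (x : ZFSet.{0}) : Small.{0} {y : ZFSet.{0} // WW y x} := by
  by_cases hx : LL x
  · obtain ⟨β, hβ⟩ := hx
    have hβ' : x ∈ Lev (β + 1) := Lev_mono (by simp) hβ
    let f : {y : ZFSet.{0} // WW y x} → {y : ZFSet.{0} // y ∈ Lev (β + 1)} :=
      fun y => ⟨y.1, WW_end (by simp) hβ' y.2⟩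
    have hf : Function.Injective f := by
      intro a b hab
      have h1 : (f a).1 = (f b).1 := congrArg Subtype.val hab
      exact Subtype.ext h1
    haveI : Small.{0} {y : ZFSet.{0} // y ∈ Lev (β + 1)} := ZFSet.small_coe (Lev (β + 1))
    exact small_of_injective hf
  · haveI : IsEmpty {y : ZFSet.{0} // WW y x} := ⟨fun y => hx (WW.ll y.2).2⟩
    infer_instance

theorem g2_rank (x : ZFSet.{0}) :
    ∃ o : Ordinal.{0}, Ordinal.lift.{1} o = IsWellFounded.rank WW x := by
  induction x using g2_wf.induction with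
  | _ x ih =>
    have h1 : ∀ y : {y : ZFSet.{0} // WW y x}, ∃ o : Ordinal.{0},
        Ordinal.lift.{1} o = IsWellFounded.rank WW y.1 := fun y => ih y.1 y.2
    choose f hf using h1
    haveI := g2_small x
    have hb : BddAbove (range fun y => Order.succ (f y)) := Ordinal.bddAbove_of_small
    obtain ⟨b, hb⟩ := hb
    have h2 : IsWellFounded.rank WW x ≤ Ordinal.lift.{1} b := by
      rw [IsWellFounded.rank_eq]
      apply ciSup_le'
      intro y
      rw [← hf y, ← Ordinal.lift_succ, Ordinal.lift_le]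
      exact hb ⟨y, rfl⟩
    exact Ordinal.mem_range_lift_of_le.{0, 1} h2

theorem exists_rkW : ∃ ρ : ZFSet.{0} → Ordinal.{0},
    (∀ x y, LL x → LL y → (ρ x < ρ y ↔ WW x y)) ∧ ∀ o, ∃ x, LL x ∧ ρ x = o := by
  choose ρ hρ using g2_rank
  have hlt : ∀ x y, WW x y → ρ x < ρ y := by
    intro x y h
    have := IsWellFounded.rank_lt_of_rel (r := WW) h
    rwa [← hρ x, ← hρ y, Ordinal.lift_lt] at this
  have hinit : ∀ x, ∀ o < ρ x, ∃ y, LL y ∧ ρ y = o := by
    intro x
    induction x using g2_wf.induction with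
    | _ x ih =>
      intro o ho
      rw [← Ordinal.lift_lt.{1}, hρ x, IsWellFounded.rank_eq, Ordinal.lt_iSup_iff] at ho
      obtain ⟨⟨y, hy⟩, ho⟩ := ho
      rw [Order.lt_succ_iff, ← hρ y, Ordinal.lift_le] at ho
      rcases ho.eq_or_lt with h | h
      · exact ⟨y, (WW.ll hy).1, h.symm⟩
      · exact ih y hy o h
  refine ⟨ρ, fun x y hx hy => ⟨fun h => ?_, hlt x y⟩, fun o => ?_⟩
  · by_cases hxy : x = y
    · subst hxy
      exact absurd h (lt_irrefl _)
    · rcases WW_total hx hy hxy with hW | hW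
      · exact hW
      · exact absurd h (hlt y x hW).not_gt
  · have hmono : StrictMono fun β : Ordinal.{0} => ρ (Lev β) := fun β γ h => hlt _ _ (WW_Lev h)
    have h1 : o ≤ ρ (Lev o) := hmono.le_apply
    rcases h1.eq_or_lt with h | h
    · exact ⟨Lev o, ⟨o + 1, Lev_mem_of_lt (by simp)⟩, h.symm⟩
    · exact hinit _ o h

/-- the rank of a constructible set in the well-order -/
noncomputable def rkW : ZFSet.{0} → Ordinal.{0} := exists_rkW.choose

theorem rkW_lt {x y : ZFSet.{0}} (hx : LL x) (hy : LL y) : rkW x < rkW y ↔ WW x y :=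
  exists_rkW.choose_spec.1 x y hx hy

theorem exists_rkW_eq (o : Ordinal.{0}) : ∃ x, LL x ∧ rkW x = o := exists_rkW.choose_spec.2 o

/-- the constructible set of a given rank -/
noncomputable def unW (o : Ordinal.{0}) : ZFSet.{0} := (exists_rkW_eq o).choose

theorem LL_unW (o : Ordinal.{0}) : LL (unW o) := (exists_rkW_eq o).choose_spec.1

@[simp] theorem rkW_unW (o : Ordinal.{0}) : rkW (unW o) = o := (exists_rkW_eq o).choose_spec.2

theorem rkW_inj {x y : ZFSet.{0}} (hx : LL x) (hy : LL y) (h : rkW x = rkW y) : x = y := by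
  by_contra hne
  rcases WW_total hx hy hne with hW | hW
  · exact absurd ((rkW_lt hx hy).2 hW) (by rw [h]; exact lt_irrefl _)
  · exact absurd ((rkW_lt hy hx).2 hW) (by rw [h]; exact lt_irrefl _)

theorem unW_rkW {x : ZFSet.{0}} (hx : LL x) : unW (rkW x) = x :=
  rkW_inj (LL_unW _) hx (rkW_unW _)

end Pool.Agent.H43L
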