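import Pool.Agent.Lib.H43L.G0

/-!
# Chunk G3a: the cardinality of the levels

Induction on `β`: by `mem_Lev` every element of `Lev β` is `∅` or the set with code `(k, p, q)` at a stage `γ < β`; so there is a
surjection from `Unit ⊕ Σ γ : β.ToType, ℕ × Lev γ × Lev γ` onto `Lev β` (a code determines the set: `IsCode.ext`), and by induction the
cardinality is at most `1 + β.card * (ℵ₀ * m * m) ≤ m`, `m = max ℵ₀ β.card`.  `ZFSet.card x = #(Shrink x)`,
`ZFSet.cardinalMk_coe_sort`, `ZFSet.card_mono`, `ZFSet.lift_card_range_le`.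
-/

set_option autoImplicit false

open Set Function Cardinal

namespace Pool.Agent.H43L

open Pool.Agent.H94L

theorem g3a_lift (β : Ordinal.{0}) :
    #(Lev β) = Cardinal.lift.{1} (Lev β).card := ZFSet.cardinalMk_coe_sort

open Classical in
/-- the set with a given code, and the empty set if there is none -/
noncomputable def g3aF (β : Ordinal.{0}) :
    Option (Σ γ : Set.Iio β, ℕ × (Lev γ.1 : Type 1) × (Lev γ.1 : Type 1)) → ZFSet.{0}
  | none => ∅
  | some t => if h : ∃ x, IsCode t.1.1 t.2.1 t.2.2.1.1 t.2.2.2.1 x then h.choose else ∅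

theorem g3a_surj (β : Ordinal.{0}) (x : ZFSet.{0}) (hx : x ∈ Lev β) :
    x ∈ Set.range (g3aF β) := by
  rw [mem_Lev] at hx
  rcases hx with rfl | ⟨γ, hγ, k, p, q, hc⟩
  · exact ⟨none, rfl⟩
  · refine ⟨some ⟨⟨γ, hγ⟩, k, ⟨p, hc.1⟩, ⟨q, hc.2.1⟩⟩, ?_⟩
    have h : ∃ y, IsCode γ k p q y := ⟨x, hc⟩
    have h1 : g3aF β (some ⟨⟨γ, hγ⟩, k, ⟨p, hc.1⟩, ⟨q, hc.2.1⟩⟩) = h.choose := by
      unfold g3aF
      exact dif_pos h
    rw [h1]
    exact IsCode.ext h.choose_spec hc

theorem card_Lev_le (β : Ordinal.{0}) : (Lev β).card ≤ max ℵ₀ β.card := by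
  induction β using WellFoundedLT.induction with
  | ind β ih =>
    rw [← Cardinal.lift_le.{1}, ← g3a_lift]
    set M : Cardinal.{1} := Cardinal.lift.{1} (max ℵ₀ β.card) with hM
    have hM0 : ℵ₀ ≤ M := by
      rw [hM, ← Cardinal.lift_aleph0.{1, 0}, Cardinal.lift_le]
      exact le_max_left _ _
    have h1 : #(Lev β) ≤ #(Set.range (g3aF β)) :=
      Cardinal.mk_le_mk_of_subset (fun x hx => g3a_surj β x hx)
    have h2 : #(Set.range (g3aF β)) ≤
        #(Option (Σ γ : Set.Iio β, ℕ × (Lev γ.1 : Type 1) × (Lev γ.1 : Type 1))) :=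
      Cardinal.mk_range_le
    refine (h1.trans h2).trans ?_
    rw [Cardinal.mk_option, Cardinal.mk_sigma]
    refine Cardinal.add_le_of_le hM0 ?_ ((Cardinal.one_le_aleph0).trans hM0)
    have h3 : ∀ γ : Set.Iio β, #(ℕ × (Lev γ.1 : Type 1) × (Lev γ.1 : Type 1)) ≤ M := by
      intro γ
      have h4 : #(Lev γ.1 : Type 1) ≤ M := by
        rw [g3a_lift, hM, Cardinal.lift_le]
        exact (ih γ.1 γ.2).trans (max_le_max le_rfl (Ordinal.card_le_card (le_of_lt γ.2)))
      rw [Cardinal.mk_prod, Cardinal.mk_prod]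
      simp only [Cardinal.lift_id, Cardinal.lift_id', Cardinal.mk_nat, Cardinal.lift_aleph0]
      exact Cardinal.mul_le_of_le hM0 hM0 (Cardinal.mul_le_of_le hM0 h4 h4)
    refine (Cardinal.sum_le_sum _ (fun _ => M) h3).trans ?_
    rw [Cardinal.sum_const']
    refine Cardinal.mul_le_of_le hM0 ?_ le_rfl
    rw [Cardinal.mk_Iio_ordinal, hM, Cardinal.lift_le]
    exact le_max_right _ _

theorem card_le_card_Lev (β : Ordinal.{0}) : β.card ≤ (Lev β).card := by
  rw [← Cardinal.lift_le.{1}, ← g3a_lift, ← Cardinal.mk_Iio_ordinal]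
  refine Cardinal.mk_le_of_injective
    (f := fun γ : Set.Iio β => (⟨Lev γ.1, Lev_mem_Lev.2 γ.2⟩ : (Lev β : Type 1))) ?_
  intro γ δ h
  exact Subtype.ext (Lev_inj (congrArg Subtype.val h))

end Pool.Agent.H43L
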