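import Pool.Agent.Lib.H43L.G2
import Pool.Agent.Lib.H43L.G3a

/-!
# Chunk G3b: levels at uncountable cardinals are initial segments of length the cardinal

* `limLim_ord`: for `β < μ.ord` take `γ = β + ω` (its cardinality is `< μ`); or `exists_closed`-like argument.
* `→`: suppose `x ∉ Lev μ.ord`.  Every element `y` of `Lev μ.ord` is before `x`: otherwise `WW x y` (`WW_total`) and `x ∈ Lev μ.ord` by
`WW_end`.  So `rkW (Lev β) < rkW x` for all `β < μ.ord`; `β ≤ rkW (Lev β)` (`WW_Lev`, strictly monotone); so `μ.ord ≤ rkW x`.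
* `←`: `x ∈ Lev β` for some `0 < β < μ.ord` (`Lim.exists_lt`), every ordinal `o < rkW x` is `rkW y` for `y = unW o`, `WW y x`, so `y ∈ Lev β`
(`WW_end`): the cardinality of `rkW x` is at most `(Lev β).card ≤ max ℵ₀ β.card < μ` (`card_Lev_le`).
-/

set_option autoImplicit false

open Set Function Cardinal

namespace Pool.Agent.H43L

open Pool.Agent.H94L

theorem g3b_LL_Lev (γ : Ordinal.{0}) : LL (Lev γ) :=
  ⟨γ + 1, Lev_mem_of_lt (Order.lt_add_one_iff.2 le_rfl)⟩

theorem limLim_ord {μ : Cardinal.{0}} (hμ : ℵ₀ < μ) : LimLim μ.ord := by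
  have h0 : 0 < μ.ord := by
    rw [Cardinal.lt_ord, Ordinal.card_zero]
    exact lt_trans Cardinal.aleph0_pos hμ
  refine ⟨h0, fun β hβ => ⟨β + Ordinal.omega0, ?_, ?_, ?_, ?_⟩⟩
  · exact lt_add_of_pos_right β Ordinal.omega0_pos
  · rw [Cardinal.lt_ord, Ordinal.card_add, Ordinal.card_omega0]
    exact Cardinal.add_lt_of_lt hμ.le (Cardinal.lt_ord.1 hβ) hμ
  · exact lt_of_lt_of_le Ordinal.omega0_pos (le_add_self)
  · intro γ hγ
    rw [← Order.succ_eq_add_one]
    exact (Ordinal.isSuccLimit_add β Ordinal.isSuccLimit_omega0).succ_lt hγ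


theorem le_rkW_Lev (β : Ordinal.{0}) : β ≤ rkW (Lev β) := by
  induction β using WellFoundedLT.induction with
  | ind β ih =>
    refine le_of_forall_lt fun γ hγ => ?_
    exact lt_of_le_of_lt (ih γ hγ) ((rkW_lt (g3b_LL_Lev γ) (g3b_LL_Lev β)).2 (WW_Lev hγ))


theorem rkW_lt_ord_iff {μ : Cardinal.{0}} (hμ : ℵ₀ < μ) {x : ZFSet.{0}} (hx : LL x) :
    rkW x < μ.ord ↔ x ∈ Lev μ.ord := by
  have h0 : 0 < μ.ord := (limLim_ord hμ).1
  constructor
  · intro h
    by_contra hn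
    refine absurd h (not_lt.2 (le_of_forall_lt fun β hβ => ?_))
    refine lt_of_le_of_lt (le_rkW_Lev β) ?_
    rw [rkW_lt (g3b_LL_Lev β) hx]
    have h1 : Lev β ∈ Lev μ.ord := Lev_mem_of_lt hβ
    have hne : Lev β ≠ x := fun he => hn (he ▸ h1)
    rcases WW_total (g3b_LL_Lev β) hx hne with hW | hW
    · exact hW
    · exact absurd (WW_end h0 h1 hW) hn
  · intro h
    obtain ⟨γ, hγ, hxγ⟩ := (limLim_ord hμ).lim.exists_lt h
    have hβ : γ + 1 < μ.ord := (limLim_ord hμ).lim.2 γ hγ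
    have hxβ : x ∈ Lev (γ + 1) := Lev_mono (by simp) hxγ
    have hpos : 0 < γ + 1 := by simp
    rw [Cardinal.lt_ord]
    have h1 : Cardinal.lift.{1, 0} (rkW x).card ≤ Cardinal.lift.{1, 0} (Lev (γ + 1)).card := by
      rw [← Cardinal.mk_Iio_ordinal, ← ZFSet.cardinalMk_coe_sort]
      refine Cardinal.mk_le_of_injective (f := fun o : Iio (rkW x) =>
        (⟨unW o.1, ?_⟩ : {z // z ∈ Lev (γ + 1)})) ?_
      · refine WW_end hpos hxβ ?_
        rw [← rkW_lt (LL_unW _) hx, rkW_unW]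
        exact o.2
      · intro o o' hoo
        have h2 : unW o.1 = unW o'.1 := congrArg Subtype.val hoo
        apply Subtype.ext
        rw [← rkW_unW o.1, h2, rkW_unW]
    refine lt_of_le_of_lt (Cardinal.lift_le.1 h1) ?_
    refine lt_of_le_of_lt (card_Lev_le _) (max_lt hμ ?_)
    exact Cardinal.lt_ord.1 hβ


end Pool.Agent.H43L
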