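import Pool.Agent.Lib.H43L.G0

/-!
# Chunk G4a: injections in the constructible universe

* `of_subset`: the set of all `pair x x`, `x ∈ a` (`LL_sep'`, `nice_LL.dfn_pair`, `nice_LL.dfn_bex`; the bound: `a ∈ Lev β` for a limit `β`
(`exists_closed`), `Nice.kpair`).
* `trans`: `f'' =` the set of all `pair x z`, `x ∈ a`, `z ∈ c`, such that for some `y ∈ b`: `pair x y ∈ f` and `pair y z ∈ f'`.
* `card_le`: choose for every `x ∈ a` a `c ∈ b` with `pair x c ∈ f`: an injection of the elements of `a` into those of `b`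
(`ZFSet.cardinalMk_coe_sort`).
-/

set_option autoImplicit false

open Set Function Cardinal

namespace Pool.Agent.H43L

open Pool.Agent.H94L

/-- there is an injection of `a` into `b` in the constructible universe -/
def InjLL (a b : ZFSet.{0}) : Prop :=
  ∃ f, LL f ∧ (∀ x ∈ a, ∃ c ∈ b, ZFSet.pair x c ∈ f) ∧
    ∀ x ∈ a, ∀ x' ∈ a, ∀ c ∈ b, ZFSet.pair x c ∈ f → ZFSet.pair x' c ∈ f → x = x'

theorem InjLL.of_subset {a b : ZFSet.{0}} (ha : LL a) (h : ∀ x ∈ a, x ∈ b) : InjLL a b := by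
  have hP : Dfn LL (fun v => ∃ x ∈ v 1, v 0 = ZFSet.pair x x) :=
    nice_LL.dfn_bex (P := fun v => v 1 = ZFSet.pair (v 0) (v 0)) (nice_LL.dfn_pair 1 0 0) 1
  obtain ⟨β, hβ⟩ := ha
  obtain ⟨δ, hδ1, hδ2, -⟩ := exists_closed (fun γ => γ) β
  have haδ : a ∈ Lev δ := Lev_mono hδ1.le hβ
  obtain ⟨f, hf, hfz⟩ := LL_sep' hP (v := fun _ => a) (fun _ => ⟨β, hβ⟩) δ (by
    rintro z - ⟨x, hx, rfl⟩
    exact (nice_Lev hδ2).kpair (Lev_trans haδ hx) (Lev_trans haδ hx))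
  refine ⟨f, hf, ?_, ?_⟩
  · intro x hx
    have hxL : LL x := ⟨β, Lev_trans hβ hx⟩
    exact ⟨x, h x hx, (hfz _).2 ⟨nice_LL.kpair hxL hxL, x, hx, rfl⟩⟩
  · intro x _ x' _ c _ h1 h2
    obtain ⟨-, y, -, hy⟩ := (hfz _).1 h1
    obtain ⟨-, y', -, hy'⟩ := (hfz _).1 h2
    have e1 : x = y ∧ c = y := ZFSet.pair_inj.1 hy
    have e2 : x' = y' ∧ c = y' := ZFSet.pair_inj.1 hy'
    rw [e1.1, ← e1.2, e2.2, e2.1]

theorem InjLL.mono {a a' b : ZFSet.{0}} (h : ∀ x ∈ a, x ∈ a') (h' : InjLL a' b) : InjLL a b := by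
  obtain ⟨f, hf, h1, h2⟩ := h'
  exact ⟨f, hf, fun x hx => h1 x (h x hx), fun x hx x' hx' => h2 x (h x hx) x' (h x' hx')⟩

theorem InjLL.trans {a b c : ZFSet.{0}} (ha : LL a) (hb : LL b) (hc : LL c) (h : InjLL a b)
    (h' : InjLL b c) : InjLL a c := by
  obtain ⟨f, hf, hf1, hf2⟩ := h
  obtain ⟨f', hf', hf'1, hf'2⟩ := h'
  have hP0 : Dfn LL (fun v => v 3 = ZFSet.pair (v 2) (v 1) ∧
      ZFSet.pair (v 2) (v 0) ∈ v 7 ∧ ZFSet.pair (v 0) (v 1) ∈ v 8) :=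
    (nice_LL.dfn_pair 3 2 1).and ((nice_LL.dfn_pair_mem 2 0 7).and (nice_LL.dfn_pair_mem 0 1 8))
  have hP1 := nice_LL.dfn_bex (nice_LL.dfn_bex (nice_LL.dfn_bex hP0 4) 4) 1
  obtain ⟨β, hβ⟩ := ha
  obtain ⟨γ, hγ⟩ := hc
  obtain ⟨δ, hδ1, hδ2, -⟩ := exists_closed (fun γ => γ) (max β γ)
  have haδ : a ∈ Lev δ := Lev_mono ((le_max_left _ _).trans hδ1.le) hβ
  have hcδ : c ∈ Lev δ := Lev_mono ((le_max_right _ _).trans hδ1.le) hγ
  have hv : ∀ i, LL ((cons a (cons b (cons c (cons f fun _ => f')))) i) := by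
    intro i
    match i with
    | 0 => exact ⟨β, hβ⟩
    | 1 => exact hb
    | 2 => exact ⟨γ, hγ⟩
    | 3 => exact hf
    | n + 4 => exact hf'
  obtain ⟨g, hg, hgz⟩ := LL_sep' hP1 hv δ (by
    rintro z - ⟨x, hx, z', hz', y, hy, h1, h2, h3⟩
    have h1' : z = ZFSet.pair x z' := h1
    rw [h1']
    exact (nice_Lev hδ2).kpair (Lev_trans haδ hx) (Lev_trans hcδ hz'))
  refine ⟨g, hg, ?_, ?_⟩
  · intro x hx
    obtain ⟨y, hy, hxy⟩ := hf1 x hx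
    obtain ⟨z, hz, hyz⟩ := hf'1 y hy
    refine ⟨z, hz, (hgz _).2 ⟨nice_LL.kpair ⟨β, Lev_trans hβ hx⟩ ⟨γ, Lev_trans hγ hz⟩, ?_⟩⟩
    exact ⟨x, hx, z, hz, y, hy, rfl, hxy, hyz⟩
  · intro x hx x' hx' z hz h1 h2
    obtain ⟨-, x1, -, z1, -, y1, hy1, e1, p1, q1⟩ := (hgz _).1 h1
    obtain ⟨-, x2, -, z2, -, y2, hy2, e2, p2, q2⟩ := (hgz _).1 h2
    have e1' : x = x1 ∧ z = z1 := ZFSet.pair_inj.1 e1
    have e2' : x' = x2 ∧ z = z2 := ZFSet.pair_inj.1 e2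
    have p1' : ZFSet.pair x1 y1 ∈ f := p1
    have p2' : ZFSet.pair x2 y2 ∈ f := p2
    have q1' : ZFSet.pair y1 z1 ∈ f' := q1
    have q2' : ZFSet.pair y2 z2 ∈ f' := q2
    have hy1' : y1 ∈ b := hy1
    have hy2' : y2 ∈ b := hy2
    rw [← e1'.1] at p1'
    rw [← e2'.1] at p2'
    rw [← e1'.2] at q1'
    rw [← e2'.2] at q2'
    have hyy : y1 = y2 := hf'2 y1 hy1' y2 hy2' z hz q1' q2'
    subst hyy
    exact hf2 x hx x' hx' y1 hy1' p1' p2'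

theorem InjLL.card_le {a b : ZFSet.{0}} (h : InjLL a b) : a.card ≤ b.card := by
  obtain ⟨f, -, h1, h2⟩ := h
  choose! c hc using h1
  rw [← Cardinal.lift_le.{1}, ← ZFSet.cardinalMk_coe_sort, ← ZFSet.cardinalMk_coe_sort]
  refine Cardinal.mk_le_of_injective
    (f := fun x : (a : Type 1) => (⟨c x.1, (hc x.1 x.2).1⟩ : (b : Type 1))) ?_
  intro x y hxy
  have hxy' : c x.1 = c y.1 := congrArg Subtype.val hxy
  refine Subtype.ext (h2 x.1 x.2 y.1 y.2 (c x.1) (hc x.1 x.2).1 (hc x.1 x.2).2 ?_)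
  rw [hxy']
  exact (hc y.1 y.2).2

end Pool.Agent.H43L
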