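import Pool.Agent.Lib.H43L.G4a
import Pool.Agent.Lib.H43L.G1c

/-!
# Chunk G4b: a small limit level containing a given subset of a limit level

Let `x = Lev β` (transitive, closed under unordered pairs and successors, `nice_Lev`).  As in `H94L.small_level` (copy its proof,
file H94L/Small.lean, with `condensation'` in place of `condensation`) there is a limit `γ` with `x, a, pair x a ∈ Lev γ` such that
every `y ∈ Lev γ` is the unique `z ∈ Lev γ` with `SatL (cl (Lev γ)) (enumF k) (asg z p (pair x a))` for some `k` and `p ∈ x`.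
The injection: as in `H94L.exists_f` (copy its proof, file H94L/GC2.lean; `GC2P`, `GC2_dfn`, `GC2_kpair`, `GC2_nat`, `GC2_bound`): `f` is
the set of all `pair b c`, `b ∈ Lev γ`, `c = pair n p ∈ x` with `∀ z ∈ Lev γ, TT (Lev γ) n p (pair x a) z ↔ z = b`.
-/

set_option autoImplicit false

open Set Function Cardinal

namespace Pool.Agent.H43L

open Pool.Agent.H94L

theorem g4b_small_level {x a : ZFSet.{0}} (hxL : LL x) (haL : LL a)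
    (hx0 : ∀ y ∈ x, ∀ z ∈ y, z ∈ x)
    (hx1 : ∀ y z, y ∈ x → z ∈ x → ({y, z} : ZFSet.{0}) ∈ x) (hx2 : ∅ ∈ x)
    (hax : ∀ z ∈ a, z ∈ x) :
    ∃ γ, Lim γ ∧ x ∈ Lev γ ∧ a ∈ Lev γ ∧ ZFSet.pair x a ∈ Lev γ ∧ ∀ y ∈ Lev γ, ∃ k p, p ∈ x ∧
      ∀ z ∈ Lev γ, (SatL (cl (Lev γ)) (enumF k) (asg z p (ZFSet.pair x a)) ↔ z = y) := by
  obtain ⟨α, hα⟩ := hxL
  obtain ⟨β, hβ⟩ := haL
  obtain ⟨δ, hδm, hδ, -⟩ := exists_closed (fun _ => 0) (max α β)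
  have hx : x ∈ Lev δ := Lev_mono ((le_max_left _ _).trans hδm.le) hα
  have ha : a ∈ Lev δ := Lev_mono ((le_max_right _ _).trans hδm.le) hβ
  obtain ⟨N, hT, hxN, hNx, hNa, hNp, hdef⟩ := exists_hull hδ hx ha hx1 hx2
  obtain ⟨γ, -, hγ, h1, h2⟩ := condensation' hδ hT
  have hcx : coll N x = x := coll_eq_self hx0 hxN fun z hz => hz
  have hca : coll N a = a := coll_eq_self hx0 hxN hax
  have hcp : coll N (ZFSet.pair x a) = ZFSet.pair x a := by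
    rw [hT.coll_pair hδ hNx hNa, hcx, hca]
  have hxγ : x ∈ Lev γ := (h1 x).2 ⟨x, hNx, hcx.symm⟩
  have haγ : a ∈ Lev γ := (h1 a).2 ⟨a, hNa, hca.symm⟩
  have hpγ : ZFSet.pair x a ∈ Lev γ := (h1 _).2 ⟨_, hNp, hcp.symm⟩
  refine ⟨γ, hγ, hxγ, haγ, hpγ, ?_⟩
  intro y' hy'
  obtain ⟨y, hy, rfl⟩ := (h1 y').1 hy'
  obtain ⟨k, p, hp, h3⟩ := hdef y hy
  have hcpp : coll N p = p := coll_eq_self hx0 hxN fun z hz => hx0 p hp z hz
  refine ⟨k, p, hp, fun z' hz' => ?_⟩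
  obtain ⟨z, hz, rfl⟩ := (h1 z').1 hz'
  have h4 : asg (coll N z) p (ZFSet.pair x a) = coll N ∘ asg z p (ZFSet.pair x a) := by
    funext i
    match i with
    | 0 => rfl
    | 1 => exact hcpp.symm
    | n + 2 => exact hcp.symm
  rw [h4, h2 _ _ (asg_mem hz (hxN p hp) hNp), h3 z (hT.sub z hz)]
  exact ⟨fun h => by rw [h], fun h => hT.coll_inj hz hy h⟩

theorem exists_small {β : Ordinal.{0}} (hβ : Lim β) {a : ZFSet.{0}} (ha : LL a)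
    (hsub : ∀ z ∈ a, z ∈ Lev β) :
    ∃ γ, Lim γ ∧ β < γ ∧ a ∈ Lev γ ∧ InjLL (Lev γ) (Lev β) := by
  have hnice := nice_Lev hβ
  have hxL : LL (Lev β) := ⟨β + 1, Lev_mem_of_lt (Order.lt_add_one_iff.2 le_rfl)⟩
  have hx1 : ∀ y z, y ∈ Lev β → z ∈ Lev β → ({y, z} : ZFSet.{0}) ∈ Lev β := hnice.pair
  have hx2 : ∅ ∈ Lev β := hnice.empty
  have hx3 : ∀ y ∈ Lev β, insert y y ∈ Lev β := hnice.succ
  obtain ⟨γ, hγ, hx, haγ, hq, hdef⟩ := g4b_small_level hxL ha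
    (fun y hy z hz => Lev_trans hy hz) hx1 hx2 hsub
  refine ⟨γ, hγ, lt_of_Lev_mem hx, haγ, ?_⟩
  have hLL : LL (Lev γ) := ⟨γ + 1, Lev_mem_of_lt (Order.lt_add_one_iff.2 le_rfl)⟩
  have hxL' : ∀ c ∈ Lev β, c ∈ Lev γ := fun c hc => Lev_trans hx hc
  obtain ⟨f, hf, hf'⟩ := LL_sep' GC2_dfn
    (v := cons (Lev β) (cons (Lev γ) fun _ => ZFSet.pair (Lev β) a))
    (fun i => cons_mem hxL (fun j => cons_mem hLL (fun _ => ⟨γ, hq⟩) j) i) (γ + 1 + 1) (by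
      rintro t - ⟨b, hb, c, hc, n, -, p, -, ht, -, -⟩
      change t = ZFSet.pair b c at ht
      rw [ht]
      exact GC2_bound hb (hxL' c hc))
  have hmem : ∀ b c, ZFSet.pair b c ∈ f ↔ b ∈ Lev γ ∧ c ∈ Lev β ∧ ∃ n ∈ Lev β, ∃ p ∈ Lev β,
      c = ZFSet.pair n p ∧ ∀ z ∈ Lev γ, (TT (Lev γ) n p (ZFSet.pair (Lev β) a) z ↔ z = b) := by
    intro b c
    rw [hf']
    constructor
    · rintro ⟨-, b', hb', c', hc', n, hn, p, hp, ht, hcp, hz⟩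
      change ZFSet.pair b c = ZFSet.pair b' c' at ht
      obtain ⟨rfl, rfl⟩ := ZFSet.pair_inj.1 ht
      exact ⟨hb', hc', n, hn, p, hp, hcp, hz⟩
    · rintro ⟨hb, hc, n, hn, p, hp, hcp, hz⟩
      exact ⟨⟨_, GC2_bound hb (hxL' c hc)⟩, b, hb, c, hc, n, hn, p, hp, rfl, hcp, hz⟩
  refine ⟨f, hf, ?_, ?_⟩
  · intro b hbγ
    obtain ⟨k, p, hp, hk⟩ := hdef b hbγ
    refine ⟨ZFSet.pair (nat k) p, GC2_kpair hx1 (GC2_nat hx2 hx3 k) hp, (hmem _ _).2 ?_⟩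
    refine ⟨hbγ, GC2_kpair hx1 (GC2_nat hx2 hx3 k) hp, nat k, GC2_nat hx2 hx3 k, p, hp, rfl, ?_⟩
    intro z hz
    rw [← hk z hz, TT_iff]
    constructor
    · rintro ⟨γ', k', h1, h2, h3, h4, h5⟩
      obtain rfl := Lev_inj h1
      obtain rfl := nat_inj h2
      rcases h5 with h5 | h5
      · exact absurd (h5 ▸ hz) (ZFSet.mem_irrefl _)
      · exact h5.2
    · intro h
      exact ⟨γ, k, rfl, rfl, hxL' p hp, hq, Or.inr ⟨hz, h⟩⟩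
  · intro b _ b' _ c _ h h'
    obtain ⟨hb, -, n, -, p, -, hc, hz⟩ := (hmem b c).1 h
    obtain ⟨-, -, n', -, p', -, hc', hz'⟩ := (hmem b' c).1 h'
    rw [hc] at hc'
    obtain ⟨rfl, rfl⟩ := ZFSet.pair_inj.1 hc'
    exact (hz' b hb).1 ((hz b hb).2 rfl)

end Pool.Agent.H43L
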