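import Pool.Agent.Lib.H43L.G4a

/-!
# Chunk G4c: Cantor's theorem in the constructible universe

Let `β` be such that every constructible subset of `K` is in `Lev β` (`LL_bound_set (ZFSet.powerset K) LL`).  Suppose `InjLL (Lev β) K`
by `f`.  Let `d` be the set of all `c ∈ K` such that there is `y ∈ Lev β` with `pair y c ∈ f` and `c ∉ y` (`LL_sep`,
`nice_LL.dfn_bex`, `nice_LL.dfn_pair_mem`, parameters `f`, `Lev β`).  Then `d ∈ Lev β`; let `pair d c ∈ f`, `c ∈ K`.  If `c ∈ d` there is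
`y` with `pair y c ∈ f`, `c ∉ y`, and `y = d`; if `c ∉ d` then `y = d` shows `c ∈ d`.
-/

set_option autoImplicit false

open Set Function Cardinal

namespace Pool.Agent.H43L

open Pool.Agent.H94L

theorem exists_not_injLL {K : ZFSet.{0}} (hK : LL K) : ∃ β, ¬ InjLL (Lev β) K := by
  obtain ⟨β, hβ⟩ := LL_bound_set (ZFSet.powerset K) LL (fun _ _ h => h)
  refine ⟨β, ?_⟩
  rintro ⟨f, hf, hf1, hf2⟩
  have hP0 : Dfn LL (fun v => ZFSet.pair (v 0) (v 1) ∈ v 3 ∧ ¬ v 1 ∈ v 0) :=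
    (nice_LL.dfn_pair_mem 0 1 3).and (Dfn.mem 1 0).not
  have hP1 := nice_LL.dfn_bex hP0 1
  have hLev : LL (Lev β) := ⟨β + 1, Lev_mem_of_lt (Order.lt_add_one_iff.mpr le_rfl)⟩
  have hv : ∀ i, LL ((cons (Lev β) fun _ => f) i) := by
    intro i
    match i with
    | 0 => exact hLev
    | n + 1 => exact hf
  obtain ⟨d, hd, hdz⟩ := LL_sep hP1 hv hK
  have hdsub : d ∈ ZFSet.powerset K := by
    rw [ZFSet.mem_powerset]
    intro z hz
    exact ((hdz z).1 hz).1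
  have hdβ : d ∈ Lev β := hβ d hdsub hd
  obtain ⟨c, hc, hdc⟩ := hf1 d hdβ
  by_cases hcd : c ∈ d
  · obtain ⟨-, y, hy, h1, h2⟩ := (hdz c).1 hcd
    have hy' : y ∈ Lev β := hy
    have h1' : ZFSet.pair y c ∈ f := h1
    have h2' : ¬ c ∈ y := h2
    have : y = d := hf2 y hy' d hdβ c hc h1' hdc
    rw [this] at h2'
    exact h2' hcd
  · apply hcd
    exact (hdz c).2 ⟨hc, d, hdβ, hdc, hcd⟩

end Pool.Agent.H43L
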