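import Pool.Agent.Lib.H43L.G4b
import Pool.Agent.Lib.H43L.G4c

/-!
# Chunk G4d: the successor cardinal in the constructible universe

Let `K = Lev κ.ord`.  `κ.ord` is a limit (`Cardinal.isSuccLimit_ord`).  Let `P γ` mean `Lim γ ∧ InjLL (Lev γ) K`.  `P κ.ord`
(`InjLL.of_subset`).  If `P γ` and `a ∈ LL` is a subset of `Lev γ` then there is `γ' > γ` with `P γ'`, `a ∈ Lev γ'` (`exists_small`,
`InjLL.trans`).  If `β` is as in `exists_not_injLL` then `P γ` implies `γ < β` (`InjLL.mono`, `Lev_mono`).  Let `δ` be the least upper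
bound of the `γ` with `P γ` (the least ordinal `δ` such that `P γ → γ ≤ δ`).  For `β < δ` there is `γ` with `P γ`, `β < γ ≤ δ`,
and `γ < γ' ≤ δ` with `P γ'`.  So `LimLim δ`; if `InjLL (Lev δ) K` then `P δ` (`LimLim.lim`), and `δ < γ' ≤ δ`.
-/

set_option autoImplicit false

open Set Function Cardinal

namespace Pool.Agent.H43L

open Pool.Agent.H94L

theorem exists_delta {κ : Cardinal.{0}} (hκ : ℵ₀ ≤ κ) : ∃ δ, κ.ord < δ ∧ LimLim δ ∧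
    ¬ InjLL (Lev δ) (Lev κ.ord) ∧ (∀ β < δ, InjLL (Lev β) (Lev κ.ord)) ∧
      ∀ β < δ, ∀ a, LL a → (∀ z ∈ a, z ∈ Lev β) → a ∈ Lev δ := by
  have hLL : ∀ β : Ordinal.{0}, LL (Lev β) := fun β => ⟨β + 1, Lev_mem_of_lt (NICE_lt β)⟩
  have hlimκ : Lim κ.ord := by
    have h1 := Cardinal.isSuccLimit_ord hκ
    refine ⟨?_, fun γ hγ => ?_⟩
    · exact lt_of_lt_of_le Ordinal.omega0_pos (by
        rw [← Cardinal.ord_aleph0]
        exact Cardinal.ord_le_ord.2 hκ)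
    · have := h1.succ_lt hγ
      rwa [Order.succ_eq_add_one] at this
  set P : Ordinal.{0} → Prop := fun γ => Lim γ ∧ InjLL (Lev γ) (Lev κ.ord) with hP
  have hPκ : P κ.ord := ⟨hlimκ, InjLL.of_subset (hLL _) fun x hx => hx⟩
  have hstep : ∀ γ, P γ → ∀ a, LL a → (∀ z ∈ a, z ∈ Lev γ) → ∃ γ', γ < γ' ∧ P γ' ∧ a ∈ Lev γ' := by
    intro γ hγ a ha hsub
    obtain ⟨γ', h1, h2, h3, h4⟩ := exists_small hγ.1 ha hsub
    exact ⟨γ', h2, ⟨h1, InjLL.trans (hLL _) (hLL _) (hLL _) h4 hγ.2⟩, h3⟩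
  obtain ⟨β₀, hβ₀⟩ := exists_not_injLL (hLL κ.ord)
  have hbd : ∀ γ, P γ → γ ≤ β₀ := by
    intro γ hγ
    by_contra hcon
    exact hβ₀ (InjLL.mono (fun x hx => Lev_mono (not_le.1 hcon).le hx) hγ.2)
  set S : Set Ordinal.{0} := {δ | ∀ γ, P γ → γ ≤ δ} with hS
  have hne : S.Nonempty := ⟨β₀, hbd⟩
  have hmem : sInf S ∈ S := csInf_mem hne
  have hlt1 : ∀ β < sInf S, ∃ γ, P γ ∧ β < γ := by
    intro β hβ
    by_contra hcon
    push Not at hcon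
    exact absurd (csInf_le' (show β ∈ S from hcon)) (not_le.2 hβ)
  have hlt : ∀ γ, P γ → γ < sInf S := by
    intro γ hγ
    obtain ⟨γ', h1, h2, -⟩ := hstep γ hγ ∅ ⟨0, empty_mem_Lev 0⟩ (fun z hz => absurd hz (ZFSet.notMem_empty z))
    exact lt_of_lt_of_le h1 (hmem γ' h2)
  have hLL2 : LimLim (sInf S) := by
    refine ⟨lt_of_le_of_lt (zero_le) (hlt _ hPκ), fun β hβ => ?_⟩
    obtain ⟨γ, h1, h2⟩ := hlt1 β hβ
    exact ⟨γ, h2, hlt γ h1, h1.1⟩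
  refine ⟨sInf S, hlt _ hPκ, hLL2, fun h => ?_, fun β hβ => ?_, fun β hβ a ha hsub => ?_⟩
  · exact lt_irrefl _ (hlt _ ⟨hLL2.lim, h⟩)
  · obtain ⟨γ, h1, h2⟩ := hlt1 β hβ
    exact InjLL.mono (fun x hx => Lev_mono h2.le hx) h1.2
  · obtain ⟨γ, h1, h2⟩ := hlt1 β hβ
    obtain ⟨γ', h3, h4, h5⟩ := hstep γ h1 a ha fun z hz => Lev_mono h2.le (hsub z hz)
    exact Lev_mono (hmem γ' h4) h5

end Pool.Agent.H43L
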