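import Pool.Agent.Lib.H43L.G0

/-!
# Chunk G5a: ω in the constructible universe

A limit level `Lev β` contains all `nat k` (`Nice.natMem`, `exists_closed`).  Claim: `z` is some `nat k` iff every `y ∈ insert z z` is `∅` or of the
form `insert y' y'` with `y' ∈ insert z z` (indeed `y' ∈ y`, so `y' ∈ z` if `z` is transitive; to have a condition which is easy to use, require also: `z` is transitive).  Every `nat k` satisfies it (`NICE_mem_nat`);
conversely, if `z` satisfies it, then every `y ∈ insert z z` is a `nat k` by `∈`-induction (`∅ = nat 0`, `insert (nat k) (nat k) = nat (k + 1)`).  The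
condition is definable over `LL` (`LL_sep`, `nice_LL.dfn_ball`, `dfn_succ`, `dfn_empty`, ...).
`IsOmega EL`: `isInd_EL` (file H94L/ZFBase.lean) for the minimality; `w` itself is inductive.
-/

set_option autoImplicit false

open Set Function Cardinal

namespace Pool.Agent.H43L

open Pool.Agent.H94L

open Pool.Agent.H5Z (Rel IsPair IsOmega IsInd)

/-- auxiliary predicate of the chunk G5a -/
def g5aQ (v : ℕ → ZFSet.{0}) : Prop :=
  v 0 = ∅ ∨ ∃ a ∈ v 0, (cons a v) 1 = insert ((cons a v) 0) ((cons a v) 0)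

/-- the definable property of being a natural number -/
def g5aP (v : ℕ → ZFSet.{0}) : Prop :=
  (∀ a ∈ v 0, ∀ b ∈ (cons a v) 0, (cons b (cons a v)) 0 ∈ (cons b (cons a v)) 2) ∧ g5aQ v ∧
    ∀ a ∈ v 0, g5aQ (cons a v)

theorem g5a_dfn : Dfn LL g5aP := by
  have h1 : Dfn LL g5aQ := (nice_LL.dfn_empty 0).or (nice_LL.dfn_bex (nice_LL.dfn_succ 1 0) 0)
  exact (nice_LL.dfn_ball (nice_LL.dfn_ball (Dfn.mem 0 2) 0) 0).and (h1.and (nice_LL.dfn_ball h1 0))

theorem g5a_iff (z : ZFSet.{0}) (v : ℕ → ZFSet.{0}) : g5aP (cons z v) ↔ ∃ k, z = nat k := by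
  constructor
  · rintro ⟨h1, h2, h3⟩
    have ht : ∀ y ∈ z, ∀ y' ∈ y, y' ∈ z := h1
    have hz : z = ∅ ∨ ∃ y ∈ z, z = insert y y := h2
    have hy : ∀ y ∈ z, y = ∅ ∨ ∃ y' ∈ y, y = insert y' y' := h3
    have key : ∀ y : ZFSet.{0}, y ∈ z → ∃ k, y = nat k := by
      intro y
      induction y using ZFSet.inductionOn with
      | _ y ih =>
        intro hyz
        rcases hy y hyz with h | ⟨y', hy', h⟩
        · exact ⟨0, h⟩
        · obtain ⟨k, hk⟩ := ih y' hy' (ht y hyz y' hy')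
          refine ⟨k + 1, ?_⟩
          rw [h, hk]
          rfl
    rcases hz with h | ⟨y, hy, h⟩
    · exact ⟨0, h⟩
    · obtain ⟨k, hk⟩ := key y hy
      refine ⟨k + 1, ?_⟩
      rw [h, hk]
      rfl
  · rintro ⟨k, rfl⟩
    have hQ : ∀ j : ℕ, nat j = ∅ ∨ ∃ y ∈ nat j, nat j = insert y y := by
      intro j
      cases j with
      | zero => exact Or.inl rfl
      | succ j => exact Or.inr ⟨nat j, nat_mem_nat.2 (Nat.lt_succ_self j), rfl⟩
    refine ⟨?_, hQ k, ?_⟩
    · intro a ha b hb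
      have ha' : a ∈ nat k := ha
      have hb' : b ∈ a := hb
      show b ∈ nat k
      rw [NICE_mem_nat] at ha'
      obtain ⟨j, hj, rfl⟩ := ha'
      rw [NICE_mem_nat] at hb'
      obtain ⟨i, hi, rfl⟩ := hb'
      exact nat_mem_nat.2 (hi.trans hj)
    · intro a ha
      have ha' : a ∈ nat k := ha
      rw [NICE_mem_nat] at ha'
      obtain ⟨j, hj, rfl⟩ := ha'
      exact hQ j

theorem exists_omega : ∃ w : ML, (∀ z, z ∈ w.1 ↔ ∃ k, z = nat k) ∧ IsOmega EL w := by
  obtain ⟨β, hβ⟩ := LL_bound nat fun k => nice_LL.natMem k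
  obtain ⟨b, hb, hbz⟩ := LL_sep' g5a_dfn (v := fun _ => ∅) (fun _ => nice_LL.empty) β (by
    intro z _ h
    rw [g5a_iff] at h
    obtain ⟨k, rfl⟩ := h
    exact hβ k)
  have hbz' : ∀ z, z ∈ b ↔ ∃ k, z = nat k := by
    intro z
    rw [hbz, g5a_iff]
    constructor
    · exact fun h => h.2
    · rintro ⟨k, rfl⟩
      exact ⟨nice_LL.natMem k, k, rfl⟩
  refine ⟨⟨b, hb⟩, hbz', ⟨⟨⟨∅, nice_LL.empty⟩, ?_, ?_⟩, ?_⟩, ?_⟩
  · exact (hbz' ∅).2 ⟨0, rfl⟩
  · intro z hz
    exact ZFSet.notMem_empty _ hz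
  · intro x hx
    obtain ⟨k, hk⟩ := (hbz' x.1).1 hx
    refine ⟨⟨insert x.1 x.1, nice_LL.succ _ x.2⟩, (hbz' _).2 ⟨k + 1, by
      show (insert x.1 x.1 : ZFSet.{0}) = nat (k + 1)
      rw [hk]
      rfl⟩, ?_⟩
    intro z
    show z.1 ∈ (insert x.1 x.1 : ZFSet.{0}) ↔ z.1 ∈ x.1 ∨ z = x
    rw [ZFSet.mem_insert_iff, or_comm]
    constructor
    · rintro (h | h)
      · exact Or.inl h
      · exact Or.inr (ML.ext h)
    · rintro (h | h)
      · exact Or.inl h
      · exact Or.inr (congrArg Subtype.val h)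
  · intro u hu z hz
    obtain ⟨h1, h2⟩ := isInd_EL u hu
    obtain ⟨k, hk⟩ := (hbz' z.1).1 hz
    show z.1 ∈ u.1
    rw [hk]
    clear hk hz
    induction k with
    | zero => exact h1
    | succ k ih => exact h2 _ ih

end Pool.Agent.H43L
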