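import Pool.Agent.Lib.H43L.G0

/-!
# Chunk G5b: the well-order of a level as a set

`LL_sep'` for `v 0 = pair x y`, `x, y ∈ Lev δ`, `WW x y` (compare `H94L.exists_w`, file H94L/GC1.lean).
-/

set_option autoImplicit false

open Set Function Cardinal

namespace Pool.Agent.H43L

open Pool.Agent.H94L

theorem exists_R {δ : Ordinal.{0}} (hδ : Lim δ) : ∃ R : ML, ∀ x y : ZFSet.{0},
    ZFSet.pair x y ∈ R.1 ↔ x ∈ Lev δ ∧ y ∈ Lev δ ∧ WW x y := by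
  have hP : Dfn LL fun v => ∃ a, LL a ∧ ∃ b, LL b ∧
      (v 0 = ZFSet.pair a b ∧ a ∈ v 1 ∧ b ∈ v 1 ∧ WW a b) :=
    Dfn.ex (Dfn.ex ((nice_LL.dfn_pair 2 1 0).and ((Dfn.mem 1 3).and
      ((Dfn.mem 0 3).and (Dfn.ww 1 0)))))
  have hL : LL (Lev δ) := ⟨δ + 1, Lev_mem_Lev.2 (by simp)⟩
  obtain ⟨w, hw, hz⟩ := LL_sep' hP (v := fun _ => Lev δ) (fun _ => hL) δ (by
    rintro z - ⟨a, ha, b, hb, he, h1, h2, -⟩
    have he' : z = ZFSet.pair a b := he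
    rw [he']
    exact (nice_Lev hδ).kpair h1 h2)
  refine ⟨⟨w, hw⟩, fun x y => ?_⟩
  show ZFSet.pair x y ∈ w ↔ _
  rw [hz]
  constructor
  · rintro ⟨-, a', -, b', -, he, h1, h2, h3⟩
    have he' : ZFSet.pair x y = ZFSet.pair a' b' := he
    obtain ⟨rfl, rfl⟩ := ZFSet.pair_injective he'
    exact ⟨h1, h2, h3⟩
  · rintro ⟨h1, h2, h3⟩
    have hx : LL x := ⟨δ, h1⟩
    have hy : LL y := ⟨δ, h2⟩
    exact ⟨nice_LL.kpair hx hy, x, hx, y, hy, rfl, h1, h2, h3⟩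

end Pool.Agent.H43L
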