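import Pool.Agent.Lib.H43L.G0e
import Pool.Agent.Lib.H43L.G0d
import Pool.Agent.Lib.H43L.G5a

/-!
# Chunk G5c: the functions of the algebra as a set

`LL_sep'` for the predicate: `v 0 = pair (pair n x) y` with `n ∈ w`, `x ∈ Lev δ`, `y ∈ Lev δ`, `GR n x y` (`ud_GR`, `UD.dfn`); the bound is `δ`
(`nice_Lev`, `Nice.kpair`, `nat k ∈ Lev δ`).  `GR (nat k) x y ↔ y = GG k x` (`GG_spec`, `GG_eq`), `GG_mem_Lev`.
-/

set_option autoImplicit false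

open Set Function Cardinal

namespace Pool.Agent.H43L

open Pool.Agent.H94L

theorem g5c_ud : UD Nice fun _ v => ∃ n ∈ v 1, ∃ x ∈ v 2, ∃ y ∈ v 2,
    v 0 = ZFSet.pair (ZFSet.pair n x) y ∧ GR n x y := by
  have h1 : UD Nice fun A v => ∃ a, A a ∧ (a = ZFSet.pair (v 2) (v 1) ∧ v 3 = ZFSet.pair a (v 0)) :=
    UD.ex ((ud_pair 0 3 2).and (ud_pair 4 0 1))
  have h2 : UD Nice fun A v => v 3 = ZFSet.pair (ZFSet.pair (v 2) (v 1)) (v 0) := by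
    refine h1.congr fun A hA v hv => ?_
    constructor
    · intro h
      exact ⟨_, hA.kpair (hv 2) (hv 1), rfl, h⟩
    · rintro ⟨a, -, rfl, h⟩
      exact h
  have h3 := ud_bex (ud_bex (ud_bex (h2.and (ud_GR 2 1 0)) 4) 3) 1
  exact h3.congr fun A hA v hv => Iff.rfl

theorem exists_G {δ : Ordinal.{0}} (hδ : LimLim δ) : ∃ G : ML, ∀ n x y : ZFSet.{0},
    ZFSet.pair (ZFSet.pair n x) y ∈ G.1 ↔ ∃ k, n = nat k ∧ x ∈ Lev δ ∧ y = GG k x := by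
  obtain ⟨w, hw, -⟩ := exists_omega
  have hLL : LL (Lev δ) := ⟨δ + 1, Lev_mem_of_lt (Order.lt_add_one_iff.2 le_rfl)⟩
  have hn := nice_Lev hδ.lim
  obtain ⟨b, hb, hb'⟩ := LL_sep' (g5c_ud.dfn nice_LL) (v := cons w.1 (cons (Lev δ) fun _ => ∅))
    (fun i => cons_mem w.2 (fun j => cons_mem hLL (fun _ => nice_LL.empty) j) i) δ (by
      rintro z - ⟨n, hn', x, hx, y, hy, he, -⟩
      have he' : z = ZFSet.pair (ZFSet.pair n x) y := he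
      obtain ⟨k, rfl⟩ := (hw n).1 hn'
      rw [he']
      exact hn.kpair (hn.kpair (hn.natMem k) hx) hy)
  refine ⟨⟨b, hb⟩, fun n x y => ?_⟩
  show ZFSet.pair (ZFSet.pair n x) y ∈ b ↔ _
  rw [hb']
  constructor
  · rintro ⟨-, n', hn', x', hx', y', hy', he, hg⟩
    have he' : ZFSet.pair (ZFSet.pair n x) y = ZFSet.pair (ZFSet.pair n' x') y' := he
    obtain ⟨h1, rfl⟩ := ZFSet.pair_inj.1 he'
    obtain ⟨rfl, rfl⟩ := ZFSet.pair_inj.1 h1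
    obtain ⟨k, rfl⟩ := (hw n).1 hn'
    exact ⟨k, rfl, hx', (GG_eq hg).symm⟩
  · rintro ⟨k, rfl, hx, rfl⟩
    have hy := GG_mem_Lev hδ k hx
    have hz : ZFSet.pair (ZFSet.pair (nat k) x) (GG k x) ∈ Lev δ :=
      hn.kpair (hn.kpair (hn.natMem k) hx) hy
    exact ⟨⟨δ, hz⟩, nat k, (hw _).2 ⟨k, rfl⟩, x, hx, GG k x, hy, rfl, (GG_spec k ⟨δ, hx⟩).2⟩


end Pool.Agent.H43L
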