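import Pool.Agent.Lib.H43L.G0

/-!
# Chunk G6a: approximations to the collapse

* `dfn_apx`: bounded quantifiers: `∀ t ∈ f, ∀ x y, t = pair x y → ...`; see `nice_LL.dfn_pair_mem`, `dfn_ball`, `dfn_bex`, `Dfn.all`, `Dfn.ex` (all sets which occur
are in `LL`: for `z` and `y'` as `f ∈ LL`, `y ∈ LL`).
* `Apx.eq`: induction on `x` (`ZFSet.inductionOn`): `z ∈ y` iff `pair x' z ∈ f` for some `x' ∈ x`; then `x' ∈ S` and `z = coll (cl S) x'` by induction;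
conversely for `x' ∈ x`, `x' ∈ S` there is `y'` with `pair x' y' ∈ f`, `y' = coll (cl S) x'` (`mem_coll`).
* `Apx.union`: clear.
-/

set_option autoImplicit false

open Set Function Cardinal

namespace Pool.Agent.H43L

open Pool.Agent.H94L

/-- `f` is an approximation to the collapse of the set `S` -/
def Apx (S f : ZFSet.{0}) : Prop :=
  ∀ x y, ZFSet.pair x y ∈ f → x ∈ S ∧ (∀ x' ∈ x, x' ∈ S → ∃ y', ZFSet.pair x' y' ∈ f) ∧
    ∀ z, z ∈ y ↔ ∃ x' ∈ x, ZFSet.pair x' z ∈ f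

theorem dfn_apx (i j : ℕ) : Dfn LL fun v => Apx (v i) (v j) := by
  have h1 : Dfn LL fun v => ∀ a ∈ v 1, (a ∈ cons a v (i + 3) →
      ∃ b, LL b ∧ ZFSet.pair (cons b (cons a v) 1) (cons b (cons a v) 0) ∈ cons b (cons a v) (j + 4)) :=
    nice_LL.dfn_ball (P := fun v => v 0 ∈ v (i + 3) →
      ∃ b, LL b ∧ ZFSet.pair (cons b v 1) (cons b v 0) ∈ cons b v (j + 4))
      ((Dfn.mem 0 (i + 3)).imp (Dfn.ex (nice_LL.dfn_pair_mem 1 0 (j + 4)))) 1
  have h2 : Dfn LL fun v => ∀ a, LL a → (cons a v 0 ∈ cons a v 1 ↔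
      ∃ b ∈ cons a v 2, ZFSet.pair (cons b (cons a v) 0) (cons b (cons a v) 1) ∈
        cons b (cons a v) (j + 4)) :=
    Dfn.all (P := fun v => (v 0 ∈ v 1 ↔
      ∃ b ∈ v 2, ZFSet.pair (cons b v 0) (cons b v 1) ∈ cons b v (j + 4)))
      ((Dfn.mem 0 1).iff (nice_LL.dfn_bex (nice_LL.dfn_pair_mem 0 1 (j + 4)) 2))
  refine (Dfn.all (Dfn.all ((nice_LL.dfn_pair_mem 1 0 (j + 2)).imp
    ((Dfn.mem 1 (i + 2)).and (h1.and h2))))).congr ?_
  intro v hv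
  constructor
  · intro h x hx y hy hxy
    obtain ⟨h3, h4, h5⟩ := h x y hxy
    refine ⟨h3, fun a ha haS => ?_, fun z hz => h5 z⟩
    obtain ⟨b, hb⟩ := h4 a ha haS
    exact ⟨b, (nice_LL.of_kpair (nice_LL.trans _ _ (hv j) hb)).2, hb⟩
  · intro h x y hxy
    obtain ⟨hx, hy⟩ := nice_LL.of_kpair (nice_LL.trans _ _ (hv j) hxy)
    obtain ⟨h3, h4, h5⟩ := h x hx y hy hxy
    refine ⟨h3, fun a ha haS => ?_, fun z => ?_⟩
    · obtain ⟨b, _, hb⟩ := h4 a ha haS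
      exact ⟨b, hb⟩
    · constructor
      · intro hz
        exact (h5 z (nice_LL.trans _ _ hy hz)).1 hz
      · rintro ⟨a, ha, haz⟩
        exact (h5 z (nice_LL.of_kpair (nice_LL.trans _ _ (hv j) haz)).2).2 ⟨a, ha, haz⟩

theorem Apx.eq {S f x y : ZFSet.{0}} (h : Apx S f) (hxy : ZFSet.pair x y ∈ f) :
    y = coll (cl S) x := by
  induction x using ZFSet.inductionOn generalizing y with
  | _ x ih =>
    obtain ⟨_, h2, h3⟩ := h x y hxy
    ext z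
    rw [h3, mem_coll]
    constructor
    · rintro ⟨x', hx', hz⟩
      exact ⟨x', hx', (h x' z hz).1, ih x' hx' hz⟩
    · rintro ⟨x', hx', hS, rfl⟩
      obtain ⟨y', hy'⟩ := h2 x' hx' hS
      exact ⟨x', hx', by rw [← ih x' hx' hy']; exact hy'⟩

/-- the union of a class of approximations -/
theorem Apx.union {S F : ZFSet.{0}} {P : ZFSet.{0} → Prop} (h : ∀ f, P f → Apx S f)
    (hF : ∀ t, t ∈ F ↔ ∃ f, P f ∧ t ∈ f) : Apx S F := by
  intro x y hxy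
  obtain ⟨f, hf, hxyf⟩ := (hF _).1 hxy
  obtain ⟨h1, h2, h3⟩ := h f hf x y hxyf
  refine ⟨h1, fun x' hx' hS => ?_, fun z => ?_⟩
  · obtain ⟨y', hy'⟩ := h2 x' hx' hS
    exact ⟨y', (hF _).2 ⟨f, hf, hy'⟩⟩
  · constructor
    · intro hz
      obtain ⟨x', hx', hz'⟩ := (h3 z).1 hz
      exact ⟨x', hx', (hF _).2 ⟨f, hf, hz'⟩⟩
    · rintro ⟨x', hx', hz⟩
      obtain ⟨f2, hf2, hz2⟩ := (hF _).1 hz
      have hS := (h f2 hf2 x' z hz2).1
      obtain ⟨y', hy'⟩ := h2 x' hx' hS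
      have e1 := (h f2 hf2).eq hz2
      have e2 := (h f hf).eq hy'
      rw [e2, ← e1] at hy'
      exact (h3 z).2 ⟨x', hx', hy'⟩

end Pool.Agent.H43L
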