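import Pool.Agent.Lib.H43L.G6a

/-!
# Chunk G6b: the collapse of a constructible set is constructible

`∈`-induction on `x ∈ LL` (`ZFSet.inductionOn`).  Let `x ∈ S`.  For every `x' ∈ x` with `x' ∈ S` there is an approximation `f' ∈ LL` with
`pair x' y' ∈ f'`; choose one for each `x'`; by `LL_bound_set` (for the set `x`; or `LL_bound`) they are in a level `Lev β`.  Let `F` be
the set of all `t` which are in some `f ∈ Lev β` with `Apx S f` (`LL_sep` with `a = Lev β`: `t ∈ f ∈ Lev β` implies `t ∈ Lev β`; `dfn_apx`): `Apx S F`, `F ∈ LL`.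
By `Apx.eq`, `pair x' y' ∈ F ↔ y' = coll (cl S) x'` for `x' ∈ x`, `x' ∈ S`.  The set `y` of all `z` with `pair x' z ∈ F` for some `x' ∈ x` is in `LL`
(`LL_sep` in `Lev β`: `z ∈ {x', z} ∈ pair x' z ∈ Lev β`), and `F' = insert (pair x y) F ∈ LL` is an approximation.
-/

set_option autoImplicit false

open Set Function Cardinal

namespace Pool.Agent.H43L

open Pool.Agent.H94L

theorem g6b_LLLev (β : Ordinal.{0}) : LL (Lev β) :=
  ⟨β + 1, Lev_mem_of_lt (Order.lt_add_one_iff.mpr le_rfl)⟩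

/-- the union of all approximations in a level -/
theorem g6b_union {S : ZFSet.{0}} (hS : LL S) (β : Ordinal.{0}) :
    ∃ F, LL F ∧ ∀ t, t ∈ F ↔ ∃ f, (f ∈ Lev β ∧ Apx S f) ∧ t ∈ f := by
  obtain ⟨F, hF, h⟩ := LL_sep (P := fun v => ∃ f ∈ v 1, (cons f v 1 ∈ cons f v 0 ∧
      Apx (cons f v 3) (cons f v 0)))
    (nice_LL.dfn_bex ((Dfn.mem 1 0).and (dfn_apx 3 0)) 1)
    (v := cons (Lev β) (fun _ => S)) (cons_mem (g6b_LLLev β) fun _ => hS) (g6b_LLLev β)
  refine ⟨F, hF, fun t => ?_⟩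
  rw [h]
  constructor
  · rintro ⟨_, f, h1, h2, h3⟩
    exact ⟨f, ⟨h1, h3⟩, h2⟩
  · rintro ⟨f, ⟨h1, h3⟩, h2⟩
    exact ⟨Lev_trans h1 h2, f, h1, h2, h3⟩

theorem g6b_snd {β : Ordinal.{0}} {x z : ZFSet.{0}} (h : ZFSet.pair x z ∈ Lev β) : z ∈ Lev β := by
  have h1 : ({x, z} : ZFSet.{0}) ∈ Lev β := by
    refine Lev_trans h ?_
    unfold ZFSet.pair
    rw [ZFSet.mem_pair]
    exact Or.inr rfl
  exact Lev_trans h1 (ZFSet.mem_pair.2 (Or.inr rfl))

/-- a common level for approximations to all elements of a set -/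
theorem g6b_bound {S u : ZFSet.{0}} (h : ∀ x ∈ u, x ∈ S → ∃ f, LL f ∧ Apx S f ∧
      ∃ y, ZFSet.pair x y ∈ f) :
    ∃ β, ∀ x ∈ u, x ∈ S → ∃ f ∈ Lev β, Apx S f ∧ ∃ y, ZFSet.pair x y ∈ f := by
  classical
  let T := {x : ZFSet.{0} // x ∈ u}
  have hT : Small.{0} T := ZFSet.small_coe u
  have h' : ∀ x : T, ∃ f, LL f ∧ (x.1 ∈ S → Apx S f ∧ ∃ y, ZFSet.pair x.1 y ∈ f) := by
    intro x
    by_cases hx : x.1 ∈ S
    · obtain ⟨f, h1, h2, h3⟩ := h x.1 x.2 hx
      exact ⟨f, h1, fun _ => ⟨h2, h3⟩⟩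
    · exact ⟨∅, nice_LL.empty, fun h' => absurd h' hx⟩
  choose f h1 h2 using h'
  obtain ⟨β, hβ⟩ := LL_bound (ι := Shrink.{0} T) (fun t => f ((equivShrink T).symm t))
    (fun t => h1 _)
  refine ⟨β, fun x hx hxS => ?_⟩
  have h3 := hβ (equivShrink T ⟨x, hx⟩)
  rw [Equiv.symm_apply_apply] at h3
  exact ⟨_, h3, h2 ⟨x, hx⟩ hxS⟩

theorem exists_apx {S : ZFSet.{0}} (hS : LL S) (x : ZFSet.{0}) (hx : LL x) (hxS : x ∈ S) :
    ∃ f, LL f ∧ Apx S f ∧ ∃ y, ZFSet.pair x y ∈ f := by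
  induction x using ZFSet.inductionOn with
  | _ x ih =>
    obtain ⟨β, hβ⟩ := g6b_bound (S := S) (u := x) fun x' hx' hS' =>
      ih x' hx' (nice_LL.trans _ _ hx hx') hS'
    obtain ⟨F, hF, hFt⟩ := g6b_union hS β
    have hAF : Apx S F := Apx.union (fun f hf => hf.2) hFt
    have hex : ∀ x' ∈ x, x' ∈ S → ∃ y', ZFSet.pair x' y' ∈ F := by
      intro x' hx' hS'
      obtain ⟨f, h1, h2, y', h3⟩ := hβ x' hx' hS'
      exact ⟨y', (hFt _).2 ⟨f, ⟨h1, h2⟩, h3⟩⟩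
    obtain ⟨y, hy, hyz⟩ := LL_sep (P := fun v => ∃ a ∈ v 1, ZFSet.pair (cons a v 0) (cons a v 1) ∈
        cons a v 3) (nice_LL.dfn_bex (nice_LL.dfn_pair_mem 0 1 3) 1)
      (v := cons x (fun _ => F)) (cons_mem hx fun _ => hF) (g6b_LLLev β)
    have hyz' : ∀ z, z ∈ y ↔ ∃ x' ∈ x, ZFSet.pair x' z ∈ F := by
      intro z
      rw [hyz]
      constructor
      · rintro ⟨_, a, ha, haz⟩
        exact ⟨a, ha, haz⟩
      · rintro ⟨a, ha, haz⟩
        obtain ⟨f, ⟨h1, _⟩, h2⟩ := (hFt _).1 haz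
        exact ⟨g6b_snd (Lev_trans h1 h2), a, ha, haz⟩
    have hyc : y = coll (cl S) x := by
      ext z
      rw [hyz', mem_coll]
      constructor
      · rintro ⟨x', hx', hz⟩
        exact ⟨x', hx', (hAF x' z hz).1, hAF.eq hz⟩
      · rintro ⟨x', hx', hS', rfl⟩
        obtain ⟨y', hy'⟩ := hex x' hx' hS'
        exact ⟨x', hx', by rw [← hAF.eq hy']; exact hy'⟩
    have hp : LL (ZFSet.pair x y) := nice_LL.kpair hx hy
    obtain ⟨β1, hβ1⟩ := hp
    obtain ⟨β2, hβ2⟩ := hF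
    obtain ⟨F', hF', hF't⟩ := LL_sep' (P := fun v => v 0 = v 1 ∨ v 0 ∈ v 2)
      ((Dfn.eq 0 1).or (Dfn.mem 0 2)) (v := cons (ZFSet.pair x y) (fun _ => F))
      (cons_mem ⟨β1, hβ1⟩ fun _ => ⟨β2, hβ2⟩) (max β1 β2) (by
        rintro z _ (hz | hz)
        · have hz' : z = ZFSet.pair x y := hz
          rw [hz']
          exact Lev_mono (le_max_left _ _) hβ1
        · have hz' : z ∈ F := hz
          exact Lev_mono (le_max_right _ _) (Lev_trans hβ2 hz'))
    have hF't' : ∀ t, t ∈ F' ↔ t = ZFSet.pair x y ∨ t ∈ F := by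
      intro t
      rw [hF't]
      constructor
      · rintro ⟨_, h⟩
        exact h
      · intro h
        refine ⟨?_, h⟩
        rcases h with h | h
        · rw [h]
          exact ⟨β1, hβ1⟩
        · exact ⟨β2, Lev_trans hβ2 h⟩
    refine ⟨F', hF', ?_, y, (hF't' _).2 (Or.inl rfl)⟩
    intro a b hab
    rcases (hF't' _).1 hab with hab | hab
    · obtain ⟨rfl, rfl⟩ := ZFSet.pair_injective hab
      refine ⟨hxS, fun x' hx' hS' => ?_, fun z => ?_⟩
      · obtain ⟨y', hy'⟩ := hex x' hx' hS'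
        exact ⟨y', (hF't' _).2 (Or.inr hy')⟩
      · rw [hyz']
        constructor
        · rintro ⟨x', hx', hz⟩
          exact ⟨x', hx', (hF't' _).2 (Or.inr hz)⟩
        · rintro ⟨x', hx', hz⟩
          rcases (hF't' _).1 hz with hz | hz
          · obtain ⟨rfl, _⟩ := ZFSet.pair_injective hz
            exact absurd hx' (ZFSet.mem_irrefl _)
          · exact ⟨x', hx', hz⟩
    · obtain ⟨h1, h2, h3⟩ := hAF a b hab
      refine ⟨h1, fun x' hx' hS' => ?_, fun z => ?_⟩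
      · obtain ⟨y', hy'⟩ := h2 x' hx' hS'
        exact ⟨y', (hF't' _).2 (Or.inr hy')⟩
      · rw [h3]
        constructor
        · rintro ⟨x', hx', hz⟩
          exact ⟨x', hx', (hF't' _).2 (Or.inr hz)⟩
        · rintro ⟨x', hx', hz⟩
          rcases (hF't' _).1 hz with hz | hz
          · obtain ⟨rfl, rfl⟩ := ZFSet.pair_injective hz
            obtain ⟨y', hy'⟩ := h2 _ hx' hxS
            have e1 := hAF.eq hy'
            rw [e1, ← hyc] at hy'
            exact ⟨_, hx', hy'⟩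
          · exact ⟨x', hx', hz⟩

/-- the collapse of a constructible set as a set (same construction: the union of all approximations
in a level which contains an approximation for every `x ∈ S`; `Apx.eq`) -/
theorem exists_coll {S : ZFSet.{0}} (hS : LL S) : ∃ f : ML, ∀ x y : ZFSet.{0},
    ZFSet.pair x y ∈ f.1 ↔ x ∈ S ∧ y = coll (cl S) x := by
  obtain ⟨β, hβ⟩ := g6b_bound (S := S) (u := S) fun x hx _ =>
    exists_apx hS x (nice_LL.trans _ _ hS hx) hx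
  obtain ⟨F, hF, hFt⟩ := g6b_union hS β
  have hAF : Apx S F := Apx.union (fun f hf => hf.2) hFt
  refine ⟨⟨F, hF⟩, fun x y => ?_⟩
  constructor
  · intro h
    exact ⟨(hAF x y h).1, hAF.eq h⟩
  · rintro ⟨hx, rfl⟩
    obtain ⟨f, h1, h2, y', h3⟩ := hβ x hx hx
    rw [h2.eq h3] at h3
    exact (hFt _).2 ⟨f, ⟨h1, h2⟩, h3⟩

end Pool.Agent.H43L
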