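import Pool.Agent.Lib.H43L.A5
import Pool.Agent.Lib.H43L.G1e
import Pool.Agent.Lib.H43L.G3b

/-!
# Chunk G7a: the algebra on the ordinals given by the constructible universe

* `closed`: `rkW_lt_ord_iff`, `unW_rkW`, `GG_mem_Lev` (`limLim_ord`), `(nice_Lev _).kpair`, `GG_spec` for `LL`.
* `iso`: for a set `S` of ordinals below `μ.ord`, closed: the class `N x = LL x ∧ rkW x ∈ S` satisfies `Cl N` (`unW_rkW`) and `N x → x ∈ Lev μ.ord`.  Put
`f ξ = rkW (coll N (unW ξ))`; `Cl.coll_ll`, `Cl.ww`, `rkW_lt`; `init`: `Cl.condense` (if `S` is empty everything is trivial): if `o < f ξ` then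
`WW (unW o) (coll N (unW ξ))` and `coll N (unW ξ) ∈ Lev ζ`, so `unW o ∈ Lev ζ` by `WW_end` (`0 < ζ`: otherwise all elements of `N` have collapse `∅`, so by `Cl.coll_inj` `N` has only one element; but `N` contains `x` and
`pair x x`); so `unW o = coll N y` for some `y`.
`Cl.coll_GG`, `Cl.coll_pair`.
-/

set_option autoImplicit false

open Set Function Cardinal

namespace Pool.Agent.H43L

open Pool.Agent.H94L

/-- the algebra on the ordinals given by the constructible universe -/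
noncomputable def AL : Alg.{0} where
  g n ξ := rkW (GG n (unW ξ))
  p ξ η := rkW (ZFSet.pair (unW ξ) (unW η))

theorem g7a_cl {S : Set Ordinal.{0}} (hS : AL.Closed S) :
    Cl fun x => LL x ∧ rkW x ∈ S where
  ll _ h := h.1
  gg k x h := by
    refine ⟨(GG_spec k h.1).1, ?_⟩
    have h1 := hS.g k (rkW x) h.2
    have h2 : AL.g k (rkW x) = rkW (GG k (unW (rkW x))) := rfl
    rw [h2, unW_rkW h.1] at h1
    exact h1
  pair x y hx hy := by
    refine ⟨nice_LL.kpair hx.1 hy.1, ?_⟩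
    have h1 := hS.p (rkW x) hx.2 (rkW y) hy.2
    have h2 : AL.p (rkW x) (rkW y) = rkW (ZFSet.pair (unW (rkW x)) (unW (rkW y))) := rfl
    rw [h2, unW_rkW hx.1, unW_rkW hy.1] at h1
    exact h1

theorem g7a_ne (x : ZFSet.{0}) : x ≠ ZFSet.pair x x := by
  intro h
  have h1 : ({x} : ZFSet.{0}) ∈ ZFSet.pair x x := by
    unfold ZFSet.pair
    rw [ZFSet.mem_pair]
    exact Or.inl rfl
  rw [← h] at h1
  exact ZFSet.mem_asymm (ZFSet.mem_singleton.2 rfl : x ∈ ({x} : ZFSet.{0})) h1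

theorem AL_cond {μ : Cardinal.{0}} (hμ : ℵ₀ < μ) : AL.Cond μ.ord := by
  have hlim := limLim_ord hμ
  have hun : ∀ o < μ.ord, unW o ∈ Lev μ.ord := by
    intro o ho
    rw [← rkW_lt_ord_iff hμ (LL_unW o), rkW_unW]
    exact ho
  constructor
  · constructor
    · intro n x hx
      show rkW (GG n (unW x)) < μ.ord
      rw [rkW_lt_ord_iff hμ (GG_spec n (LL_unW x)).1]
      exact GG_mem_Lev hlim n (hun x hx)
    · intro x hx y hy
      show rkW (ZFSet.pair (unW x) (unW y)) < μ.ord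
      rw [rkW_lt_ord_iff hμ (nice_LL.kpair (LL_unW x) (LL_unW y))]
      exact (nice_Lev hlim.lim).kpair (hun x hx) (hun y hy)
  · intro S hSμ _ hS
    rcases S.eq_empty_or_nonempty with rfl | ⟨o0, ho0⟩
    · exact ⟨id, ⟨fun x hx => hx.elim, fun x hx => hx.elim, fun _ x hx => hx.elim,
        fun x hx => hx.elim⟩⟩
    · set N : ZFSet.{0} → Prop := fun x => LL x ∧ rkW x ∈ S with hN
      have hcl : Cl N := g7a_cl hS
      have hNu : ∀ ξ ∈ S, N (unW ξ) := fun ξ hξ => ⟨LL_unW ξ, by rw [rkW_unW]; exact hξ⟩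
      have hNlev : ∀ x, N x → x ∈ Lev μ.ord := fun x hx =>
        (rkW_lt_ord_iff hμ hx.1).1 (hSμ hx.2)
      obtain ⟨ζ, -, hζ⟩ := hcl.condense ⟨_, hNu o0 ho0⟩ hNlev
      refine ⟨fun ξ => rkW (coll N (unW ξ)), ⟨?_, ?_, ?_, ?_⟩⟩
      · intro x hx y hy hxy
        show rkW (coll N (unW x)) < rkW (coll N (unW y))
        rw [rkW_lt (hcl.coll_ll (hNu x hx)) (hcl.coll_ll (hNu y hy)), hcl.ww (hNu x hx) (hNu y hy),
          ← rkW_lt (LL_unW x) (LL_unW y), rkW_unW, rkW_unW]
        exact hxy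
      · intro x hx z hz
        have hz' : z < rkW (coll N (unW x)) := hz
        have hW : WW (unW z) (coll N (unW x)) := by
          rw [← rkW_lt (LL_unW z) (hcl.coll_ll (hNu x hx)), rkW_unW]
          exact hz'
        have h1 : coll N (unW x) ∈ Lev ζ := (hζ _).2 ⟨unW x, hNu x hx, rfl⟩
        have hζ0 : 0 < ζ := by
          rw [pos_iff_ne_zero]
          rintro rfl
          have h2 : coll N (unW x) = ∅ := (mem_Lev_zero _).1 h1
          have h3 : N (ZFSet.pair (unW x) (unW x)) := hcl.pair _ _ (hNu x hx) (hNu x hx)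
          have h4 : coll N (ZFSet.pair (unW x) (unW x)) = ∅ :=
            (mem_Lev_zero _).1 ((hζ _).2 ⟨_, h3, rfl⟩)
          exact g7a_ne _ (hcl.coll_inj (hNu x hx) h3 (h2.trans h4.symm))
        obtain ⟨y, hy, hwy⟩ := (hζ _).1 (WW_end hζ0 h1 hW)
        refine ⟨rkW y, hy.2, ?_⟩
        show rkW (coll N (unW (rkW y))) = z
        rw [unW_rkW hy.1, ← hwy, rkW_unW]
      · intro n x hx
        show rkW (coll N (unW (rkW (GG n (unW x))))) = rkW (GG n (unW (rkW (coll N (unW x)))))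
        rw [unW_rkW (GG_spec n (LL_unW x)).1, unW_rkW (hcl.coll_ll (hNu x hx)),
          hcl.coll_GG n (hNu x hx)]
      · intro x hx y hy
        show rkW (coll N (unW (rkW (ZFSet.pair (unW x) (unW y))))) =
          rkW (ZFSet.pair (unW (rkW (coll N (unW x)))) (unW (rkW (coll N (unW y)))))
        rw [unW_rkW (nice_LL.kpair (LL_unW x) (LL_unW y)), unW_rkW (hcl.coll_ll (hNu x hx)),
          unW_rkW (hcl.coll_ll (hNu y hy)), hcl.coll_pair (hNu x hx) (hNu y hy)]


end Pool.Agent.H43L
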