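import Pool.Agent.Lib.H43L.G0d
import Pool.Agent.Lib.H43L.G0e

/-!
# Chunk G7b: the test formula

Let `φ` be a formula with `SatL (cl (Lev γ)) φ v ↔ v 0 = nat 1 ∧ ∃ F x ξ, v 1 = pair (pair F x) ξ ∧ pair x ξ ∈ F` for all limit `γ` and all `v` in `Lev γ` (combinators of
files U1, U2: `ud_nat`, `UD.ex`, `ud_pair`, `ud_pair_mem`; `F, x, ξ ∈ Lev γ` by `Nice.of_kpair`), `φ = enumF k` (`enumF_surj`).  If `pair x ξ ∈ F` then `nat 1` is the only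
witness (`wit_Lev`, `GG_succ`; `WW_irrefl`); if not, there is none (`GG_succ_of_not`; `ZFSet.pair_injective`).
-/

set_option autoImplicit false

open Set Function Cardinal

namespace Pool.Agent.H43L

open Pool.Agent.H94L

theorem exists_test : ∃ k : ℕ, ∀ γ, Lim γ → ∀ F x ξ, F ∈ Lev γ → x ∈ Lev γ → ξ ∈ Lev γ →
    (ZFSet.pair x ξ ∈ F →
      GG (k + 1) (ZFSet.pair (Lev γ) (ZFSet.pair (ZFSet.pair F x) ξ)) = nat 1) ∧
    (ZFSet.pair x ξ ∉ F →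
      GG (k + 1) (ZFSet.pair (Lev γ) (ZFSet.pair (ZFSet.pair F x) ξ)) = ∅) := by
  have h1 : UD Nice fun A v => v 0 = nat 1 ∧ ∃ F, A F ∧ ∃ x, A x ∧ ∃ ξ, A ξ ∧ ∃ q, A q ∧
      (q = ZFSet.pair F x ∧ v 1 = ZFSet.pair q ξ ∧ ZFSet.pair x ξ ∈ F) :=
    (ud_nat 0 1).and (UD.ex (UD.ex (UD.ex (UD.ex
      ((ud_pair 0 3 2).and ((ud_pair 5 0 1).and (ud_pair_mem 2 1 3)))))))
  obtain ⟨φ, hφ⟩ := h1
  obtain ⟨k, hk⟩ := enumF_surj φ
  refine ⟨k, fun γ hγ F x ξ hF hx hξ => ?_⟩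
  have hn := nice_Lev hγ
  have hq : ZFSet.pair F x ∈ Lev γ := hn.kpair hF hx
  have hp : ZFSet.pair (ZFSet.pair F x) ξ ∈ Lev γ := hn.kpair hq hξ
  have hsat : ∀ z ∈ Lev γ, (SatL (cl (Lev γ)) (enumF k)
      (asg z (ZFSet.pair (ZFSet.pair F x) ξ) ∅) ↔ z = nat 1 ∧ ZFSet.pair x ξ ∈ F) := by
    intro z hz
    rw [hk, ← hφ _ hn _ (asg_mem (A := cl (Lev γ)) hz hp hn.empty)]
    constructor
    · rintro ⟨h2, F', -, x', -, ξ', -, q, -, rfl, h3, h4⟩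
      have h3' : ZFSet.pair (ZFSet.pair F x) ξ = ZFSet.pair (ZFSet.pair F' x') ξ' := h3
      obtain ⟨h5, rfl⟩ := ZFSet.pair_inj.1 h3'
      obtain ⟨rfl, rfl⟩ := ZFSet.pair_inj.1 h5
      exact ⟨h2, h4⟩
    · rintro ⟨h2, h3⟩
      exact ⟨h2, F, hF, x, hx, ξ, hξ, _, hq, rfl, rfl, h3⟩
  constructor
  · intro hm
    apply GG_succ
    rw [wit_Lev hp]
    refine ⟨hn.natMem 1, (hsat _ (hn.natMem 1)).2 ⟨rfl, hm⟩, fun y hy hW hs => ?_⟩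
    have h2 := ((hsat y hy).1 hs).1
    rw [h2] at hW
    exact WW_irrefl _ hW
  · intro hm
    apply GG_succ_of_not
    intro u p' z he hW
    obtain ⟨rfl, rfl⟩ := ZFSet.pair_inj.1 he
    rw [wit_Lev hp] at hW
    exact hm ((hsat z hW.1).1 hW.2.1).2


end Pool.Agent.H43L
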