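import Pool.Agent.Lib.H43L.G4b
import Pool.Agent.Lib.H43L.G3a

/-!
# Chunk G7c: constructible subsets of `Lev κ.ord` appear before `κ⁺`

`exists_small` for `β = κ.ord` (a limit) gives `γ`; `γ.card ≤ (Lev γ).card ≤ (Lev κ.ord).card ≤ κ` (`card_le_card_Lev`, `InjLL.card_le`,
`card_Lev_le`), so `γ < (succ κ).ord`.
-/

set_option autoImplicit false

open Set Function Cardinal

namespace Pool.Agent.H43L

open Pool.Agent.H94L

theorem exists_lt_succ {κ : Cardinal.{0}} (hκ : ℵ₀ ≤ κ) {a : ZFSet.{0}} (ha : LL a)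
    (hsub : ∀ z ∈ a, z ∈ Lev κ.ord) :
    ∃ γ, Lim γ ∧ κ.ord < γ ∧ γ < (Order.succ κ).ord ∧ a ∈ Lev γ := by
  have hs := Cardinal.isSuccLimit_ord hκ
  have hlim : Lim κ.ord := by
    refine ⟨hs.bot_lt, fun γ hγ => ?_⟩
    have h1 := hs.succ_lt hγ
    rwa [← Order.succ_eq_add_one]
  obtain ⟨γ, h1, h2, h3, h4⟩ := exists_small hlim ha hsub
  refine ⟨γ, h1, h2, ?_, h3⟩
  rw [Cardinal.lt_ord, Order.lt_succ_iff]
  have h5 := (card_le_card_Lev γ).trans (h4.card_le.trans (card_Lev_le κ.ord))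
  rw [Cardinal.card_ord, max_eq_right hκ] at h5
  exact h5

end Pool.Agent.H43L
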