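import Pool.Agent.Lib.H43L.W4

/-!
# Chunk W5: cluster points in the power set of an index type of cardinality at most `κ`

Let `e : I ↪ Idx κ`; apply `cluster_of_isWeaklyCompact` to `fun i => e '' F i`, and let `T = e ⁻¹' b`.  For `#B < κ` the
set `insert α (e '' B)` has an upper bound `α'` (`exists_ub`, `h.isRegular`).
-/

set_option autoImplicit false

universe u

namespace Pool.Agent.H43L

open Set Cardinal
open Pool.Agent.Helper43.KK (Idx num idx num_idx num_lt num_lt_num num_le_num num_inj exists_num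
  IsWeaklyCompact IsKappaCompact boundedTopology exists_box exists_ub mk_Iio_lt)

theorem cluster_general {κ : Cardinal.{u}} (h : IsWeaklyCompact κ) {I : Type u} (hI : #I ≤ κ)
    (F : Idx κ → Set I) : ∃ T : Set I, ∀ B : Set I, #B < κ → ∀ α : Idx κ, ∃ i, α < i ∧
      ∀ x ∈ B, (x ∈ T ↔ x ∈ F i) := by
  have h0 : ℵ₀ ≤ κ := h.1.le
  have hI' : #I ≤ #(Idx κ) := by rwa [mk_ord_toType]
  obtain ⟨e⟩ := (Cardinal.le_def _ _).1 hI'
  obtain ⟨b, hb⟩ := cluster_of_isWeaklyCompact h fun i => e '' F i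
  refine ⟨e ⁻¹' b, fun B hB α => ?_⟩
  have hA : #(insert α (e '' B) : Set (Idx κ)) < κ := by
    refine (mk_insert_le).trans_lt ?_
    exact add_lt_of_lt h0 (mk_image_le.trans_lt hB) (one_lt_aleph0.trans_le h0)
  obtain ⟨α', hα'⟩ := exists_ub h.isRegular hA
  obtain ⟨i, hi, h2⟩ := hb α'
  refine ⟨i, (hα' α (mem_insert _ _)).trans hi, fun x hx => ?_⟩
  rw [mem_preimage, h2 (e x) (hα' _ (mem_insert_of_mem _ ⟨x, hx, rfl⟩))]
  constructor
  · rintro ⟨y, hy, hxy⟩
    rw [← e.injective hxy]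
    exact hy
  · intro hy
    exact ⟨x, hy, rfl⟩

end Pool.Agent.H43L
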