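import Pool.Agent.Lib.H43L.A4
import Pool.Agent.Lib.H43L.W5

/-!
# Chunk G7e: cluster points of assignments

Let `λ = (succ κ).ord`.
(a) `#(Fact (Vr κ m)) ≤ κ` (`mk_fact_Vr_le`).  `cluster_general` applied to `i ↦ {f | Holds 𝒜 (E i) f}` gives `T : Set (Fact _)` such
that for `#B < κ` and `α` there is `i > α` with `f ∈ T ↔ Holds 𝒜 (E i) f` for `f ∈ B`.
(b) For countable `W` the facts over `W` are countable (`mk_fact_countable`), so some `E i` realizes them: `Good 𝒜 λ T W (E i)` (`ℵ₀ < κ`, `h.1`).  By `realization`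
there is `e` with values `< λ`, `f ∈ T ↔ Holds 𝒜 e f` for all `f`, and the values of the terms form an initial segment.
(c) `e (inl ξ) = num ξ` for all `ξ`, by induction: `e ∘ inl` is strictly monotone since all `E i` are (take `B = {f}`).  Suppose `o < e (inl ξ)`; then
`o = ev 𝒜 e t` for some term `t`, and `(t, inl ξ) ∈ T`.  Let `B` consist of `(t, inl ξ)` and all `(t, inl η)`, `(inl η, t)` with `η < ξ` (`#B < κ`: `mk_Iio_lt`,
`Cardinal.mk_union_le`, `Cardinal.add_lt_of_lt`, `Cardinal.mk_image_le`).  For `i` as in (a), `ev 𝒜 (E i) t < num ξ`, so it is `num η` with `η < ξ` (`exists_num`), so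
neither `(t, inl η)` nor `(inl η, t)` is in `T`, and `o = ev 𝒜 e t = e (inl η) = num η`.  So the ordinals below `e (inl ξ)` are exactly the `num η`, `η < ξ`, that is the
ordinals below `num ξ`.
-/

set_option autoImplicit false

universe u

namespace Pool.Agent.H43L

open Set Ordinal Cardinal
open Pool.Agent.Helper43.KK (IsWeaklyCompact Idx Vr num num_lt num_lt_num num_inj exists_num mk_Iio_lt)

theorem exists_cluster_assignment {κ : Cardinal.{u}} {𝒜 : Alg.{u}} (h : IsWeaklyCompact κ)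
    (hA : 𝒜.Cond (Order.succ κ).ord) {m : ℕ} (E : Idx κ → Vr κ m → Ordinal.{u})
    (h1 : ∀ i ξ, E i (.inl ξ) = num ξ) (h2 : ∀ i v, E i v < (Order.succ κ).ord) :
    ∃ e : Vr κ m → Ordinal.{u}, (∀ ξ, e (.inl ξ) = num ξ) ∧
      ∀ B : Set (Fact (Vr κ m)), #B < κ → ∀ α : Idx κ, ∃ i, α < i ∧
        ∀ f ∈ B, (Holds 𝒜 e f ↔ Holds 𝒜 (E i) f) := by
  have hunc := h.1
  have hκ : ℵ₀ ≤ κ := hunc.le
  obtain ⟨T, hT⟩ := cluster_general h (mk_fact_Vr_le (m := m) hκ) fun i => {f | Holds 𝒜 (E i) f}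
  have hne : Nonempty (Idx κ) := by
    obtain ⟨ξ, -⟩ := exists_num (κ := κ) (x := 0) (by
      rw [Cardinal.lt_ord, Ordinal.card_zero]
      exact Cardinal.aleph0_pos.trans hunc)
    exact ⟨ξ⟩
  obtain ⟨α₀⟩ := hne
  obtain ⟨e, he0, he1, he2⟩ := realization hκ hA (mk_Vr_le (m := m) hκ) T (by
    intro W hW
    obtain ⟨i, -, hi⟩ := hT {f | f.Over W} ((mk_fact_countable hW).trans_lt hunc) α₀
    exact ⟨E i, h2 i, fun f hf => hi f hf⟩)
  have hTe : ∀ B : Set (Fact (Vr κ m)), #B < κ → ∀ α : Idx κ, ∃ i, α < i ∧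
      ∀ f ∈ B, (Holds 𝒜 e f ↔ Holds 𝒜 (E i) f) := by
    intro B hB α
    obtain ⟨i, hi1, hi2⟩ := hT B hB α
    exact ⟨i, hi1, fun f hf => (he1 f).symm.trans (hi2 f hf)⟩
  refine ⟨e, ?_, hTe⟩
  have hmono : ∀ ξ η : Idx κ, ξ < η → e (.inl ξ) < e (.inl η) := by
    intro ξ η hlt
    obtain ⟨i, -, hi⟩ := hTe {(.var (.inl ξ), .var (.inl η))} (by
      rw [Cardinal.mk_singleton]
      exact Cardinal.one_lt_aleph0.trans hunc) α₀
    refine (hi _ rfl).2 ?_
    show E i (.inl ξ) < E i (.inl η)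
    rw [h1, h1, num_lt_num]
    exact hlt
  have hdown : ∀ ξ : Idx κ, ∀ o < e (.inl ξ), ∃ η, η < ξ ∧ e (.inl η) = o := by
    intro ξ o ho
    obtain ⟨t, rfl⟩ := he2 (.var (.inl ξ)) o ho
    let B : Set (Fact (Vr κ m)) := {(t, .var (.inl ξ))} ∪
      ((fun η : Idx κ => ((t, .var (.inl η)) : Fact (Vr κ m))) '' Iio ξ ∪
        (fun η : Idx κ => ((.var (.inl η), t) : Fact (Vr κ m))) '' Iio ξ)
    have hB : #B < κ := by
      refine (Cardinal.mk_union_le _ _).trans_lt (Cardinal.add_lt_of_lt hκ ?_ ?_)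
      · rw [Cardinal.mk_singleton]
        exact Cardinal.one_lt_aleph0.trans hunc
      · refine (Cardinal.mk_union_le _ _).trans_lt (Cardinal.add_lt_of_lt hκ ?_ ?_)
        · exact Cardinal.mk_image_le.trans_lt (mk_Iio_lt ξ)
        · exact Cardinal.mk_image_le.trans_lt (mk_Iio_lt ξ)
    obtain ⟨i, -, hi⟩ := hTe B hB α₀
    have h3 : ev 𝒜 (E i) t < num ξ := by
      have h4 := (hi (t, .var (.inl ξ)) (Or.inl rfl)).1 ho
      have h5 : ev 𝒜 (E i) t < E i (.inl ξ) := h4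
      rwa [h1] at h5
    obtain ⟨η, hη⟩ := exists_num (h3.trans (num_lt ξ))
    have hηξ : η < ξ := by
      rw [← num_lt_num, hη]
      exact h3
    refine ⟨η, hηξ, ?_⟩
    have h6 := hi (t, .var (.inl η)) (Or.inr (Or.inl ⟨η, hηξ, rfl⟩))
    have h7 := hi (.var (.inl η), t) (Or.inr (Or.inr ⟨η, hηξ, rfl⟩))
    have h8 : ¬ Holds 𝒜 (E i) (t, .var (.inl η)) := by
      show ¬ ev 𝒜 (E i) t < E i (.inl η)
      rw [h1, hη]
      exact lt_irrefl _
    have h9 : ¬ Holds 𝒜 (E i) (.var (.inl η), t) := by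
      show ¬ E i (.inl η) < ev 𝒜 (E i) t
      rw [h1, hη]
      exact lt_irrefl _
    have h10 : ¬ ev 𝒜 e t < e (.inl η) := fun hh => h8 (h6.1 hh)
    have h11 : ¬ e (.inl η) < ev 𝒜 e t := fun hh => h9 (h7.1 hh)
    exact le_antisymm (not_lt.1 h10) (not_lt.1 h11)
  intro ξ
  induction ξ using WellFoundedLT.induction with
  | ind ξ ih =>
    apply le_antisymm
    · by_contra hn
      obtain ⟨η, hη1, hη2⟩ := hdown ξ _ (not_le.1 hn)
      rw [ih η hη1, num_inj] at hη2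
      exact absurd hη2 hη1.ne
    · by_contra hn
      rw [not_le] at hn
      obtain ⟨η, hη⟩ := exists_num (hn.trans (num_lt ξ))
      have h3 : η < ξ := by
        rw [← num_lt_num, hη]
        exact hn
      have h4 := hmono η ξ h3
      rw [ih η h3, hη] at h4
      exact lt_irrefl _ h4

end Pool.Agent.H43L
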