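import Pool.Agent.Lib.H43L.G7a
import Pool.Agent.Lib.H43L.G7b
import Pool.Agent.Lib.H43L.G7c
import Pool.Agent.Lib.H43L.G7e

/-!
# Chunk G7d: weak compactness descends to the constructible universe

Let `κ` be weakly compact, `F₀ ∈ LL`, and let `F` be the set of the elements of `F₀` which are in `Lev κ.ord` (`LL_sep`; `pair i x ∈ Lev κ.ord` for `i, x ∈ Lev κ.ord`, so `F` and `F₀`
agree on the pairs of elements of `Lev κ.ord`).
(1) `exists_lt_succ`: `F ∈ Lev γ`, `Lim γ`, `κ.ord < γ < (succ κ).ord`; put `λ = (succ κ).ord`; `u = Lev γ`, `F` and all elements of `Lev κ.ord` are in `Lev λ`, so their ranks are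
`< λ` (`rkW_lt_ord_iff`).
(2) The assignments `E i : Vr κ 2 → Ordinal`, `i : Idx κ`: `inl ξ ↦ num ξ`, `inr 0 ↦ rkW u`, `inr 1 ↦ rkW F`, `inr 2 ↦ num i`.  All values are `< λ`.  For `ξ : Idx κ`, `unW (num ξ)` runs over
`Lev κ.ord` (`rkW_lt_ord_iff`).  `exists_cluster_assignment` (with `AL_cond` for `μ = succ κ`) gives `e`.
(3) Let `k` be as in `exists_test`.  Let `u', F', x'` be `unW` of `e (inr 0)`, `e (inr 1)`, `e (inr 2)`.  Let `b` be the set of all `ξ ∈ Lev κ.ord` with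
`GG (k + 1) (pair u' (pair (pair F' x') ξ)) ≠ ∅` (`LL_sep`; `ud_GG` and `UD.dfn`, `nice_LL.dfn_pair`, `Dfn.ex`): `b ∈ LL`.
(4) Let `a ∈ Lev κ.ord`, `rkW a = num α`.  For `η : Idx κ` let `t η` be the term `g (k + 1) (p (inr 0) (p (p (inr 1) (inr 2)) (inl η)))` and `z` the term `inl ζ`, `num ζ = rkW ∅`.  Let `B`
consist of all `(t η, z)`, `(z, t η)`, `η < α` (`#B < κ`: `mk_Iio_lt`).  Take `i > α` with `Holds AL e f ↔ Holds AL (E i) f` for `f ∈ B`.  For `x` with `WW x a`, `x = unW (num η)`, `η < α`: `x ∈ b` iff `(t η, z)`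
or `(z, t η)` holds for `e` (the value of `t η` under `e` is the rank of `GG (k + 1) (..)`: `unW_rkW`, `LL` from `GG_spec` and `nice_LL.kpair`; `rkW_inj`), iff it holds for `E i`,
iff `GG (k + 1) (pair u (pair (pair F (unW (num i))) x)) ≠ ∅`, iff `pair (unW (num i)) x ∈ F` (`exists_test`; `nat 1 ≠ ∅`).  The element `unW (num i)` is in `Lev κ.ord`, and
`WW a (unW (num i))`.
-/

set_option autoImplicit false

open Set Function Cardinal

namespace Pool.Agent.H43L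

open Pool.Agent.H94L

open Pool.Agent.Helper43.KK (IsWeaklyCompact Idx num num_lt num_lt_num num_inj exists_num
  mk_Iio_lt Vr)

theorem g7d_dfn (k : ℕ) : Dfn LL fun v => ¬ GG (k + 1) (ZFSet.pair (v 1)
    (ZFSet.pair (ZFSet.pair (v 2) (v 3)) (v 0))) = ∅ := by
  refine (Dfn.ex ((nice_LL.dfn_pair 0 3 4).and (Dfn.ex ((nice_LL.dfn_pair 0 1 2).and
    (Dfn.ex ((nice_LL.dfn_pair 0 4 1).and (Dfn.ex (((ud_GG (k + 1) 0 1).dfn niceL_LL).and
      (nice_LL.dfn_empty 0).not)))))))).congr ?_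
  intro v hv
  constructor
  · intro h
    refine ⟨_, nice_LL.kpair (hv 2) (hv 3), rfl, _,
      nice_LL.kpair (nice_LL.kpair (hv 2) (hv 3)) (hv 0), rfl, _,
      nice_LL.kpair (hv 1) (nice_LL.kpair (nice_LL.kpair (hv 2) (hv 3)) (hv 0)), rfl, _,
      (GG_spec (k + 1) (nice_LL.kpair (hv 1)
        (nice_LL.kpair (nice_LL.kpair (hv 2) (hv 3)) (hv 0)))).1, rfl, h⟩
  · rintro ⟨s1, -, h1, s2, -, h2, s3, -, h3, t, -, h4, h5⟩
    have h1' : s1 = ZFSet.pair (v 2) (v 3) := h1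
    have h2' : s2 = ZFSet.pair s1 (v 0) := h2
    have h3' : s3 = ZFSet.pair (v 1) s2 := h3
    have h4' : t = GG (k + 1) s3 := h4
    have h5' : ¬ t = ∅ := h5
    rw [h4', h3', h2', h1'] at h5'
    exact h5'

/-- the test term -/
def g7dT {κ : Cardinal.{0}} (k : ℕ) (η : Idx κ) : Tm (Vr κ 2) :=
  .g (k + 1) (.p (.var (.inr 0)) (.p (.p (.var (.inr 1)) (.var (.inr 2))) (.var (.inl η))))

theorem g7d_ev {κ : Cardinal.{0}} (k : ℕ) (η : Idx κ) (e : Vr κ 2 → Ordinal.{0}) :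
    LL (ZFSet.pair (unW (e (.inr 0))) (ZFSet.pair
      (ZFSet.pair (unW (e (.inr 1))) (unW (e (.inr 2)))) (unW (e (.inl η))))) ∧
    ev AL e (g7dT k η) = rkW (GG (k + 1) (ZFSet.pair (unW (e (.inr 0))) (ZFSet.pair
      (ZFSet.pair (unW (e (.inr 1))) (unW (e (.inr 2)))) (unW (e (.inl η)))))) := by
  have h1 : LL (ZFSet.pair (unW (e (.inr 1))) (unW (e (.inr 2)))) :=
    nice_LL.kpair (LL_unW _) (LL_unW _)
  have h2 := nice_LL.kpair h1 (LL_unW (e (.inl η)))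
  have h3 := nice_LL.kpair (LL_unW (e (.inr 0))) h2
  refine ⟨h3, ?_⟩
  show rkW (GG (k + 1) (unW (rkW (ZFSet.pair (unW (e (.inr 0))) (unW (rkW (ZFSet.pair
    (unW (rkW (ZFSet.pair (unW (e (.inr 1))) (unW (e (.inr 2)))))) (unW (e (.inl η)))))))))) = _
  rw [unW_rkW h1, unW_rkW h2, unW_rkW h3]

theorem cluster_LL {κ : Cardinal.{0}} (h : IsWeaklyCompact κ) {F : ZFSet.{0}} (hF : LL F) :
    ∃ b, LL b ∧ ∀ a ∈ Lev κ.ord, ∃ i ∈ Lev κ.ord, WW a i ∧
      ∀ x, WW x a → (x ∈ b ↔ ZFSet.pair i x ∈ F) := by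
  have hunc : ℵ₀ < κ := h.1
  have hs : ℵ₀ < Order.succ κ := hunc.trans (Order.lt_succ κ)
  have hκl : κ.ord < (Order.succ κ).ord := Cardinal.ord_lt_ord.2 (Order.lt_succ κ)
  have hlim : Lim κ.ord := (limLim_ord hunc).lim
  have hLK : LL (Lev κ.ord) := ⟨κ.ord + 1, Lev_mem_Lev.2 (by simp)⟩
  obtain ⟨F1, hF1, hF1'⟩ := LL_sep (P := fun v => v 0 ∈ v 1) (Dfn.mem 0 1)
    (v := fun _ => Lev κ.ord) (fun _ => hLK) hF
  have hF1m : ∀ z, z ∈ F1 ↔ z ∈ F ∧ z ∈ Lev κ.ord := hF1'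
  obtain ⟨γ, hγ, hκγ, hγl, hFγ⟩ := exists_lt_succ hunc.le hF1 fun z hz => ((hF1m z).1 hz).2
  obtain ⟨k, hk⟩ := exists_test
  have hLu : LL (Lev γ) := ⟨γ + 1, Lev_mem_Lev.2 (by simp)⟩
  let E : Idx κ → Vr κ 2 → Ordinal.{0} := fun i =>
    Sum.elim num ![rkW (Lev γ), rkW F1, num i]
  obtain ⟨e, he1, he2⟩ := exists_cluster_assignment h (AL_cond hs) E (fun i ξ => rfl) (by
    rintro i (ξ | j)
    · exact (num_lt ξ).trans hκl
    · fin_cases j
      · exact (rkW_lt_ord_iff hs hLu).2 (Lev_mem_Lev.2 hγl)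
      · exact (rkW_lt_ord_iff hs hF1).2 (Lev_mono hγl.le hFγ)
      · exact (num_lt i).trans hκl)
  obtain ⟨b, hb, hb'⟩ := LL_sep (g7d_dfn k)
    (v := cons (unW (e (.inr 0))) (cons (unW (e (.inr 1))) fun _ => unW (e (.inr 2))))
    (fun i => cons_mem (LL_unW _) (cons_mem (LL_unW _) fun _ => LL_unW _) i) hLK
  have hbm : ∀ z, z ∈ b ↔ z ∈ Lev κ.ord ∧ ¬ GG (k + 1) (ZFSet.pair (unW (e (.inr 0)))
      (ZFSet.pair (ZFSet.pair (unW (e (.inr 1))) (unW (e (.inr 2)))) z)) = ∅ := hb'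
  refine ⟨b, hb, fun a ha => ?_⟩
  have hLLa : LL a := ⟨_, ha⟩
  obtain ⟨α, hα⟩ := exists_num ((rkW_lt_ord_iff hunc hLLa).2 ha)
  have hLLe : LL ∅ := nice_LL.empty
  obtain ⟨ζ, hζ⟩ := exists_num ((rkW_lt_ord_iff hunc hLLe).2 (empty_mem_Lev κ.ord))
  let B : Set (Fact (Vr κ 2)) :=
    (fun η : Idx κ => ((g7dT k η, .var (.inl ζ)) : Fact (Vr κ 2))) '' Iio α ∪
      (fun η : Idx κ => ((.var (.inl ζ), g7dT k η) : Fact (Vr κ 2))) '' Iio α
  have hB : #B < κ := by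
    refine (Cardinal.mk_union_le _ _).trans_lt (Cardinal.add_lt_of_lt hunc.le ?_ ?_)
    · exact Cardinal.mk_image_le.trans_lt (mk_Iio_lt α)
    · exact Cardinal.mk_image_le.trans_lt (mk_Iio_lt α)
  obtain ⟨i, hαi, hi⟩ := he2 B hB α
  have hi' : unW (num i) ∈ Lev κ.ord := by
    rw [← rkW_lt_ord_iff hunc (LL_unW _), rkW_unW]
    exact num_lt i
  refine ⟨unW (num i), hi', ?_, fun x hx => ?_⟩
  · rw [← rkW_lt hLLa (LL_unW _), rkW_unW, ← hα, num_lt_num]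
    exact hαi
  · have hLLx : LL x := (WW.ll hx).1
    have hxK : x ∈ Lev κ.ord := WW_end hlim.1 ha hx
    obtain ⟨η, hη⟩ := exists_num ((rkW_lt_ord_iff hunc hLLx).2 hxK)
    have hηα : η < α := by
      rw [← num_lt_num, hη, hα]
      exact (rkW_lt hLLx hLLa).2 hx
    have hxe : unW (num η) = x := by rw [hη, unW_rkW hLLx]
    -- the test for an assignment
    have htest : ∀ e' : Vr κ 2 → Ordinal.{0}, (∀ ξ, e' (.inl ξ) = num ξ) →
        ((Holds AL e' (g7dT k η, .var (.inl ζ)) ∨ Holds AL e' (.var (.inl ζ), g7dT k η)) ↔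
          ¬ GG (k + 1) (ZFSet.pair (unW (e' (.inr 0)))
            (ZFSet.pair (ZFSet.pair (unW (e' (.inr 1))) (unW (e' (.inr 2)))) x)) = ∅) := by
      intro e' he'
      obtain ⟨h3, h4⟩ := g7d_ev k η e'
      have h5 := (GG_spec (k + 1) h3).1
      have h6 : ev AL e' (.var (.inl ζ)) = rkW ∅ := (he' ζ).trans hζ
      have h7 : unW (e' (.inl η)) = x := by rw [he', hxe]
      rw [h7] at h4 h5
      unfold Holds
      show (ev AL e' (g7dT k η) < ev AL e' (.var (.inl ζ)) ∨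
        ev AL e' (.var (.inl ζ)) < ev AL e' (g7dT k η)) ↔ _
      rw [h4, h6, ← ne_iff_lt_or_gt]
      constructor
      · intro h8 h9
        exact h8 (by rw [h9])
      · intro h8 h9
        exact h8 (rkW_inj h5 hLLe h9)
    have h10 : x ∈ b ↔ ¬ GG (k + 1) (ZFSet.pair (Lev γ)
        (ZFSet.pair (ZFSet.pair F1 (unW (num i))) x)) = ∅ := by
      rw [hbm, and_iff_right hxK, ← htest e he1]
      have h11 := htest (E i) (fun ξ => rfl)
      have h12 : unW (E i (.inr 0)) = Lev γ := unW_rkW hLu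
      have h13 : unW (E i (.inr 1)) = F1 := unW_rkW hF1
      have h14 : E i (.inr 2) = num i := rfl
      rw [h12, h13, h14] at h11
      rw [← h11]
      exact or_congr (hi _ (Or.inl ⟨η, hηα, rfl⟩)) (hi _ (Or.inr ⟨η, hηα, rfl⟩))
    rw [h10]
    obtain ⟨h15, h16⟩ := hk γ hγ F1 (unW (num i)) x hFγ (Lev_mono hκγ.le hi')
      (Lev_mono hκγ.le hxK)
    have h17 : ZFSet.pair (unW (num i)) x ∈ F1 ↔ ZFSet.pair (unW (num i)) x ∈ F := by
      rw [hF1m]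
      exact and_iff_left ((nice_Lev hlim).kpair hi' hxK)
    rw [← h17]
    constructor
    · intro h18
      by_contra h19
      exact h18 (h16 h19)
    · intro h18 h19
      rw [h15 h18] at h19
      have : (1 : ℕ) = 0 := nat_inj h19
      omega

end Pool.Agent.H43L
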