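import Pool.Agent.Lib.H43L.Defs
import Pool.Agent.Lib.H43L.G4d
import Pool.Agent.Lib.H43L.G5b
import Pool.Agent.Lib.H43L.G5c

/-!
# The setup for the sentence in the constructible universe
-/

set_option autoImplicit false

open Set Function Cardinal

namespace Pool.Agent.H43L

open Pool.Agent.H94L

open Pool.Agent.H5Z (Rel IsPair IsOmega IsInd)

/-- the choice of `δ`, `ω`, the order and the functions -/
structure Setup (κ : Cardinal.{0}) (δ : Ordinal.{0}) (w U R G K : ML) : Prop where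
  unc : ℵ₀ < κ
  lt : κ.ord < δ
  lim : LimLim δ
  large : ¬ InjLL (Lev δ) (Lev κ.ord)
  small : ∀ β < δ, InjLL (Lev β) (Lev κ.ord)
  sub : ∀ β < δ, ∀ a, LL a → (∀ z ∈ a, z ∈ Lev β) → a ∈ Lev δ
  mem_w : ∀ z, z ∈ w.1 ↔ ∃ k, z = nat k
  omega : IsOmega EL w
  mem_R : ∀ x y : ZFSet.{0}, ZFSet.pair x y ∈ R.1 ↔ x ∈ Lev δ ∧ y ∈ Lev δ ∧ WW x y
  mem_G : ∀ n x y : ZFSet.{0}, ZFSet.pair (ZFSet.pair n x) y ∈ G.1 ↔
    ∃ k, n = nat k ∧ x ∈ Lev δ ∧ y = GG k x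
  hU : U.1 = Lev δ
  hK : K.1 = Lev κ.ord

theorem exists_setup {κ : Cardinal.{0}} (hκ : ℵ₀ < κ) : ∃ δ w U R G K, Setup κ δ w U R G K := by
  obtain ⟨δ, h1, h2, h3, h4, h5⟩ := exists_delta hκ.le
  obtain ⟨w, hw, hw'⟩ := exists_omega
  obtain ⟨R, hR⟩ := exists_R h2.lim
  obtain ⟨G, hG⟩ := exists_G h2
  exact ⟨δ, w, ⟨Lev δ, δ + 1, Lev_mem_Lev.2 (by simp)⟩, R, G,
    ⟨Lev κ.ord, κ.ord + 1, Lev_mem_Lev.2 (by simp)⟩, hκ, h1, h2, h3, h4, h5, hw, hw', hR, hG,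
    rfl, rfl⟩

theorem app_EL (G n x y : ML) : App EL G n x y ↔ ZFSet.pair (ZFSet.pair n.1 x.1) y.1 ∈ G.1 := by
  unfold App
  constructor
  · rintro ⟨q, hq, h⟩
    rw [isPair_EL] at hq
    rw [rel_EL, hq] at h
    exact h
  · intro h
    refine ⟨⟨ZFSet.pair n.1 x.1, nice_LL.kpair n.2 x.2⟩, (isPair_EL _ _ _).2 rfl, ?_⟩
    rw [rel_EL]
    exact h

theorem val_EL (G n u p x y : ML) : Val EL G n u p x y ↔
    ZFSet.pair (ZFSet.pair n.1 (ZFSet.pair u.1 (ZFSet.pair p.1 x.1))) y.1 ∈ G.1 := by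
  unfold Val
  constructor
  · rintro ⟨q, r, hq, hr, h⟩
    rw [isPair_EL] at hq hr
    rw [app_EL, hr, hq] at h
    exact h
  · intro h
    refine ⟨⟨ZFSet.pair p.1 x.1, nice_LL.kpair p.2 x.2⟩, ⟨ZFSet.pair u.1 (ZFSet.pair p.1 x.1),
      nice_LL.kpair u.2 (nice_LL.kpair p.2 x.2)⟩, (isPair_EL _ _ _).2 rfl,
      (isPair_EL _ _ _).2 rfl, ?_⟩
    rw [app_EL]
    exact h

end Pool.Agent.H43L
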