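import Pool.Agent.Lib.H43L.G8
import Pool.Agent.Lib.H43L.G2

/-!
# Chunk G8a: the algebra of the constructible universe

`rel_EL`, `isPair_EL`, `app_EL`, the fields of `Setup` (`rw [h.hU]`, ...), `WW_irrefl`, `WW.trans`, `WW_total`, `(WW_good δ).2` for `wf`, `(nice_Lev h.lim.lim).kpair`,
`GG_mem_Lev`.  `EL x y` is `x.1 ∈ y.1` by definition.
-/

set_option autoImplicit false

open Set Function Cardinal

namespace Pool.Agent.H43L

open Pool.Agent.H94L

theorem Setup.isAlg {κ : Cardinal.{0}} {δ : Ordinal.{0}} {w U R G K : ML}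
    (h : Setup κ δ w U R G K) : IsAlg EL w U R G where
  omega := h.omega
  irrefl x _ hR := by
    rw [rel_EL, h.mem_R] at hR
    exact WW_irrefl _ hR.2.2
  trans x y z hx hy hz h1 h2 := by
    rw [rel_EL, h.mem_R] at h1 h2 ⊢
    exact ⟨h1.1, h2.2.1, WW.trans h1.2.2 h2.2.2⟩
  total x y hx hy hne := by
    rw [rel_EL, h.mem_R, rel_EL, h.mem_R]
    have hx' : x.1 ∈ Lev δ := by rw [← h.hU]; exact hx
    have hy' : y.1 ∈ Lev δ := by rw [← h.hU]; exact hy
    rcases WW_total x.2 y.2 (fun he => hne (Subtype.ext he)) with hW | hW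
    · exact Or.inl ⟨hx', hy', hW⟩
    · exact Or.inr ⟨hy', hx', hW⟩
  wf s hs := by
    obtain ⟨x, hxs, hxU⟩ := hs
    have hx' : x.1 ∈ Lev δ := by rw [← h.hU]; exact hxU
    obtain ⟨z, hz, hzs, hmin⟩ := (WW_good δ).2 (fun z => z ∈ s.1) ⟨x.1, hx', hxs⟩
    refine ⟨⟨z, δ, hz⟩, hzs, ?_, fun y hys hyU hR => ?_⟩
    · change z ∈ U.1
      rw [h.hU]
      exact hz
    · rw [rel_EL, h.mem_R] at hR
      exact hmin y.1 hR.1 hys hR.2.2
  pair x y p hx hy hp := by
    rw [isPair_EL] at hp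
    change p.1 ∈ U.1
    have hx' : x.1 ∈ Lev δ := by rw [← h.hU]; exact hx
    have hy' : y.1 ∈ Lev δ := by rw [← h.hU]; exact hy
    rw [h.hU, hp]
    exact (nice_Lev h.lim.lim).kpair hx' hy'
  app n x hn hx := by
    have hx' : x.1 ∈ Lev δ := by rw [← h.hU]; exact hx
    obtain ⟨k, hk⟩ := (h.mem_w n.1).1 hn
    have hy := GG_mem_Lev h.lim k hx'
    refine ⟨⟨GG k x.1, δ, hy⟩, ?_, ?_⟩
    · change GG k x.1 ∈ U.1
      rw [h.hU]
      exact hy
    · rw [app_EL, h.mem_G]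
      exact ⟨k, hk, hx', rfl⟩
  unique n x y y' hn hx hy hy' := by
    rw [app_EL, h.mem_G] at hy hy'
    obtain ⟨k, hk, -, h1⟩ := hy
    obtain ⟨k', hk', -, h2⟩ := hy'
    have hkk : k = k' := nat_inj (hk.symm.trans hk')
    subst hkk
    exact Subtype.ext (h1.trans h2.symm)

end Pool.Agent.H43L
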