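import Pool.Agent.Lib.H43L.G8
import Pool.Agent.Lib.H43L.G1e
import Pool.Agent.Lib.H43L.G6b

/-!
# Chunk G8b: condensation in the constructible universe

Let `S` be a subalgebra of `U` in the sense of `EL`.  Then `Cl (cl S.1)` (`app_EL`, `mem_G`, `mem_w`, `isPair_EL`).  If `S.1` is empty take `f = ∅`.  Otherwise `f` from `exists_coll S.2`, and `ζ ≤ δ` from
`Cl.condense`.  `total`: `coll (cl S.1) x ∈ Lev ζ ⊆ Lev δ`.  `mono`: `Cl.ww`.  `init`: `y = coll _ x ∈ Lev ζ`, `WW z y`, so `z ∈ Lev ζ` (`WW_end`; `0 < ζ`: otherwise `Lev ζ = {∅}`, so all elements of `S`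
have the same collapse, by `Cl.coll_inj` `S` has one element, but `x` and `pair x x` are in `S`), so `z = coll _ x'`.  `app`: `Cl.coll_GG`.  `pair`: `Cl.coll_pair`.
-/

set_option autoImplicit false

open Set Function Cardinal

namespace Pool.Agent.H43L

open Pool.Agent.H94L

theorem g8b_mem {κ : Cardinal.{0}} {δ : Ordinal.{0}} {w U R G K : ML}
    (h : Setup κ δ w U R G K) {S : ML} (hS : IsSub EL w U G S) {x : ZFSet.{0}} (hx : x ∈ S.1) :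
    x ∈ Lev δ := by
  have h1 := hS.sub ⟨x, ZF0_mem hx⟩ hx
  change x ∈ U.1 at h1
  rwa [h.hU] at h1

theorem g8b_cl {κ : Cardinal.{0}} {δ : Ordinal.{0}} {w U R G K : ML}
    (h : Setup κ δ w U R G K) {S : ML} (hS : IsSub EL w U G S) : Cl (cl S.1) where
  ll x hx := ZF0_mem (x := S) hx
  gg k x hx := by
    have hxS : x ∈ S.1 := hx
    have hxδ := g8b_mem h hS hxS
    have hy := GG_mem_Lev h.lim k hxδ
    have hw : nat k ∈ w.1 := (h.mem_w _).2 ⟨k, rfl⟩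
    have h1 := hS.app ⟨nat k, ZF0_mem hw⟩ ⟨x, ZF0_mem hxS⟩ ⟨GG k x, δ, hy⟩ hw hxS (by
      rw [app_EL, h.mem_G]
      exact ⟨k, rfl, hxδ, rfl⟩)
    exact h1
  pair x y hx hy := by
    have hxS : x ∈ S.1 := hx
    have hyS : y ∈ S.1 := hy
    exact hS.pair ⟨x, ZF0_mem hxS⟩ ⟨y, ZF0_mem hyS⟩ ⟨ZFSet.pair x y,
      nice_LL.kpair (ZF0_mem hxS) (ZF0_mem hyS)⟩ hxS hyS ((isPair_EL _ _ _).2 rfl)

theorem Setup.cond {κ : Cardinal.{0}} {δ : Ordinal.{0}} {w U R G K : ML}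
    (h : Setup κ δ w U R G K) (S : ML) (hS : IsSub EL w U G S) : ∃ f, IsIso EL w U R G S f := by
  by_cases hne : ∃ x, x ∈ S.1
  swap
  · have hno : ∀ x : ML, ¬ EL x S := fun x hx => hne ⟨x.1, hx⟩
    exact ⟨⟨∅, nice_LL.empty⟩, {
      total := fun x hx => absurd hx (hno x)
      unique := fun x _ _ hx => absurd hx (hno x)
      mono := fun x _ _ _ hx => absurd hx (hno x)
      init := fun x _ _ hx => absurd hx (hno x)
      app := fun _ x _ _ _ _ hx => absurd hx (hno x)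
      pair := fun _ x _ _ _ _ hx => absurd hx (hno x) }⟩
  have hCl := g8b_cl h hS
  obtain ⟨f, hf⟩ := exists_coll S.2
  obtain ⟨ζ, hζδ, hζ⟩ := hCl.condense hne (fun x hx => g8b_mem h hS hx)
  have hcoll : ∀ x ∈ S.1, coll (cl S.1) x ∈ Lev ζ := fun x hx => (hζ _).2 ⟨x, hx, rfl⟩
  have hcollδ : ∀ x ∈ S.1, coll (cl S.1) x ∈ Lev δ := fun x hx => Lev_mono hζδ (hcoll x hx)
  have hζ0 : 0 < ζ := by
    rw [pos_iff_ne_zero]
    rintro rfl
    obtain ⟨x, hx⟩ := hne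
    have h1 := hcoll _ (hCl.pair x x hx hx)
    rw [hCl.coll_pair hx hx, mem_Lev_zero, ZFSet.eq_empty] at h1
    refine h1 {coll (cl S.1) x} ?_
    rw [ZFSet.pair, ZFSet.mem_pair]
    exact Or.inl rfl
  have hrel : ∀ x y : ML, Pool.Agent.H5Z.Rel EL x y f ↔ x.1 ∈ S.1 ∧ y.1 = coll (cl S.1) x.1 := by
    intro x y
    rw [rel_EL, hf]
  refine ⟨f, ?_, ?_, ?_, ?_, ?_, ?_⟩
  · intro x hx
    refine ⟨⟨coll (cl S.1) x.1, ζ, hcoll _ hx⟩, ?_, (hrel x ⟨coll (cl S.1) x.1, ζ, hcoll _ hx⟩).2 ⟨hx, rfl⟩⟩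
    change _ ∈ U.1
    rw [h.hU]
    exact hcollδ _ hx
  · intro x y y' _ hy hy'
    rw [hrel] at hy hy'
    exact Subtype.ext (hy.2.trans hy'.2.symm)
  · intro x x' y y' hx hx' hy hy' hR
    rw [hrel] at hy hy'
    rw [rel_EL, h.mem_R] at hR ⊢
    rw [hy.2, hy'.2]
    exact ⟨hcollδ _ hx, hcollδ _ hx', (hCl.ww hx hx').2 hR.2.2⟩
  · intro x y z hx hy hz hR
    rw [hrel] at hy
    rw [rel_EL, h.mem_R] at hR
    have h1 : y.1 ∈ Lev ζ := by rw [hy.2]; exact hcoll _ hx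
    have h2 : z.1 ∈ Lev ζ := WW_end hζ0 h1 hR.2.2
    obtain ⟨x', hx', hzx⟩ := (hζ _).1 h2
    exact ⟨⟨x', ZF0_mem (x := S) hx'⟩, hx', (hrel _ _).2 ⟨hx', hzx⟩⟩
  · intro n x x' y y' hn hx happ hy hy'
    rw [hrel] at hy hy'
    rw [app_EL, h.mem_G] at happ ⊢
    obtain ⟨k, hk, -, hxx⟩ := happ
    refine ⟨k, hk, ?_, ?_⟩
    · rw [hy.2]
      exact hcollδ _ hx
    · rw [hy'.2, hxx, hCl.coll_GG k hx, hy.2]
  · intro p x x' q y y' hx hx' hp hy hy' hq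
    rw [hrel] at hy hy' hq
    rw [isPair_EL] at hp ⊢
    rw [hq.2, hp, hCl.coll_pair hx hx', hy.2, hy'.2]

end Pool.Agent.H43L
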