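import Pool.Agent.Lib.H43L.G8
import Pool.Agent.Lib.H43L.G2

/-!
# Chunk G8c: `K` is an initial segment; a limit point

* `sub`: `Lev_mono h.lt.le`.  `init`: `WW_end` (`0 < κ.ord`).
* `limit`: let `a` be the `WW`-least element of `LL` which is not in `Lev ω` (`WW_least`; `Lev ω` itself is such an element, and `Lev ω ∈ Lev κ.ord`, so `a ∈ Lev κ.ord` by `WW_end` or `a = Lev ω`).
The predecessors of `a` are exactly the elements of `Lev ω`: if `WW x a` then `x ∈ Lev ω` by minimality; if `x ∈ Lev ω` then `WW x a` (otherwise `WW a x` and `a ∈ Lev ω` by `WW_end`).  `∅ ∈ Lev ω`.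
For `x ∈ Lev ω`, `x ∈ Lev n` with `n < ω`, `0 < n` (`Lim.exists_lt`); then `WW x (Lev n)` (otherwise `Lev n ∈ Lev n` by `WW_end`, or `x = Lev n ∈ Lev n`), and `Lev n ∈ Lev ω`.
-/

set_option autoImplicit false

open Set Function Cardinal

namespace Pool.Agent.H43L

open Pool.Agent.H94L

open Pool.Agent.H5Z (Rel)

variable {κ : Cardinal.{0}} {δ : Ordinal.{0}} {w U R G K : ML}

theorem g8c_omega_lt {κ : Cardinal.{0}} (hκ : ℵ₀ < κ) : Ordinal.omega0 < κ.ord := by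
  rw [← Cardinal.ord_aleph0]
  exact Cardinal.ord_lt_ord.2 hκ

theorem g8c_lim_omega : Lim Ordinal.omega0.{0} :=
  ⟨Ordinal.omega0_pos, fun γ hγ => Ordinal.isSuccLimit_omega0.succ_lt hγ⟩

theorem Setup.subK (h : Setup κ δ w U R G K) (x : ML) (hx : EL x K) : EL x U := by
  have h1 : x.1 ∈ K.1 := hx
  rw [h.hK] at h1
  show x.1 ∈ U.1
  rw [h.hU]
  exact Lev_mono h.lt.le h1

theorem Setup.initK (h : Setup κ δ w U R G K) (x y : ML) (hx : EL x K) (hy : EL y U)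
    (hyx : Rel EL y x R) : EL y K := by
  have h1 : x.1 ∈ K.1 := hx
  rw [h.hK] at h1
  rw [rel_EL, h.mem_R] at hyx
  show y.1 ∈ K.1
  rw [h.hK]
  exact WW_end (Ordinal.omega0_pos.trans (g8c_omega_lt h.unc)) h1 hyx.2.2

theorem Setup.limit (h : Setup κ δ w U R G K) : ∃ a, EL a K ∧ (∃ x, EL x U ∧ Rel EL x a R) ∧
    ∀ x, EL x U → Rel EL x a R → ∃ y, EL y U ∧ Rel EL x y R ∧ Rel EL y a R := by
  have hω : Ordinal.omega0 < κ.ord := g8c_omega_lt h.unc
  have hpos : 0 < κ.ord := Ordinal.omega0_pos.trans hω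
  have hlev : Lev Ordinal.omega0 ∉ Lev Ordinal.omega0 := fun h' => lt_irrefl _ (Lev_mem_Lev.1 h')
  obtain ⟨a, ha, haω, hmin⟩ := WW_least (fun x => x ∉ Lev Ordinal.omega0)
    ⟨Lev Ordinal.omega0, ⟨Ordinal.omega0 + 1, Lev_mem_Lev.2 (Order.lt_add_one_iff.mpr le_rfl)⟩, hlev⟩
  have hLω : Lev Ordinal.omega0 ∈ Lev κ.ord := Lev_mem_Lev.2 hω
  have haK : a ∈ Lev κ.ord := by
    by_cases hne : a = Lev Ordinal.omega0
    · rw [hne]
      exact hLω
    · rcases WW_total ha ⟨_, hLω⟩ hne with hW | hW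
      · exact WW_end hpos hLω hW
      · exact absurd hW (hmin _ ⟨_, hLω⟩ hlev)
  have haδ : a ∈ Lev δ := Lev_mono h.lt.le haK
  have hpred : ∀ x, x ∈ Lev Ordinal.omega0 → WW x a := by
    intro x hx
    have hne : x ≠ a := by
      rintro rfl
      exact haω hx
    rcases WW_total ⟨_, hx⟩ ha hne with hW | hW
    · exact hW
    · exact absurd (WW_end Ordinal.omega0_pos hx hW) haω
  have hωδ : ∀ x, x ∈ Lev Ordinal.omega0 → x ∈ Lev δ := fun x hx =>
    Lev_mono (hω.le.trans h.lt.le) hx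
  refine ⟨⟨a, ha⟩, ?_, ?_, ?_⟩
  · show a ∈ K.1
    rw [h.hK]
    exact haK
  · refine ⟨⟨∅, 0, empty_mem_Lev 0⟩, ?_, ?_⟩
    · show ∅ ∈ U.1
      rw [h.hU]
      exact empty_mem_Lev δ
    · rw [rel_EL, h.mem_R]
      exact ⟨empty_mem_Lev δ, haδ, hpred _ (empty_mem_Lev _)⟩
  · intro x hxU hxa
    rw [rel_EL, h.mem_R] at hxa
    have hxω : x.1 ∈ Lev Ordinal.omega0 := by
      by_contra hn
      exact hmin _ x.2 hn hxa.2.2
    obtain ⟨n, hn, hxn⟩ := g8c_lim_omega.exists_lt hxω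
    have hn1 : n + 1 < Ordinal.omega0 := g8c_lim_omega.2 n hn
    have hxn1 : x.1 ∈ Lev (n + 1) := Lev_mono (NICE_lt n).le hxn
    have hy : Lev (n + 1) ∈ Lev Ordinal.omega0 := Lev_mem_Lev.2 hn1
    have hirr : Lev (n + 1) ∉ Lev (n + 1) := fun h' => lt_irrefl _ (Lev_mem_Lev.1 h')
    refine ⟨⟨Lev (n + 1), _, hy⟩, ?_, ?_, ?_⟩
    · show Lev (n + 1) ∈ U.1
      rw [h.hU]
      exact hωδ _ hy
    · rw [rel_EL, h.mem_R]
      refine ⟨hxa.1, hωδ _ hy, ?_⟩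
      have hne : x.1 ≠ Lev (n + 1) := by
        intro h'
        rw [h'] at hxn1
        exact hirr hxn1
      rcases WW_total x.2 ⟨_, hy⟩ hne with hW | hW
      · exact hW
      · exact absurd (WW_end (lt_of_le_of_lt zero_le (NICE_lt n)) hxn1 hW) hirr
    · rw [rel_EL, h.mem_R]
      exact ⟨hωδ _ hy, haδ, hpred _ hy⟩

end Pool.Agent.H43L
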