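import Pool.Agent.Lib.H43L.G8
import Pool.Agent.Lib.H43L.G7d

/-!
# Chunk G8d: the cluster clause

`cluster_LL`; `rel_EL`, `mem_R`, `hU`, `hK` (elements of `Lev κ.ord` are in `Lev δ`).
-/

set_option autoImplicit false

open Set Function Cardinal

namespace Pool.Agent.H43L

open Pool.Agent.H94L

open Pool.Agent.H5Z (Rel)
open Pool.Agent.Helper43.KK (IsWeaklyCompact)

theorem Setup.cluster {κ : Cardinal.{0}} {δ : Ordinal.{0}} {w U R G K : ML}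
    (h : Setup κ δ w U R G K) (hκ : IsWeaklyCompact κ) (F : ML) :
    ∃ b, ∀ a, EL a K → ∃ i, EL i K ∧ Rel EL a i R ∧
      ∀ x, EL x U → Rel EL x a R → (EL x b ↔ Rel EL i x F) := by
  obtain ⟨b, hb, h1⟩ := cluster_LL hκ F.2
  refine ⟨⟨b, hb⟩, fun a ha => ?_⟩
  have ha' : a.1 ∈ Lev κ.ord := by
    rw [← h.hK]
    exact ha
  obtain ⟨i, hi, h2, h3⟩ := h1 a.1 ha'
  have hLi : LL i := ⟨κ.ord, hi⟩
  have hiK : EL (⟨i, hLi⟩ : ML) K := by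
    show i ∈ K.1
    rw [h.hK]
    exact hi
  refine ⟨⟨i, hLi⟩, hiK, (rel_EL a ⟨i, hLi⟩ R).2 ?_, fun x _ hx => ?_⟩
  · exact (h.mem_R a.1 i).2 ⟨Lev_mono h.lt.le ha', Lev_mono h.lt.le hi, h2⟩
  · have hx' := (h.mem_R _ _).1 ((rel_EL x a R).1 hx)
    exact (h3 x.1 hx'.2.2).trans (rel_EL ⟨i, hLi⟩ x F).symm

end Pool.Agent.H43L
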