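import Pool.Agent.Lib.H43L.G8

/-!
# Chunk G8e: the cardinality clauses

* `small`: `x ∈ Lev β` with `0 < β < δ` (`Lim.exists_lt`, `Lev_mono`); the predecessors of `x` are in `Lev β` (`WW_end`); `h.small β` gives the set `f`; `rel_EL`.
* `large`: an `f` with `Injects` gives `InjLL (Lev δ) (Lev κ.ord)`.
-/

set_option autoImplicit false

open Set Function Cardinal

namespace Pool.Agent.H43L

open Pool.Agent.H94L

open Pool.Agent.H5Z (Rel)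

variable {κ : Cardinal.{0}} {δ : Ordinal.{0}} {w U R G K : ML}

theorem Setup.small' (h : Setup κ δ w U R G K) (x : ML) (hx : EL x U) :
    ∃ f, Injects EL (fun y => EL y U ∧ Rel EL y x R) K f := by
  have hx' : x.1 ∈ Lev δ := by
    rw [← h.hU]
    exact hx
  have hl : Lim δ := h.lim.lim
  obtain ⟨β, hβ, hxβ⟩ := hl.exists_lt hx'
  have h1δ : (0 : Ordinal.{0}) + 1 < δ := hl.2 0 hl.1
  obtain ⟨f, hf, h2, h3⟩ := h.small (max β (0 + 1)) (max_lt hβ h1δ)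
  have hpos : (0 : Ordinal.{0}) < max β (0 + 1) := lt_max_of_lt_right (by simp)
  have hy : ∀ y : ML, (EL y U ∧ Rel EL y x R) → y.1 ∈ Lev (max β (0 + 1)) := by
    rintro y ⟨-, h4⟩
    rw [rel_EL] at h4
    exact WW_end hpos (Lev_mono (le_max_left _ _) hxβ) ((h.mem_R _ _).1 h4).2.2
  refine ⟨⟨f, hf⟩, fun y h4 => ?_, fun y y' c h4 h5 hc h6 h7 => ?_⟩
  · obtain ⟨c, hc, h5⟩ := h2 y.1 (hy y h4)
    have hLc : LL c := ⟨κ.ord, hc⟩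
    refine ⟨⟨c, hLc⟩, ?_, (rel_EL y ⟨c, hLc⟩ ⟨f, hf⟩).2 h5⟩
    show c ∈ K.1
    rw [h.hK]
    exact hc
  · have h6' := (rel_EL y c ⟨f, hf⟩).1 h6
    have h7' := (rel_EL y' c ⟨f, hf⟩).1 h7
    have hc' : c.1 ∈ Lev κ.ord := by
      rw [← h.hK]
      exact hc
    exact Subtype.ext (h3 y.1 (hy y h4) y'.1 (hy y' h5) c.1 hc' h6' h7')

theorem Setup.large' (h : Setup κ δ w U R G K) (f : ML) :
    ¬ Injects EL (fun y => EL y U) K f := by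
  rintro ⟨h1, h2⟩
  have hL : ∀ y : ZFSet.{0}, y ∈ Lev δ → LL y := fun y hy => ⟨δ, hy⟩
  have hLK : ∀ y : ZFSet.{0}, y ∈ Lev κ.ord → LL y := fun y hy => ⟨κ.ord, hy⟩
  have hU : ∀ (y : ZFSet.{0}) (hy : y ∈ Lev δ), EL ⟨y, hL y hy⟩ U := by
    intro y hy
    show y ∈ U.1
    rw [h.hU]
    exact hy
  refine h.large ⟨f.1, f.2, fun x hx => ?_, fun x hx x' hx' c hc h3 h4 => ?_⟩
  · obtain ⟨c, hc, h3⟩ := h1 ⟨x, hL x hx⟩ (hU x hx)
    refine ⟨c.1, ?_, (rel_EL ⟨x, hL x hx⟩ c f).1 h3⟩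
    rw [← h.hK]
    exact hc
  · have hcK : EL ⟨c, hLK c hc⟩ K := by
      show c ∈ K.1
      rw [h.hK]
      exact hc
    have h5 := h2 ⟨x, hL x hx⟩ ⟨x', hL x' hx'⟩ ⟨c, hLK c hc⟩ (hU x hx) (hU x' hx') hcK
      ((rel_EL ⟨x, hL x hx⟩ ⟨c, hLK c hc⟩ f).2 h3) ((rel_EL ⟨x', hL x' hx'⟩ ⟨c, hLK c hc⟩ f).2 h4)
    exact congrArg Subtype.val h5

end Pool.Agent.H43L
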