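import Pool.Agent.Lib.H43L.G8

/-!
# Chunk G8f: the capture clause

Let `c` be the set of the elements of `b` which are in `Lev κ.ord` (`LL_sep`), `c ∈ Lev δ` by `h.sub κ.ord`, `c ∈ Lev β` for a limit `β < δ` above `κ.ord` (`Lim.exists_lt`, `LimLim`).  There is a formula
`enumF k` with `SatL (cl (Lev β)) (enumF k) (asg z p ∅)` iff `∃ c x, p = pair c x ∧ z ∈ c ∧ WW x z` (`z, p ∈ Lev β`; `Dfn.ex`, `(nice_Lev _).dfn_pair`, `enumF_surj`).  Take `n = nat (k + 1)`, `u = Lev β`, `p = c`.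
For `x ∈ Lev κ.ord` there is `y ∈ c` with `WW x y` by hypothesis, so by `exists_wit` there is a least witness `y`: `Wit (nat k) (Lev β) (pair c x) y` (`wit_Lev`), `y ∈ c`, `WW x y`, and
`GG (k + 1) (pair (Lev β) (pair c x)) = y` (`GG_succ`).  `val_EL`, `mem_G`.
-/

set_option autoImplicit false

open Set Function Cardinal

namespace Pool.Agent.H43L

open Pool.Agent.H94L

open Pool.Agent.H5Z (Rel)

variable {κ : Cardinal.{0}} {δ : Ordinal.{0}} {w U R G K : ML}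

theorem Setup.capture (h : Setup κ δ w U R G K) (b : ML)
    (hb : ∀ x, EL x K → ∃ y, EL y K ∧ EL y b ∧ Rel EL x y R) :
    ∃ n u p, EL n w ∧ EL u U ∧ EL p U ∧
      ∀ x, EL x K → ∃ y, EL y K ∧ EL y b ∧ Rel EL x y R ∧ Val EL G n u p x y := by
  -- the set `c`
  have hKLL : LL (Lev κ.ord) := ⟨κ.ord + 1, Lev_mem_Lev.2 (Order.lt_add_one_iff.mpr le_rfl)⟩
  obtain ⟨c, hcL, hc⟩ := LL_sep (P := fun v => v 0 ∈ v 1) (Dfn.mem 0 1)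
    (v := fun _ => Lev κ.ord) (fun _ => hKLL) b.2
  have hc' : ∀ z, z ∈ c ↔ z ∈ b.1 ∧ z ∈ Lev κ.ord := hc
  have hδ : Lim δ := h.lim.lim
  have hcδ : c ∈ Lev δ := h.sub κ.ord h.lt c hcL fun z hz => ((hc' z).1 hz).2
  obtain ⟨γ, hγ, hcγ⟩ := hδ.exists_lt hcδ
  obtain ⟨β, hβ1, hβ2, hβ⟩ := h.lim.2 (max γ κ.ord) (max_lt hγ h.lt)
  have hcβ : c ∈ Lev β := Lev_mono ((le_max_left _ _).trans hβ1.le) hcγ
  have hKβ : ∀ x, x ∈ Lev κ.ord → x ∈ Lev β := fun x hx =>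
    Lev_mono ((le_max_right _ _).trans hβ1.le) hx
  -- the formula
  have hP : Dfn (cl (Lev β)) fun v => ∃ c', cl (Lev β) c' ∧ ∃ x, cl (Lev β) x ∧
      v 1 = ZFSet.pair c' x ∧ v 0 ∈ c' ∧ WW x (v 0) :=
    Dfn.ex (P := fun v => ∃ x, cl (Lev β) x ∧ v 2 = ZFSet.pair (v 0) x ∧ v 1 ∈ v 0 ∧ WW x (v 1))
      (Dfn.ex (P := fun v => v 3 = ZFSet.pair (v 1) (v 0) ∧ v 2 ∈ v 1 ∧ WW (v 0) (v 2))
        (((nice_Lev hβ).dfn_pair 3 1 0).and ((Dfn.mem 2 1).and (Dfn.ww 0 2))))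
  obtain ⟨φ, hφ⟩ := hP
  obtain ⟨k, hk⟩ := enumF_surj φ
  have hsat : ∀ z p, z ∈ Lev β → p ∈ Lev β → (SatL (cl (Lev β)) (enumF k) (asg z p ∅) ↔
      ∃ c', c' ∈ Lev β ∧ ∃ x, x ∈ Lev β ∧ p = ZFSet.pair c' x ∧ z ∈ c' ∧ WW x z) := by
    intro z p hz hp
    rw [hk, asg_eq]
    have hv : ∀ i, cl (Lev β) (cons z (cons p fun _ => ∅) i) :=
      cons_mem (A := cl (Lev β)) hz (cons_mem (A := cl (Lev β)) hp fun _ => empty_mem_Lev β)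
    rw [← hφ _ hv]
    rfl
  have hβδ : Lev β ∈ Lev δ := Lev_mem_Lev.2 hβ2
  refine ⟨⟨nat (k + 1), nice_LL.natMem _⟩, ⟨Lev β, _, hβδ⟩, ⟨c, hcL⟩, ?_, ?_, ?_, ?_⟩
  · exact (h.mem_w _).2 ⟨k + 1, rfl⟩
  · show Lev β ∈ U.1
    rw [h.hU]
    exact hβδ
  · show c ∈ U.1
    rw [h.hU]
    exact hcδ
  · intro x hx
    obtain ⟨y0, hy0K, hy0b, hxy0⟩ := hb x hx
    have hxK : x.1 ∈ Lev κ.ord := by
      have h1 : x.1 ∈ K.1 := hx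
      rwa [h.hK] at h1
    have hy0K' : y0.1 ∈ Lev κ.ord := by
      have h1 : y0.1 ∈ K.1 := hy0K
      rwa [h.hK] at h1
    rw [rel_EL, h.mem_R] at hxy0
    have hpβ : ZFSet.pair c x.1 ∈ Lev β := (nice_Lev hβ).kpair hcβ (hKβ _ hxK)
    have hy0 : SatL (cl (Lev β)) (enumF k) (asg y0.1 (ZFSet.pair c x.1) ∅) :=
      (hsat _ _ (hKβ _ hy0K') hpβ).2 ⟨c, hcβ, x.1, hKβ _ hxK, rfl, (hc' _).2 ⟨hy0b, hy0K'⟩,
        hxy0.2.2⟩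
    obtain ⟨y, hy⟩ := exists_wit (m := nat k) (u := Lev β) (p := ZFSet.pair c x.1)
      ⟨y0.1, hKβ _ hy0K', (TT_iff _ _ _ _ _).2 ⟨β, k, rfl, rfl, hpβ, empty_mem_Lev β,
        Or.inr ⟨hKβ _ hy0K', hy0⟩⟩⟩
    obtain ⟨hyβ, hysat, -⟩ := (wit_Lev hpβ).1 hy
    obtain ⟨c', -, x', -, hpair, hyc, hW⟩ := (hsat _ _ hyβ hpβ).1 hysat
    obtain ⟨h1, h2⟩ := ZFSet.pair_injective hpair
    subst h1
    rw [← h2] at hW
    have hyK : y ∈ Lev κ.ord := ((hc' y).1 hyc).2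
    have hyδ : y ∈ Lev δ := Lev_mono h.lt.le hyK
    refine ⟨⟨y, _, hyK⟩, ?_, ((hc' y).1 hyc).1, ?_, ?_⟩
    · show y ∈ K.1
      rw [h.hK]
      exact hyK
    · rw [rel_EL, h.mem_R]
      exact ⟨hxy0.1, hyδ, hW⟩
    · rw [val_EL, h.mem_G]
      refine ⟨k + 1, rfl, ?_, (GG_succ hy).symm⟩
      exact (nice_Lev hδ).kpair hβδ ((nice_Lev hδ).kpair hcδ (Lev_mono h.lt.le hxK))

end Pool.Agent.H43L
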