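import Pool.Agent.Lib.H43L.T8
import Pool.Agent.Lib.H43L.G8a
import Pool.Agent.Lib.H43L.G8b
import Pool.Agent.Lib.H43L.G8c
import Pool.Agent.Lib.H43L.G8d
import Pool.Agent.Lib.H43L.G8e
import Pool.Agent.Lib.H43L.G8f

/-!
# A model of ZFC with a weakly compact cardinal and a condensing algebra
-/

set_option autoImplicit false

open Set Function Cardinal

namespace Pool.Agent.H43L

open Pool.Agent.H94L

open Pool.Agent.H5Z (ModelsZFC)
open Pool.Agent.Helper43.KK (IsWeaklyCompact)

theorem condIn_LL {κ : Cardinal.{0}} (hκ : IsWeaklyCompact κ) : CondIn EL := by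
  obtain ⟨δ, w, U, R, G, K, h⟩ := exists_setup hκ.1
  exact ⟨w, U, R, G, K, {
    alg := h.isAlg
    cond := h.cond
    sub := h.subK
    init := h.initK
    limit := h.limit
    cluster := h.cluster hκ
    small := h.small'
    large := h.large'
    capture := h.capture }⟩

/-- If there is a weakly compact cardinal then there is a model of ZFC in which the sentence holds. -/
theorem exists_model {κ : Cardinal.{0}} (hκ : IsWeaklyCompact κ) :
    ∃ (M : Type 1) (E : M → M → Prop), ModelsZFC E ∧ CondIn E :=
  ⟨ML, EL, modelsZFC_LL, condIn_LL hκ⟩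

end Pool.Agent.H43L
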