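import Pool.Agent.Lib.H43L.Alg

/-!
# Chunk R1: the rank function of a consistent set of facts

`g` is a set of facts such that for every countable `W` the facts over `W` are realized by an
assignment.  Put `r s t :⇔ (s, t) ∈ g`.

* `r` is well-founded: a descending sequence `s 0, s 1, ..` of terms uses only countably many variables
  (`exists_finite_vIn`), and a realization `e` of the facts over these variables gives a descending
  sequence `ev A e (s n)` of ordinals.
* For each two or three terms there is a realization `e` of the facts over their variables; so `r` is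
  a strict weak order: `(s, t) ∈ g` iff `ev A e s < ev A e t`.  Hence the rank function
  `rk s = ⨆ {rk t + 1 : r t s}` (`WellFounded.rank` or `IsWellFounded.rank`) satisfies
  `rk s < rk t ↔ (s, t) ∈ g`, and its range is an initial segment (`IsWellFounded.mem_range_rank_of_le`).
* `rk s < κ⁺`: the ordinals `≤ rk s` are in the range of `rk`, which has at most `#(Tm V) ≤ κ` elements.

(Compare `Pool/Agent/Lib/Helper43/KK/Realize.lean`, `Cons.wf`, `rk`, `rk_lt_iff`, `exists_rk_eq`, for the same
facts in another setting.)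
-/

set_option autoImplicit false

universe u

namespace Pool.Agent.H43L

open Set Ordinal Cardinal

theorem r1_good {A : Alg.{u}} {V : Type u} {g : Set (Fact V)} {l : Ordinal.{u}}
    (h : ∀ W : Set V, W.Countable → ∃ e, Good A l g W e) {S : Set (Tm V)} (hS : S.Countable) :
    ∃ (W : Set V) (e : V → Ordinal.{u}), (∀ s ∈ S, VIn W s) ∧ Good A l g W e := by
  choose F hF1 hF2 using fun s : Tm V => exists_finite_vIn s
  obtain ⟨e, he⟩ := h (⋃ s ∈ S, F s) (hS.biUnion fun s _ => (hF1 s).countable)
  exact ⟨_, e, fun s hs => (hF2 s).mono (subset_biUnion_of_mem (u := F) hs), he⟩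

theorem exists_rk {A : Alg.{u}} {κ : Cardinal.{u}} (hκ : ℵ₀ ≤ κ) {V : Type u} (hV : #V ≤ κ)
    {g : Set (Fact V)} {l : Ordinal.{u}} (h : ∀ W : Set V, W.Countable → ∃ e, Good A l g W e) :
    ∃ rk : Tm V → Ordinal.{u}, (∀ s t, rk s < rk t ↔ (s, t) ∈ g) ∧
      (∀ s, ∀ o < rk s, ∃ t, rk t = o) ∧ ∀ s, rk s < (Order.succ κ).ord := by
  let r : Tm V → Tm V → Prop := fun s t => (s, t) ∈ g
  have wf : WellFounded r := by
    rw [wellFounded_iff_isEmpty_descending_chain]
    refine ⟨fun ⟨s, hs⟩ => ?_⟩
    obtain ⟨W, e, hW, he⟩ := r1_good h (countable_range s)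
    have : ∀ n, ev A e (s (n + 1)) < ev A e (s n) := fun n =>
      (he.2 (s (n + 1), s n) ⟨hW _ (mem_range_self _), hW _ (mem_range_self _)⟩).1 (hs n)
    exact (wellFounded_iff_isEmpty_descending_chain.1
      (wellFounded_lt (α := Ordinal.{u}))).elim ⟨fun n => ev A e (s n), this⟩
  have inst : IsWellFounded _ r := ⟨wf⟩
  refine ⟨IsWellFounded.rank r, ?_, ?_, ?_⟩
  · intro s t
    constructor
    · intro hlt
      by_contra hn
      refine absurd hlt (not_lt.2 ?_)
      rw [IsWellFounded.rank_eq r t]
      refine Ordinal.iSup_le fun b => Order.succ_le_of_lt (IsWellFounded.rank_lt_of_rel ?_)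
      obtain ⟨b, hb⟩ := b
      obtain ⟨W, e, hW, he⟩ := r1_good h (S := {s, t, b}) (by simp)
      simp only [mem_insert_iff, mem_singleton_iff, forall_eq_or_imp, forall_eq] at hW
      have h1 : ¬ ev A e s < ev A e t := fun hh => hn ((he.2 (s, t) ⟨hW.1, hW.2.1⟩).2 hh)
      have h2 : ev A e b < ev A e t := (he.2 (b, t) ⟨hW.2.2, hW.2.1⟩).1 hb
      exact (he.2 (b, s) ⟨hW.2.2, hW.1⟩).2 (h2.trans_le (not_lt.1 h1))
    · exact fun hlt => IsWellFounded.rank_lt_of_rel hlt
  · intro s o ho
    exact IsWellFounded.mem_range_rank_of_le ho.le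
  · intro s
    rw [Cardinal.lt_ord, Order.lt_succ_iff]
    have h1 : Set.Iio (IsWellFounded.rank r s) ⊆ Set.range (IsWellFounded.rank r) := by
      intro o ho
      exact IsWellFounded.mem_range_rank_of_le (le_of_lt ho)
    have h2 : #(Tm V) ≤ κ := card_tm_le.trans (max_le hκ hV)
    have h3 : Cardinal.lift.{u + 1} (IsWellFounded.rank r s).card ≤ Cardinal.lift.{u + 1} κ := by
      rw [← Cardinal.mk_Iio_ordinal]
      refine (Cardinal.mk_le_mk_of_subset h1).trans ?_
      have h4 := Cardinal.mk_range_le_lift (f := (IsWellFounded.rank r : Tm V → Ordinal.{u}))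
      rw [Cardinal.lift_id'.{u, u + 1}] at h4
      exact h4.trans (Cardinal.lift_le.2 h2)
    exact Cardinal.lift_le.1 h3

end Pool.Agent.H43L
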