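import Pool.Agent.Lib.Helper43.KK.Final

/-!
# The cluster property

`Cluster κ`: every `κ`-sequence of subsets of `κ` has a cluster point.  For uncountable `κ` this is
equivalent to weak compactness (chunks W1, W2, W3, W4).
-/

set_option autoImplicit false

universe u

namespace Pool.Agent.H43L

open Set Cardinal
open Pool.Agent.Helper43.KK (Idx)

/-- Every sequence of subsets has a cluster point. -/
def Cluster (κ : Cardinal.{u}) : Prop :=
  ∀ F : Idx κ → Set (Idx κ), ∃ b : Set (Idx κ), ∀ α : Idx κ, ∃ i, α < i ∧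
    ∀ ξ, ξ < α → (ξ ∈ b ↔ ξ ∈ F i)

end Pool.Agent.H43L
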