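import Pool.Agent.Lib.H43L.Defs
import Pool.Agent.Lib.H43L.W0
import Pool.Agent.Lib.H43L.A5
import Pool.Agent.Lib.H94L.Main

/-!
# Transfer: the intermediate structures
-/

set_option autoImplicit false

universe u

open Set Function Cardinal

namespace Pool.Agent.H43L

open Pool.Agent.H94L (nat)

/-- The data of `CondData` for the universe of sets, with Kuratowski pairs. -/
structure ZData (U R K : ZFSet.{0}) (g : ℕ → ZFSet.{0} → ZFSet.{0}) : Prop where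
  irrefl : ∀ x ∈ U, ZFSet.pair x x ∉ R
  trans : ∀ x ∈ U, ∀ y ∈ U, ∀ z ∈ U, ZFSet.pair x y ∈ R → ZFSet.pair y z ∈ R → ZFSet.pair x z ∈ R
  total : ∀ x ∈ U, ∀ y ∈ U, x ≠ y → ZFSet.pair x y ∈ R ∨ ZFSet.pair y x ∈ R
  wf : ∀ s : ZFSet.{0} → Prop, (∃ x ∈ U, s x) → ∃ x ∈ U, s x ∧ ∀ y ∈ U, s y → ZFSet.pair y x ∉ R
  pair : ∀ x ∈ U, ∀ y ∈ U, ZFSet.pair x y ∈ U
  app : ∀ n, ∀ x ∈ U, g n x ∈ U
  cond : ∀ S : ZFSet.{0} → Prop, (∀ x, S x → x ∈ U) → (∀ n x, S x → S (g n x)) →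
    (∀ x y, S x → S y → S (ZFSet.pair x y)) → ∃ f : ZFSet.{0} → ZFSet.{0},
      (∀ x, S x → f x ∈ U) ∧
      (∀ x y, S x → S y → ZFSet.pair x y ∈ R → ZFSet.pair (f x) (f y) ∈ R) ∧
      (∀ x, S x → ∀ z ∈ U, ZFSet.pair z (f x) ∈ R → ∃ y, S y ∧ f y = z) ∧
      (∀ n x, S x → f (g n x) = g n (f x)) ∧
      ∀ x y, S x → S y → f (ZFSet.pair x y) = ZFSet.pair (f x) (f y)
  sub : ∀ x ∈ K, x ∈ U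
  init : ∀ x ∈ K, ∀ y ∈ U, ZFSet.pair y x ∈ R → y ∈ K
  limit : ∃ a ∈ K, (∃ x ∈ U, ZFSet.pair x a ∈ R) ∧
    ∀ x ∈ U, ZFSet.pair x a ∈ R → ∃ y ∈ U, ZFSet.pair x y ∈ R ∧ ZFSet.pair y a ∈ R
  cluster : ∀ F : ZFSet.{0} → ZFSet.{0} → Prop, ∃ b : ZFSet.{0} → Prop, ∀ a ∈ K, ∃ i ∈ K,
    ZFSet.pair a i ∈ R ∧ ∀ x ∈ U, ZFSet.pair x a ∈ R → (b x ↔ F i x)
  small : ∀ x ∈ U, ∃ f : ZFSet.{0} → ZFSet.{0}, (∀ y ∈ U, ZFSet.pair y x ∈ R → f y ∈ K) ∧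
    ∀ y ∈ U, ∀ y' ∈ U, ZFSet.pair y x ∈ R → ZFSet.pair y' x ∈ R → f y = f y' → y = y'
  large : ∀ f : ZFSet.{0} → ZFSet.{0}, (∀ y ∈ U, f y ∈ K) →
    ¬ ∀ y ∈ U, ∀ y' ∈ U, f y = f y' → y = y'
  capture : ∀ b : ZFSet.{0} → Prop, (∀ x ∈ K, ∃ y ∈ K, b y ∧ ZFSet.pair x y ∈ R) →
    ∃ n, ∃ u ∈ U, ∃ p ∈ U, ∀ x ∈ K, ∃ y ∈ K, b y ∧ ZFSet.pair x y ∈ R ∧
      g n (ZFSet.pair u (ZFSet.pair p x)) = y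

/-- The data on a type. -/
structure AData {X : Type u} (r : X → X → Prop) (g : ℕ → X → X) (p : X → X → X) (K : Set X) :
    Prop where
  wo : IsWellOrder X r
  cond : ∀ S : Set X, (∀ n, ∀ x ∈ S, g n x ∈ S) → (∀ x ∈ S, ∀ y ∈ S, p x y ∈ S) →
    ∃ f : X → X, (∀ x ∈ S, ∀ y ∈ S, r x y → r (f x) (f y)) ∧
      (∀ x ∈ S, ∀ z, r z (f x) → ∃ y ∈ S, f y = z) ∧
      (∀ n, ∀ x ∈ S, f (g n x) = g n (f x)) ∧ ∀ x ∈ S, ∀ y ∈ S, f (p x y) = p (f x) (f y)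
  init : ∀ x ∈ K, ∀ y, r y x → y ∈ K
  limit : ∃ a ∈ K, (∃ x, r x a) ∧ ∀ x, r x a → ∃ y, r x y ∧ r y a
  cluster : ∀ F : X → Set X, ∃ b : Set X, ∀ a ∈ K, ∃ i ∈ K, r a i ∧ ∀ x, r x a → (x ∈ b ↔ x ∈ F i)
  small : ∀ x, #{y | r y x} ≤ #K
  large : #K < #X
  capture : ∀ b : Set X, (∀ x ∈ K, ∃ y ∈ K, y ∈ b ∧ r x y) →
    ∃ n u p', ∀ x ∈ K, ∃ y ∈ K, y ∈ b ∧ r x y ∧ g n (p u (p p' x)) = y

end Pool.Agent.H43L
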