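import Pool.Agent.Lib.H43L.T0

/-!
# Chunk T1: the sentence in the universe of sets

Let `E = (· ∈ ·)` on `ZFSet`.
(a) `IsPair E p x y ↔ p = ZFSet.pair x y` (see the proof of `H94L.rel_ZFSet`), `Rel E x y r ↔ ZFSet.pair x y ∈ r`
(`H94L.rel_ZFSet`).
(b) `IsOmega E w → ∀ z, z ∈ w ↔ ∃ k, z = nat k`: the set of all `nat k` (`ZFSet.range` of `nat`, or `ZFSet.omega`) is inductive, so
`w` is contained in it; conversely all `nat k` are in the inductive set `w` by induction (`nat (k + 1) = insert (nat k) (nat k)`).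
(c) `App E G n x y ↔ ZFSet.pair (ZFSet.pair n x) y ∈ G`, `Val E G n u p x y ↔
ZFSet.pair (ZFSet.pair n (ZFSet.pair u (ZFSet.pair p x))) y ∈ G`.
(d) `g n x` is the `y ∈ U` with `App E G (nat n) x y` (for `x ∈ U`; `Classical.epsilon` or choice), unique by `alg.unique`.
(e) Classes `s`, `b`, `S`, `F` restricted to the set `U` (or to `K`) are sets: `ZFSet.sep`; for the cluster clause use the set of
all `ZFSet.pair i x`, `i ∈ K`, `x ∈ U`, `F i x` (a subset of the set `U` by `alg.pair`, `K ⊆ U`: so `ZFSet.sep _ U`).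
(f) In `cond`: from the set `f'` of `IsIso` let `f x` be the `y` with `pair x y ∈ f'`; `f (g n x) = g n (f x)` by `IsIso.app` and
uniqueness; `f (pair x y) = pair (f x) (f y)` by `IsIso.pair`.
(g) `small`: the function `y ↦ c` from `Injects`.  `large`: from a function `f : U → K` injective on `U` make the set
of pairs `ZFSet.pair y (f y)`, `y ∈ U`: it is a subset of `U` (`alg.pair`, `K ⊆ U`), so use `ZFSet.sep _ U`.
-/

set_option autoImplicit false

open Set Function Cardinal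

namespace Pool.Agent.H43L

open Pool.Agent.H94L (nat rel_ZFSet)
open Pool.Agent.H5Z (Rel IsPair IsOmega IsInd)

theorem isPair_ZFSet (p x y : ZFSet.{0}) :
    IsPair (fun x y : ZFSet.{0} => x ∈ y) p x y ↔ p = ZFSet.pair x y := by
  have h1 : ∀ z : ZFSet.{0}, (∀ u, u ∈ z ↔ u = x) ↔ z = {x} := by
    intro z
    rw [ZFSet.ext_iff]
    simp
  have h2 : ∀ z : ZFSet.{0}, (∀ u, u ∈ z ↔ u = x ∨ u = y) ↔ z = {x, y} := by
    intro z
    rw [ZFSet.ext_iff]
    simp
  unfold IsPair
  rw [ZFSet.ext_iff]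
  simp only [h1, h2, ZFSet.pair, ZFSet.mem_pair]

theorem isOmega_ZFSet {w : ZFSet.{0}} (h : IsOmega (fun x y : ZFSet.{0} => x ∈ y) w) (z : ZFSet.{0}) :
    z ∈ w ↔ ∃ k, z = nat k := by
  constructor
  · intro hz
    have hi : IsInd (fun x y : ZFSet.{0} => x ∈ y) (ZFSet.range nat) := by
      refine ⟨⟨∅, ?_, fun z => ZFSet.notMem_empty z⟩, fun y hy => ?_⟩
      · exact ZFSet.mem_range.2 ⟨0, rfl⟩
      · obtain ⟨k, rfl⟩ := ZFSet.mem_range.1 hy
        refine ⟨nat (k + 1), ZFSet.mem_range.2 ⟨k + 1, rfl⟩, fun z => ?_⟩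
        · show z ∈ (insert (nat k) (nat k) : ZFSet.{0}) ↔ z ∈ nat k ∨ z = nat k
          rw [ZFSet.mem_insert_iff, or_comm]
    have h1 := h.2 _ hi z hz
    have h2 : z ∈ ZFSet.range nat := h1
    rw [ZFSet.mem_range] at h2
    obtain ⟨k, hk⟩ := h2
    exact ⟨k, hk.symm⟩
  · rintro ⟨k, rfl⟩
    induction k with
    | zero =>
      obtain ⟨e, he, he'⟩ := h.1.1
      have h3 : e = ∅ := (ZFSet.eq_empty e).2 he'
      rw [h3] at he
      exact he
    | succ k ih =>
      obtain ⟨s, hs, hs'⟩ := h.1.2 _ ih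
      have h3 : s = insert (nat k) (nat k) := by
        ext z
        have h4 := hs' z
        rw [ZFSet.mem_insert_iff, or_comm]
        exact h4
      rw [h3] at hs
      exact hs

theorem app_ZFSet (G n x y : ZFSet.{0}) :
    App (fun x y : ZFSet.{0} => x ∈ y) G n x y ↔ ZFSet.pair (ZFSet.pair n x) y ∈ G := by
  unfold App
  simp only [isPair_ZFSet, rel_ZFSet]
  constructor
  · rintro ⟨q, rfl, h⟩
    exact h
  · intro h
    exact ⟨_, rfl, h⟩

theorem val_ZFSet (G n u p x y : ZFSet.{0}) :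
    Val (fun x y : ZFSet.{0} => x ∈ y) G n u p x y ↔
      ZFSet.pair (ZFSet.pair n (ZFSet.pair u (ZFSet.pair p x))) y ∈ G := by
  unfold Val
  simp only [isPair_ZFSet, app_ZFSet]
  constructor
  · rintro ⟨q, r, rfl, rfl, h⟩
    exact h
  · intro h
    exact ⟨_, _, rfl, rfl, h⟩

end Pool.Agent.H43L
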