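import Pool.Agent.Lib.H43L.T1

/-!
# Chunk T2: from `CondData` to `ZData`

See the plan in file T1, items (d), (e), (f), (g).
-/

set_option autoImplicit false

open Set Function Cardinal

namespace Pool.Agent.H43L

open Pool.Agent.H94L (nat rel_ZFSet)
open Pool.Agent.H5Z (Rel IsPair IsOmega IsInd)

theorem exists_zData {w U R G K : ZFSet.{0}}
    (h : CondData (fun x y : ZFSet.{0} => x ∈ y) w U R G K) : ∃ g, ZData U R K g := by
  classical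
  have hA := h.alg
  have hw : ∀ z, z ∈ w ↔ ∃ k, z = nat k := isOmega_ZFSet hA.omega
  have hnw : ∀ n : ℕ, nat n ∈ w := fun n => (hw _).2 ⟨n, rfl⟩
  have hRel : ∀ x y r : ZFSet.{0}, ZFSet.pair x y ∈ r →
      Rel (fun x y : ZFSet.{0} => x ∈ y) x y r := fun x y r h => (rel_ZFSet x y r).2 h
  have hRel' : ∀ x y r : ZFSet.{0}, Rel (fun x y : ZFSet.{0} => x ∈ y) x y r →
      ZFSet.pair x y ∈ r := fun x y r h => (rel_ZFSet x y r).1 h
  have hpr : ∀ x y : ZFSet.{0}, IsPair (fun x y : ZFSet.{0} => x ∈ y) (ZFSet.pair x y) x y :=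
    fun x y => (isPair_ZFSet _ x y).2 rfl
  have happ : ∀ (n : ℕ) (x : ZFSet.{0}), x ∈ U →
      ∃ y ∈ U, ZFSet.pair (ZFSet.pair (nat n) x) y ∈ G := by
    intro n x hx
    obtain ⟨y, hy, hy'⟩ := hA.app (nat n) x (hnw n) hx
    exact ⟨y, hy, (app_ZFSet _ _ _ _).1 hy'⟩
  choose! g hgU hgG using happ
  have huniq : ∀ (n : ℕ) (x y : ZFSet.{0}), x ∈ U →
      App (fun x y : ZFSet.{0} => x ∈ y) G (nat n) x y → y = g n x := by
    intro n x y hx hy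
    exact hA.unique (nat n) x y (g n x) (hnw n) hx hy ((app_ZFSet _ _ _ _).2 (hgG n x hx))
  have hKU : ∀ x ∈ K, x ∈ U := fun x hx => h.sub x hx
  have hpU : ∀ x ∈ U, ∀ y ∈ U, ZFSet.pair x y ∈ U :=
    fun x hx y hy => hA.pair x y _ hx hy (hpr x y)
  refine ⟨g, ?_⟩
  constructor
  · exact fun x hx h' => hA.irrefl x hx (hRel _ _ _ h')
  · exact fun x hx y hy z hz h1 h2 =>
      hRel' _ _ _ (hA.trans x y z hx hy hz (hRel _ _ _ h1) (hRel _ _ _ h2))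
  · intro x hx y hy hxy
    rcases hA.total x y hx hy hxy with h1 | h1
    · exact Or.inl (hRel' _ _ _ h1)
    · exact Or.inr (hRel' _ _ _ h1)
  · rintro s ⟨x, hx, hs⟩
    obtain ⟨y, hy, hyU, hy'⟩ := hA.wf (ZFSet.sep s U) ⟨x, ZFSet.mem_sep.2 ⟨hx, hs⟩, hx⟩
    refine ⟨y, hyU, (ZFSet.mem_sep.1 hy).2, fun z hz hsz hr => ?_⟩
    exact hy' z (ZFSet.mem_sep.2 ⟨hz, hsz⟩) hz (hRel _ _ _ hr)
  · exact hpU
  · exact hgU
  · -- condensation
    intro S hSU hSg hSp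
    have hmem : ∀ x, x ∈ ZFSet.sep S U ↔ S x := fun x =>
      ⟨fun hx => (ZFSet.mem_sep.1 hx).2, fun hx => ZFSet.mem_sep.2 ⟨hSU x hx, hx⟩⟩
    have hsub : IsSub (fun x y : ZFSet.{0} => x ∈ y) w U G (ZFSet.sep S U) := by
      constructor
      · exact fun x hx => (ZFSet.mem_sep.1 hx).1
      · intro n x y hn hx hy
        obtain ⟨k, rfl⟩ := (hw n).1 hn
        have h1 : S x := (hmem x).1 hx
        have h2 := huniq k x y (hSU x h1) hy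
        rw [h2]
        exact (hmem _).2 (hSg k x h1)
      · intro x y p hx hy hp
        rw [isPair_ZFSet] at hp
        rw [hp]
        exact (hmem _).2 (hSp x y ((hmem x).1 hx) ((hmem y).1 hy))
    obtain ⟨f', hI⟩ := h.cond _ hsub
    have htot : ∀ x, S x → ∃ y ∈ U, ZFSet.pair x y ∈ f' := by
      intro x hx
      obtain ⟨y, hy, hy'⟩ := hI.total x ((hmem x).2 hx)
      exact ⟨y, hy, hRel' _ _ _ hy'⟩
    choose! f hfU hff using htot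
    have hfu : ∀ x y, S x → ZFSet.pair x y ∈ f' → y = f x := fun x y hx hy =>
      hI.unique x y (f x) ((hmem x).2 hx) (hRel _ _ _ hy) (hRel _ _ _ (hff x hx))
    refine ⟨f, hfU, ?_, ?_, ?_, ?_⟩
    · intro x y hx hy hxy
      exact hRel' _ _ _ (hI.mono x y (f x) (f y) ((hmem x).2 hx) ((hmem y).2 hy)
        (hRel _ _ _ (hff x hx)) (hRel _ _ _ (hff y hy)) (hRel _ _ _ hxy))
    · intro x hx z hz hzx
      obtain ⟨x', hx', hx''⟩ := hI.init x (f x) z ((hmem x).2 hx) (hRel _ _ _ (hff x hx)) hz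
        (hRel _ _ _ hzx)
      have h1 : S x' := (hmem x').1 hx'
      exact ⟨x', h1, (hfu x' z h1 (hRel' _ _ _ hx'')).symm⟩
    · intro n x hx
      have h1 := hI.app (nat n) x (g n x) (f x) (f (g n x)) (hnw n) ((hmem x).2 hx)
        ((app_ZFSet _ _ _ _).2 (hgG n x (hSU x hx))) (hRel _ _ _ (hff x hx))
        (hRel _ _ _ (hff _ (hSg n x hx)))
      exact huniq n (f x) _ (hfU x hx) h1
    · intro x y hx hy
      have h1 := hI.pair (ZFSet.pair x y) x y (f (ZFSet.pair x y)) (f x) (f y) ((hmem x).2 hx)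
        ((hmem y).2 hy) (hpr x y) (hRel _ _ _ (hff x hx)) (hRel _ _ _ (hff y hy))
        (hRel _ _ _ (hff _ (hSp x y hx hy)))
      exact (isPair_ZFSet _ _ _).1 h1
  · exact hKU
  · exact fun x hx y hy h1 => h.init x y hx hy (hRel _ _ _ h1)
  · obtain ⟨a, ha, ⟨x, hx, hx'⟩, h2⟩ := h.limit
    refine ⟨a, ha, ⟨x, hx, hRel' _ _ _ hx'⟩, fun y hy hy' => ?_⟩
    obtain ⟨z, hz, hz1, hz2⟩ := h2 y hy (hRel _ _ _ hy')
    exact ⟨z, hz, hRel' _ _ _ hz1, hRel' _ _ _ hz2⟩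
  · intro F
    obtain ⟨b, hb⟩ := h.cluster
      (ZFSet.sep (fun z => ∃ i x, i ∈ K ∧ x ∈ U ∧ F i x ∧ z = ZFSet.pair i x) U)
    refine ⟨fun x => x ∈ b, fun a ha => ?_⟩
    obtain ⟨i, hi, hai, hx⟩ := hb a ha
    refine ⟨i, hi, hRel' _ _ _ hai, fun x hxU hxa => ?_⟩
    have h1 := hx x hxU (hRel _ _ _ hxa)
    refine h1.trans ?_
    rw [rel_ZFSet, ZFSet.mem_sep]
    constructor
    · rintro ⟨-, i', x', -, -, hF, he⟩
      obtain ⟨e1, e2⟩ := ZFSet.pair_inj.1 he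
      rw [e1, e2]
      exact hF
    · intro hF
      exact ⟨hpU i (hKU i hi) x hxU, i, x, hi, hxU, hF, rfl⟩
  · intro x hx
    obtain ⟨f', h1, h2⟩ := h.small x hx
    have htot : ∀ y, y ∈ U ∧ ZFSet.pair y x ∈ R → ∃ c ∈ K, ZFSet.pair y c ∈ f' := by
      rintro y ⟨hy, hy'⟩
      obtain ⟨c, hc, hc'⟩ := h1 y ⟨hy, hRel _ _ _ hy'⟩
      exact ⟨c, hc, hRel' _ _ _ hc'⟩
    choose! f hfK hff using htot
    refine ⟨f, fun y hy hy' => hfK y ⟨hy, hy'⟩, fun y hy z hz hyx hzx he => ?_⟩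
    refine h2 y z (f y) ⟨hy, hRel _ _ _ hyx⟩ ⟨hz, hRel _ _ _ hzx⟩ (hfK y ⟨hy, hyx⟩)
      (hRel _ _ _ (hff y ⟨hy, hyx⟩)) ?_
    rw [he]
    exact hRel _ _ _ (hff z ⟨hz, hzx⟩)
  · intro f hfK hinj
    refine h.large (ZFSet.sep (fun z => ∃ y ∈ U, z = ZFSet.pair y (f y)) U) ⟨?_, ?_⟩
    · intro y hy
      refine ⟨f y, hfK y hy, hRel _ _ _ (ZFSet.mem_sep.2 ⟨hpU y hy _ (hKU _ (hfK y hy)),
        y, hy, rfl⟩)⟩
    · intro y y' c hy hy' _ h1 h2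
      rw [rel_ZFSet, ZFSet.mem_sep] at h1 h2
      obtain ⟨-, z, hz, e⟩ := h1
      obtain ⟨-, z', hz', e'⟩ := h2
      obtain ⟨e1, e2⟩ := ZFSet.pair_inj.1 e
      obtain ⟨e1', e2'⟩ := ZFSet.pair_inj.1 e'
      refine hinj y hy y' hy' ?_
      rw [e1, e1', ← e2, ← e2']
  · intro b hb
    obtain ⟨n, u, p, hn, hu, hp, h1⟩ := h.capture (ZFSet.sep b K) (by
      intro x hx
      obtain ⟨y, hy, hby, hxy⟩ := hb x hx
      exact ⟨y, hy, ZFSet.mem_sep.2 ⟨hy, hby⟩, hRel _ _ _ hxy⟩)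
    obtain ⟨k, rfl⟩ := (hw n).1 hn
    refine ⟨k, u, hu, p, hp, fun x hx => ?_⟩
    obtain ⟨y, hy, hyb, hxy, hv⟩ := h1 x hx
    refine ⟨y, hy, (ZFSet.mem_sep.1 hyb).2, hRel' _ _ _ hxy, ?_⟩
    rw [val_ZFSet] at hv
    exact (huniq k _ y (hpU _ hu _ (hpU _ hp _ (hKU x hx))) ((app_ZFSet _ _ _ _).2 hv)).symm

end Pool.Agent.H43L
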