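import Pool.Agent.Lib.H43L.T0

/-!
# Chunk T3: from `ZData` to data on a small type

`X = Shrink.{0} {x // x ∈ U}` with the equivalence `equivShrink`; `r`, `g`, `p`, `K` are transported.
`IsWellOrder`: trichotomous, transitive, well-founded (`ZData.wf`; `WellFounded.wellFounded_iff_has_min`).
In `cond` a subset `S` of `X` gives the class of all `x ∈ U` whose image in `X` is in `S`; if `S` is empty take
`f = id`; (the function `f` of `ZData.cond` maps elements of the class to `U`; elsewhere define the new `f` arbitrarily).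
`small`, `large`: injections between types (`Cardinal.mk_le_of_injective`, `Cardinal.le_def`); `large` by contradiction:
an injection `X ↪ K` gives a function on `ZFSet` (define it by cases `x ∈ U`).
-/

set_option autoImplicit false

open Set Function Cardinal

namespace Pool.Agent.H43L

theorem t3_main {U R K : ZFSet.{0}} {g : ℕ → ZFSet.{0} → ZFSet.{0}} (h : ZData U R K g)
    {X : Type} (v : X → ZFSet.{0}) (hv : Injective v) (hU : ∀ x, v x ∈ U)
    (ι : ∀ z, z ∈ U → X) (hι : ∀ z hz, v (ι z hz) = z) :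
    AData (fun x y => ZFSet.pair (v x) (v y) ∈ R) (fun n x => ι (g n (v x)) (h.app n _ (hU x)))
      (fun x y => ι (ZFSet.pair (v x) (v y)) (h.pair _ (hU x) _ (hU y))) {x | v x ∈ K} where
  wo := by
    have hwf : WellFounded fun x y => ZFSet.pair (v x) (v y) ∈ R := by
      rw [WellFounded.wellFounded_iff_has_min]
      rintro s ⟨x, hx⟩
      obtain ⟨m, hm, ⟨x', hx', rfl⟩, hmin⟩ := h.wf (fun z => ∃ x ∈ s, v x = z)
        ⟨v x, hU x, x, hx, rfl⟩
      exact ⟨x', hx', fun y hy => hmin (v y) (hU y) ⟨y, hy, rfl⟩⟩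
    refine { toIsWellFounded := ⟨hwf⟩, trichotomous := ?_ }
    intro x y h1 h2
    by_contra hne
    rcases h.total (v x) (hU x) (v y) (hU y) (fun e => hne (hv e)) with h3 | h3
    · exact h1 h3
    · exact h2 h3
  cond := by
    classical
    intro S hg hp
    obtain ⟨f, f1, f2, f3, f4, f5⟩ := h.cond (fun z => ∃ x ∈ S, v x = z)
      (by rintro _ ⟨x, _, rfl⟩; exact hU x)
      (by
        rintro n _ ⟨x, hx, rfl⟩
        exact ⟨_, hg n x hx, hι _ _⟩)
      (by
        rintro _ _ ⟨x, hx, rfl⟩ ⟨y, hy, rfl⟩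
        exact ⟨_, hp x hx y hy, hι _ _⟩)
    let f' : X → X := fun x => if hx : f (v x) ∈ U then ι (f (v x)) hx else x
    have hf' : ∀ x ∈ S, v (f' x) = f (v x) := by
      intro x hx
      have h1 : f (v x) ∈ U := f1 _ ⟨x, hx, rfl⟩
      simp only [f', dif_pos h1]
      exact hι _ _
    refine ⟨f', ?_, ?_, ?_, ?_⟩
    · intro x hx y hy hxy
      simp only [hf' x hx, hf' y hy]
      exact f2 _ _ ⟨x, hx, rfl⟩ ⟨y, hy, rfl⟩ hxy
    · intro x hx z hz
      simp only [hf' x hx] at hz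
      obtain ⟨_, ⟨y', hy', rfl⟩, hy⟩ := f3 _ ⟨x, hx, rfl⟩ _ (hU z) hz
      exact ⟨y', hy', hv (by rw [hf' y' hy', hy])⟩
    · intro n x hx
      apply hv
      rw [hf' _ (hg n x hx), hι, hι, f4 n _ ⟨x, hx, rfl⟩, hf' x hx]
    · intro x hx y hy
      apply hv
      rw [hf' _ (hp x hx y hy), hι, hι, f5 _ _ ⟨x, hx, rfl⟩ ⟨y, hy, rfl⟩, hf' x hx, hf' y hy]
  init := fun x hx y hy => h.init _ hx _ (hU y) hy
  limit := by
    obtain ⟨a, ha, ⟨x, hx, hxa⟩, h2⟩ := h.limit
    have haU := h.sub a ha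
    refine ⟨ι a haU, ?_, ⟨ι x hx, ?_⟩, ?_⟩
    · rw [Set.mem_ofPred_eq, hι]; exact ha
    · rw [hι, hι]; exact hxa
    · intro z hz
      rw [hι] at hz
      obtain ⟨y, hy, h3, h4⟩ := h2 _ (hU z) hz
      exact ⟨ι y hy, by rw [hι]; exact h3, by rw [hι, hι]; exact h4⟩
  cluster := by
    intro F
    obtain ⟨b, hb⟩ := h.cluster fun i x => ∃ i' x', v i' = i ∧ v x' = x ∧ x' ∈ F i'
    refine ⟨{x | b (v x)}, fun a ha => ?_⟩
    obtain ⟨i, hi, hai, h2⟩ := hb (v a) ha
    have hiU := h.sub i hi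
    refine ⟨ι i hiU, ?_, ?_, ?_⟩
    · rw [Set.mem_ofPred_eq, hι]; exact hi
    · rw [hι]; exact hai
    · intro x hx
      rw [Set.mem_ofPred_eq, h2 _ (hU x) hx]
      constructor
      · rintro ⟨i', x', h3, h4, h5⟩
        rw [← hv h4]
        have : i' = ι i hiU := hv (by rw [hι]; exact h3)
        rw [← this]
        exact h5
      · intro h3
        exact ⟨_, x, hι _ _, rfl, h3⟩
  small := by
    intro x
    obtain ⟨f, f1, f2⟩ := h.small (v x) (hU x)
    let j : {y | ZFSet.pair (v y) (v x) ∈ R} → {x | v x ∈ K} := fun y =>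
      ⟨ι (f (v y.1)) (h.sub _ (f1 _ (hU _) y.2)), by
        rw [Set.mem_ofPred_eq, hι]; exact f1 _ (hU _) y.2⟩
    have hj : Injective j := by
      intro y y' hyy
      have h1 := congrArg v (congrArg Subtype.val hyy)
      simp only [j, hι] at h1
      exact Subtype.ext (hv (f2 _ (hU _) _ (hU _) y.2 y'.2 h1))
    exact mk_le_of_injective hj
  large := by
    classical
    rw [← not_le]
    intro hle
    obtain ⟨j⟩ := (Cardinal.le_def _ _).1 hle
    refine h.large (fun z => if hz : z ∈ U then v (j (ι z hz)).1 else z) ?_ ?_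
    · intro y hy
      simp only [dif_pos hy]
      exact (j (ι y hy)).2
    · intro y hy y' hy' hyy
      simp only [dif_pos hy, dif_pos hy'] at hyy
      have h1 := j.injective (Subtype.ext (hv hyy))
      have h2 := congrArg v h1
      rwa [hι, hι] at h2
  capture := by
    intro b hb
    obtain ⟨n, u, hu, p, hp, h2⟩ := h.capture (fun z => ∃ y ∈ b, v y = z) (by
      intro x hx
      have hxU := h.sub x hx
      obtain ⟨y, hy, hyb, hxy⟩ := hb (ι x hxU) (by rw [Set.mem_ofPred_eq, hι]; exact hx)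
      rw [hι] at hxy
      exact ⟨v y, hy, ⟨y, hyb, rfl⟩, hxy⟩)
    refine ⟨n, ι u hu, ι p hp, fun x hx => ?_⟩
    obtain ⟨_, hy, ⟨y', hyb, rfl⟩, h3, h4⟩ := h2 (v x) hx
    refine ⟨y', hy, hyb, h3, hv ?_⟩
    simp only [hι]
    exact h4

theorem exists_aData {U R K : ZFSet.{0}} {g : ℕ → ZFSet.{0} → ZFSet.{0}} (h : ZData U R K g) :
    ∃ (X : Type) (r : X → X → Prop) (g' : ℕ → X → X) (p : X → X → X) (K' : Set X),
      AData r g' p K' := by
  have hs : Small.{0} {x // x ∈ U} := inferInstance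
  let e := equivShrink.{0} {x // x ∈ U}
  exact ⟨_, _, _, _, _, t3_main h (fun x : Shrink.{0} {x // x ∈ U} => (e.symm x).1)
    (fun x y hxy => e.symm.injective (Subtype.ext hxy)) (fun x => (e.symm x).2)
    (fun z hz => e ⟨z, hz⟩) (fun z hz => by simp)⟩

end Pool.Agent.H43L
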