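import Pool.Agent.Lib.H43L.T0

/-!
# Chunk T4: the order type of the data

(a) `κ = #K`, `φ = Ordinal.typein r`.  `(typein r x).card = #{y | r y x} ≤ κ` gives `typein r x < (succ κ).ord` (`Cardinal.lt_ord`,
`Order.lt_succ_iff`), so `type r ≤ (succ κ).ord`; `(type r).card = #X ≥ succ κ` gives `(succ κ).ord ≤ type r`
(`Cardinal.ord_le`).  So every `o < (succ κ).ord` is a value of `typein r` (`Ordinal.typein_surj`).
-/

set_option autoImplicit false

universe u

open Set Function Cardinal

namespace Pool.Agent.H43L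

theorem exists_phi {X : Type u} {r : X → X → Prop} {g : ℕ → X → X} {p : X → X → X} {K : Set X}
    (h : AData r g p K) : ∃ φ : X → Ordinal.{u}, (∀ x y, r x y ↔ φ x < φ y) ∧
      (∀ x, φ x < (Order.succ (#K)).ord) ∧ ∀ o < (Order.succ (#K)).ord, ∃ x, φ x = o := by
  have hwo := h.wo
  have h1 : ∀ x, Ordinal.typein r x < (Order.succ (#K)).ord := by
    intro x
    rw [Cardinal.lt_ord, Order.lt_succ_iff]
    exact h.small x
  refine ⟨Ordinal.typein r, fun x y => ?_, h1, fun o ho => ?_⟩
  · exact (Ordinal.typein_lt_typein r).symm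
  · have h2 : (Order.succ (#K)).ord ≤ Ordinal.type r := by
      rw [Cardinal.ord_le, Ordinal.card_type]
      exact Order.succ_le_of_lt h.large
    exact Ordinal.typein_surj r (ho.trans_le h2)

end Pool.Agent.H43L
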