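import Pool.Agent.Lib.H43L.T4

/-!
# Chunk T5: `K` corresponds to the initial ordinal of an uncountable cardinal

Let `κ = #K`.  `K` is an initial segment of `(X, r)` (`h.init`); it is not everything (`h.large`).  Let `θ` be the least
ordinal which is not in `φ '' K`; then `x ∈ K ↔ φ x < θ` (initial segment, `φ` injective since `r` is total), and
`θ ≤ (succ κ).ord`; `θ.card = κ`.

Claim: there is no injective `j : K → X` all of whose values satisfy `φ (j x) < α` for an `α < θ`.  Suppose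
there is one; let `α = φ a`, `a ∈ K`.  Apply `h.cluster` to `F i = {j i}` (`i ∈ K`).  With `a` there is `i₁ ∈ K`, `r a i₁`, such that
`b` and `{j i₁}` agree below `a`, so `j i₁ ∈ b`.  With `i₁` there is `i₂ ∈ K`, `r i₁ i₂`, such that `b` and `{j i₂}` agree below
`i₁`; as `j i₁` is below `a`, hence below `i₁`, we get `j i₁ = j i₂`, so `i₁ = i₂`, a contradiction with `r i₁ i₂`.

Hence `θ` is an initial ordinal: if `κ.ord < θ` then with `α = κ.ord` there is an injection of `K` into the elements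
`x` with `φ x < κ.ord` (both have cardinality `κ`), a contradiction; `κ.ord ≤ θ` as `θ.card = κ`.  So `θ = κ.ord`.

`ℵ₀ < κ`: let `a` be as in `h.limit`.  The set of ordinals below `φ a` is nonempty without maximum, so `φ a` is a
limit ordinal `≥ ω` and `ω ≤ φ a < θ = κ.ord`.
-/

set_option autoImplicit false

universe u

open Set Function Cardinal

namespace Pool.Agent.H43L

theorem t5_noinj {X : Type u} {r : X → X → Prop} {g : ℕ → X → X} {p : X → X → X} {K : Set X}
    (h : AData r g p K) {φ : X → Ordinal.{u}} (h1 : ∀ x y, r x y ↔ φ x < φ y) (a : X) (ha : a ∈ K)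
    (j : K → X) (hj : Injective j) (hja : ∀ x, φ (j x) < φ a) : False := by
  obtain ⟨b, hb⟩ := h.cluster (fun i => {y | ∃ hi : i ∈ K, y = j ⟨i, hi⟩})
  obtain ⟨i₁, hi₁, hai₁, hb₁⟩ := hb a ha
  obtain ⟨i₂, hi₂, hii, hb₂⟩ := hb i₁ hi₁
  have e1 : j ⟨i₁, hi₁⟩ ∈ b := (hb₁ _ ((h1 _ _).2 (hja _))).2 ⟨hi₁, rfl⟩
  have e2 : r (j ⟨i₁, hi₁⟩) i₁ := (h1 _ _).2 ((hja _).trans ((h1 _ _).1 hai₁))
  obtain ⟨hi₂', e3⟩ := (hb₂ _ e2).1 e1
  have e4 := congrArg Subtype.val (hj e3)
  have e5 : i₁ = i₂ := e4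
  rw [e5] at hii
  exact lt_irrefl _ ((h1 _ _).1 hii)

theorem t5_card {X : Type u} {φ : X → Ordinal.{u}} (hφ : Injective φ) {c o : Ordinal.{u}}
    (h3 : ∀ o < c, ∃ x, φ x = o) (ho : o ≤ c) : #{x | φ x < o} = o.card := by
  have himg : φ '' {x | φ x < o} = Iio o := by
    ext e
    constructor
    · rintro ⟨x, hx, rfl⟩
      exact hx
    · intro he
      obtain ⟨x, rfl⟩ := h3 e (lt_of_lt_of_le he ho)
      exact ⟨x, he, rfl⟩
  have e1 := Cardinal.mk_image_eq_lift φ {x | φ x < o} hφ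
  rw [himg, Cardinal.mk_Iio_ordinal, Cardinal.lift_lift] at e1
  exact (Cardinal.lift_injective e1).symm

theorem mem_K_iff {X : Type u} {r : X → X → Prop} {g : ℕ → X → X} {p : X → X → X} {K : Set X}
    (h : AData r g p K) {φ : X → Ordinal.{u}} (h1 : ∀ x y, r x y ↔ φ x < φ y)
    (h2 : ∀ x, φ x < (Order.succ (#K)).ord) (h3 : ∀ o < (Order.succ (#K)).ord, ∃ x, φ x = o) :
    ℵ₀ < #K ∧ ∀ x, x ∈ K ↔ φ x < (#K).ord := by
  have := h.wo
  have hφ : Injective φ := by
    intro x y hxy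
    rcases trichotomous_of r x y with hr | hr | hr
    · exact absurd ((h1 _ _).1 hr) (by rw [hxy]; exact lt_irrefl _)
    · exact hr
    · exact absurd ((h1 _ _).1 hr) (by rw [hxy]; exact lt_irrefl _)
  have hne : (Order.succ (#K)).ord ∈ {o : Ordinal.{u} | o ∉ φ '' K} := by
    rintro ⟨x, -, hx⟩
    exact absurd (h2 x) (by rw [hx]; exact lt_irrefl _)
  let θ : Ordinal.{u} := sInf {o : Ordinal.{u} | o ∉ φ '' K}
  have hθ : θ ∉ φ '' K := csInf_mem (s := {o : Ordinal.{u} | o ∉ φ '' K}) ⟨_, hne⟩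
  have hθle : θ ≤ (Order.succ (#K)).ord := csInf_le' hne
  have hθlt : ∀ o < θ, o ∈ φ '' K := by
    intro o ho
    by_contra hc
    exact absurd (csInf_le' (s := {o : Ordinal.{u} | o ∉ φ '' K}) hc) (not_le_of_gt ho)
  have hK : ∀ x, x ∈ K ↔ φ x < θ := by
    intro x
    constructor
    · intro hx
      by_contra hc
      rcases lt_or_eq_of_le (not_lt.1 hc) with hc | hc
      · obtain ⟨y, hy⟩ := h3 θ (hc.trans (h2 x))
        refine hθ ⟨y, h.init x hx y ((h1 _ _).2 ?_), hy⟩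
        rw [hy]
        exact hc
      · exact hθ ⟨x, hx, hc.symm⟩
    · intro hx
      obtain ⟨y, hy, hyx⟩ := hθlt _ hx
      rwa [← hφ hyx]
  have hKset : K = {x | φ x < θ} := by
    ext x
    exact hK x
  have hcard : #K = θ.card := by
    have := t5_card hφ h3 hθle
    rw [← hKset] at this
    exact this
  have hθeq : θ = (#K).ord := by
    refine le_antisymm ?_ (Cardinal.ord_le.2 hcard.le)
    by_contra hc
    rw [not_le] at hc
    obtain ⟨a, ha, haθ⟩ := hθlt _ hc
    have e1 := t5_card hφ h3 (o := (#K).ord) (Cardinal.ord_le_ord.2 (Order.le_succ _))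
    rw [Cardinal.card_ord] at e1
    obtain ⟨e⟩ := Cardinal.eq.1 e1.symm
    refine t5_noinj h h1 a ha (fun x => (e x : X)) (fun x y hxy => e.injective (Subtype.ext hxy))
      fun x => ?_
    rw [haθ]
    exact (e x).2
  rw [← hθeq]
  refine ⟨?_, hK⟩
  obtain ⟨a, ha, ⟨x₀, hx₀⟩, hlim⟩ := h.limit
  have hl : Order.IsSuccLimit (φ a) := by
    rw [Ordinal.isSuccLimit_iff, Order.isSuccPrelimit_iff_succ_lt]
    refine ⟨?_, ?_⟩
    · intro h0
      have := (h1 _ _).1 hx₀
      rw [h0] at this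
      exact absurd this (not_lt_of_ge bot_le)
    · intro o ho
      obtain ⟨x, rfl⟩ := h3 o (ho.trans (h2 a))
      obtain ⟨y, hxy, hya⟩ := hlim x ((h1 _ _).2 ho)
      exact lt_of_le_of_lt (Order.succ_le_of_lt ((h1 _ _).1 hxy)) ((h1 _ _).1 hya)
  have hω : Ordinal.omega0 ≤ φ a := Ordinal.omega0_le_of_isSuccLimit hl
  have hlt : Ordinal.omega0 < (#K).ord := by
    rw [← hθeq]
    exact lt_of_le_of_lt hω ((hK a).1 ha)
  rwa [← Cardinal.ord_aleph0, Cardinal.ord_lt_ord] at hlt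

end Pool.Agent.H43L
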