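import Pool.Agent.Lib.H43L.T5

/-!
# Chunk T6: from data on a type to a cardinal and an algebra

`κ = #K`, `φ` from `exists_phi`, `ψ o` an element with `φ (ψ o) = o` for `o < (succ κ).ord` (choice), `φ` is injective
(`h.wo` is trichotomous).
(a) `Cluster κ`: the elements `x` of `K` correspond to the indices `ξ : Idx κ` by `φ x = num ξ` (`mem_K_iff`, `exists_num`,
`num_lt`).  From `F : Idx κ → Set (Idx κ)` make `F' i = {x | ∃ ξ, φ x = num ξ ∧ ξ ∈ F (the index of i)}`.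
(b) `𝒜.g n ξ = φ (g n (ψ ξ))` and `𝒜.p ξ η = φ (p (ψ ξ) (ψ η))` below `(succ κ).ord` (anything elsewhere, e.g. `0`).
`Cond`: for a set `S` of ordinals apply `h.cond` to `φ ⁻¹' S`.
(c) `Capture`: for `b ∈ Large κ` and `ξ : Idx κ` there is `η ∈ b`, `ξ < η` (otherwise `b ⊆ Iic ξ`, `mk_Iic_lt`), so the
hypothesis of `h.capture` holds for the set of all `x ∈ K` with `φ x = num η`, `η ∈ b`.
-/

set_option autoImplicit false

universe u

open Set Function Cardinal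

namespace Pool.Agent.H43L

open Pool.Agent.Helper43.KK (Idx num idx num_idx num_lt num_lt_num num_le_num num_inj exists_num
  Large mk_Iio_lt mk_Iic_lt)

theorem t6_phi {X : Type u} {r : X → X → Prop} {g : ℕ → X → X} {p : X → X → X}
    {K : Set X} (h : AData r g p K) : ∃ φ : X → Ordinal.{u}, (∀ x y, r x y ↔ φ x < φ y) ∧
      (∀ x, φ x < (Order.succ (#K)).ord) ∧ (∀ o < (Order.succ (#K)).ord, ∃ x, φ x = o) ∧
      (∀ x y, φ x = φ y → x = y) ∧ ℵ₀ < #K ∧ (∀ x, x ∈ K ↔ φ x < (#K).ord) ∧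
      ∀ ξ : Idx (#K), ∃ x, x ∈ K ∧ φ x = num ξ := by
  obtain ⟨φ, h1, h2, h3⟩ := exists_phi h
  obtain ⟨h4, h5⟩ := mem_K_iff h h1 h2 h3
  refine ⟨φ, h1, h2, h3, ?_, h4, h5, ?_⟩
  · intro x y hxy
    have := h.wo
    exact this.trichotomous x y (fun hr => absurd ((h1 x y).1 hr) (by rw [hxy]; exact lt_irrefl _))
      (fun hr => absurd ((h1 y x).1 hr) (by rw [hxy]; exact lt_irrefl _))
  · intro ξ
    have hle : (#K).ord ≤ (Order.succ (#K)).ord := ord_le_ord.2 (Order.le_succ _)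
    obtain ⟨x, hx⟩ := h3 (num ξ) ((num_lt ξ).trans_le hle)
    exact ⟨x, (h5 x).2 (by rw [hx]; exact num_lt ξ), hx⟩

theorem cluster_of_aData {X : Type u} {r : X → X → Prop} {g : ℕ → X → X} {p : X → X → X}
    {K : Set X} (h : AData r g p K) : Cluster (#K) := by
  obtain ⟨φ, h1, h2, h3, hinj, h4, h5, h6⟩ := t6_phi h
  intro F
  obtain ⟨b', hb'⟩ := h.cluster fun i => {x | ∃ ξ : Idx (#K), φ x = num ξ ∧
    ∃ ι : Idx (#K), φ i = num ι ∧ ξ ∈ F ι}
  refine ⟨{ξ | ∃ x, φ x = num ξ ∧ x ∈ b'}, fun α => ?_⟩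
  obtain ⟨a, haK, ha⟩ := h6 α
  obtain ⟨i, hiK, hai, hi⟩ := hb' a haK
  obtain ⟨ι, hι⟩ := exists_num ((h5 i).1 hiK)
  refine ⟨ι, ?_, fun ξ hξ => ?_⟩
  · rw [← num_lt_num, ← ha, hι]
    exact (h1 _ _).1 hai
  · obtain ⟨x, hxK, hx⟩ := h6 ξ
    have hxa : r x a := (h1 _ _).2 (by rw [hx, ha]; exact num_lt_num.2 hξ)
    have e1 : (ξ ∈ {ξ | ∃ x, φ x = num ξ ∧ x ∈ b'}) ↔ x ∈ b' := by
      constructor
      · rintro ⟨x', hx', hb⟩
        rw [hinj x x' (by rw [hx, hx'])]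
        exact hb
      · exact fun hb => ⟨x, hx, hb⟩
    rw [e1, hi x hxa]
    constructor
    · rintro ⟨ξ', h7, ι', h8, h9⟩
      rw [hx] at h7
      rw [← hι] at h8
      rw [num_inj.1 h7, num_inj.1 h8]
      exact h9
    · intro h7
      exact ⟨ξ, hx, ι, hι.symm, h7⟩

end Pool.Agent.H43L
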