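import Pool.Agent.Lib.H43L.T5

/-!
# Chunk T7: from data on a type to an algebra on the ordinals

See the plan in file T6, items (b), (c).
-/

set_option autoImplicit false

universe u

open Set Function Cardinal

namespace Pool.Agent.H43L

open Pool.Agent.Helper43.KK (Idx num idx num_idx num_lt num_lt_num num_le_num num_inj exists_num
  Large mk_Iio_lt mk_Iic_lt)

theorem t7_phi {X : Type u} {r : X → X → Prop} {g : ℕ → X → X} {p : X → X → X}
    {K : Set X} (h : AData r g p K) : ∃ φ : X → Ordinal.{u}, (∀ x y, r x y ↔ φ x < φ y) ∧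
      (∀ x, φ x < (Order.succ (#K)).ord) ∧ (∀ o < (Order.succ (#K)).ord, ∃ x, φ x = o) ∧
      (∀ x y, φ x = φ y → x = y) ∧ ℵ₀ < #K ∧ (∀ x, x ∈ K ↔ φ x < (#K).ord) ∧
      ∀ ξ : Idx (#K), ∃ x, x ∈ K ∧ φ x = num ξ := by
  obtain ⟨φ, h1, h2, h3⟩ := exists_phi h
  obtain ⟨h4, h5⟩ := mem_K_iff h h1 h2 h3
  refine ⟨φ, h1, h2, h3, ?_, h4, h5, ?_⟩
  · intro x y hxy
    have := h.wo
    exact this.trichotomous x y (fun hr => absurd ((h1 x y).1 hr) (by rw [hxy]; exact lt_irrefl _))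
      (fun hr => absurd ((h1 y x).1 hr) (by rw [hxy]; exact lt_irrefl _))
  · intro ξ
    have hle : (#K).ord ≤ (Order.succ (#K)).ord := ord_le_ord.2 (Order.le_succ _)
    obtain ⟨x, hx⟩ := h3 (num ξ) ((num_lt ξ).trans_le hle)
    exact ⟨x, (h5 x).2 (by rw [hx]; exact num_lt ξ), hx⟩

theorem exists_alg_of_aData {X : Type u} {r : X → X → Prop} {g : ℕ → X → X} {p : X → X → X}
    {K : Set X} (h : AData r g p K) :
    ∃ 𝒜 : Alg.{u}, 𝒜.Cond (Order.succ (#K)).ord ∧ Capture 𝒜 (#K) := by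
  obtain ⟨φ, h1, h2, h3, hinj, h4, h5, h6⟩ := t7_phi h
  have hne : Nonempty X := by
    obtain ⟨a, -, -⟩ := h.limit
    exact ⟨a⟩
  have hex : ∀ o : Ordinal.{u}, ∃ x, o < (Order.succ (#K)).ord → φ x = o := by
    intro o
    by_cases ho : o < (Order.succ (#K)).ord
    · obtain ⟨x, hx⟩ := h3 o ho
      exact ⟨x, fun _ => hx⟩
    · exact ⟨Classical.choice hne, fun h => absurd h ho⟩
  choose ψ hψ using hex
  have hψφ : ∀ x, ψ (φ x) = x := fun x => hinj _ _ (hψ _ (h2 x))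
  refine ⟨⟨fun n o => φ (g n (ψ o)), fun a b => φ (p (ψ a) (ψ b))⟩, ⟨⟨?_, ?_⟩, ?_⟩, ?_⟩
  · exact fun n x _ => h2 _
  · exact fun x _ y _ => h2 _
  · intro S hS _ hcl
    have hSψ : ∀ x ∈ S, φ (ψ x) = x := fun x hx => hψ x (hS hx)
    obtain ⟨f, f1, f2, f3, f4⟩ := h.cond {x | φ x ∈ S}
      (by
        intro n x hx
        have := hcl.g n _ hx
        simp only [hψφ] at this
        exact this)
      (by
        intro x hx y hy
        have := hcl.p _ hx _ hy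
        simp only [hψφ] at this
        exact this)
    have hmem : ∀ x ∈ S, ψ x ∈ {x | φ x ∈ S} := fun x hx => by
      rw [Set.mem_ofPred_eq, hSψ x hx]; exact hx
    refine ⟨fun o => φ (f (ψ o)), ⟨?_, ?_, ?_, ?_⟩⟩
    · intro x hx y hy hxy
      rw [← h1]
      refine f1 _ (hmem x hx) _ (hmem y hy) ((h1 _ _).2 ?_)
      rw [hSψ x hx, hSψ y hy]
      exact hxy
    · intro x hx z hz
      have hzl : z < (Order.succ (#K)).ord := lt_trans hz (h2 _)
      obtain ⟨y, hy, hyz⟩ := f2 _ (hmem x hx) (ψ z) ((h1 _ _).2 (by rw [hψ z hzl]; exact hz))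
      refine ⟨φ y, hy, ?_⟩
      simp only [hψφ]
      rw [hyz, hψ z hzl]
    · intro n x hx
      simp only [hψφ]
      rw [f3 n _ (hmem x hx)]
    · intro x hx y hy
      simp only [hψφ]
      rw [f4 _ (hmem x hx) _ (hmem y hy)]
  · intro b hb
    obtain ⟨n, u, p', hn⟩ := h.capture {x | ∃ η ∈ b, φ x = num η} (by
      intro x hx
      obtain ⟨ξ, hξ⟩ := exists_num ((h5 x).1 hx)
      have hη : ∃ η ∈ b, ξ < η := by
        by_contra hcon
        push Not at hcon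
        have h7 : b ⊆ Iic ξ := fun η hη => hcon η hη
        have h8 := mk_le_mk_of_subset h7
        have h9 := mk_Iic_lt h4.le ξ
        rw [show #b = #K from hb] at h8
        exact absurd (h8.trans_lt h9) (lt_irrefl _)
      obtain ⟨η, hηb, hξη⟩ := hη
      obtain ⟨y, hyK, hy⟩ := h6 η
      exact ⟨y, hyK, ⟨η, hηb, hy⟩, (h1 _ _).2 (by rw [← hξ, hy]; exact num_lt_num.2 hξη)⟩)
    refine ⟨n, φ u, φ p', h2 _, h2 _, fun ξ => ?_⟩
    obtain ⟨x, hxK, hx⟩ := h6 ξ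
    obtain ⟨y, hyK, ⟨η, hηb, hy⟩, hxy, hval⟩ := hn x hxK
    refine ⟨η, hηb, ?_, ?_⟩
    · rw [← num_lt_num, ← hx, ← hy]
      exact (h1 _ _).1 hxy
    · rw [← hx, ← hy]
      simp only [hψφ]
      rw [hval]

end Pool.Agent.H43L
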