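import Pool.Agent.Lib.H43L.W0

/-!
# Chunk W2: the cluster property implies strong limit

Suppose `μ < κ ≤ 2 ^ μ`.  Let `λ₀ : Idx κ` be the index with `num λ₀ = μ.ord`.  There is an injection
`F : Idx κ → Set (Idx κ)` whose values are subsets of `[0, λ₀)` (which has cardinality `μ`).  Let `b` be a cluster
point.  With `α = λ₀` there is `i₁ > λ₀` with `b ∩ [0, λ₀) = F i₁`, with `α = i₁` there is `i₂ > i₁` with `b ∩ [0, i₁) = F i₂ ∩ [0, i₁)`,
so `b ∩ [0, λ₀) = F i₂`.  So `F i₁ = F i₂`, a contradiction.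
-/

set_option autoImplicit false

universe u

namespace Pool.Agent.H43L

open Set Cardinal
open Pool.Agent.Helper43.KK (Idx num idx num_idx num_lt num_lt_num num_le_num num_inj exists_num)

theorem w2_le_mk_Iio {κ μ : Cardinal.{u}} (hμ : μ < κ) (l : Idx κ) (hl : num l = μ.ord) :
    μ ≤ #(Iio l) := by
  have hlt : ∀ x : μ.ord.ToType, ((Ordinal.ToType.toOrd x : Iio μ.ord) : Ordinal.{u}) < κ.ord := by
    intro x
    exact (Ordinal.ToType.toOrd x).2.trans (Cardinal.ord_lt_ord.2 hμ)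
  have hinj : Function.Injective (fun x : μ.ord.ToType =>
      (⟨idx ((Ordinal.ToType.toOrd x : Iio μ.ord) : Ordinal.{u}) (hlt x), by
        rw [mem_Iio, ← num_lt_num, num_idx, hl]
        exact (Ordinal.ToType.toOrd x).2⟩ : Iio l)) := by
    intro a b hab
    have h1 := congrArg (fun z : Iio l => num z.1) hab
    simp only [num_idx] at h1
    exact Ordinal.ToType.mk.symm.injective (Subtype.ext h1)
  have h2 := Cardinal.mk_le_of_injective hinj
  rwa [Cardinal.mk_ord_toType] at h2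

theorem isStrongLimit_of_cluster {κ : Cardinal.{u}} (hκ : ℵ₀ < κ) (h : Cluster κ) :
    κ.IsStrongLimit := by
  refine ⟨(Cardinal.aleph0_pos.trans hκ).ne', fun μ hμ => ?_⟩
  by_contra hcon
  rw [not_lt] at hcon
  obtain ⟨l, hl⟩ := exists_num (κ := κ) (x := μ.ord) (Cardinal.ord_lt_ord.2 hμ)
  have h1 : #(Idx κ) ≤ #(Set (Iio l)) := by
    rw [Cardinal.mk_set]
    have h2 : #(Idx κ) = κ := by simp [Idx]
    rw [h2]
    exact hcon.trans (Cardinal.power_le_power_left two_ne_zero (w2_le_mk_Iio hμ l hl))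
  obtain ⟨F₀⟩ : Nonempty (Idx κ ↪ Set (Iio l)) := h1
  obtain ⟨b, hb⟩ := h (fun i => Subtype.val '' (F₀ i))
  obtain ⟨i₁, hi₁, h₁⟩ := hb l
  obtain ⟨i₂, hi₂, h₂⟩ := hb i₁
  have hval : ∀ (s : Set (Iio l)) (x : Iio l), (x : Idx κ) ∈ Subtype.val '' s ↔ x ∈ s := by
    intro s x
    constructor
    · rintro ⟨y, hy, hyx⟩
      rwa [← Subtype.ext hyx]
    · intro hx
      exact ⟨x, hx, rfl⟩
  have h3 : F₀ i₁ = F₀ i₂ := by
    ext x
    rw [← hval (F₀ i₁) x, ← hval (F₀ i₂) x]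
    exact (h₁ x x.2).symm.trans (h₂ x (x.2.trans hi₁))
  exact hi₂.ne (F₀.injective h3)

end Pool.Agent.H43L
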