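import Pool.Agent.Lib.H43L.W1
import Pool.Agent.Lib.H43L.W2

/-!
# Chunk W3: the cluster property implies weak compactness

Let `𝒰` be an open cover of the power set of `Idx κ` without a subcover of cardinality `< κ`.
For `α : Idx κ` and `s` write `[s]_α = {y | ∀ ξ < α, ξ ∈ y ↔ ξ ∈ s}`.
(1) For every `x` there are `α` and `U ∈ 𝒰` with `[x]_α ⊆ U`: `exists_box` (file Helper49/KKCompact) gives a set `A` with
`#A < κ`, which is bounded since `κ` is regular (`exists_ub`, file Helper43/KK/Bnum).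
(2) For every `α` there is `s` such that `[s]_α` is not contained in any `U ∈ 𝒰`: otherwise choose `U s ∈ 𝒰` for all
`s ⊆ [0, α)`; these are at most `2 ^ #[0, α) < κ` sets (`mk_Iio_lt`, strong limit), and they cover.
Choose such `F α` for all `α`, let `b` be a cluster point, let `α` and `U` be as in (1) for `b`.  There is `i > α` with
`b`, `F i` equal below `α`; then `[F i]_i ⊆ [F i]_α = [b]_α ⊆ U`, a contradiction.
-/

set_option autoImplicit false

universe u

namespace Pool.Agent.H43L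

open Set Cardinal
open Pool.Agent.Helper43.KK (Idx num idx num_idx num_lt num_lt_num num_le_num num_inj exists_num
  IsWeaklyCompact IsKappaCompact boundedTopology exists_box exists_ub mk_Iio_lt)

theorem isWeaklyCompact_of_cluster {κ : Cardinal.{u}} (hκ : ℵ₀ < κ) (h : Cluster κ) :
    IsWeaklyCompact κ := by
  classical
  have hreg := isRegular_of_cluster hκ h
  have hsl := isStrongLimit_of_cluster hκ h
  refine ⟨hκ, fun 𝒰 h𝒰 hcov => ?_⟩
  by_contra hno
  have h1 : ∀ x : Set (Idx κ), ∃ α : Idx κ, ∃ U ∈ 𝒰, ∀ y : Set (Idx κ),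
      (∀ ξ, ξ < α → (ξ ∈ y ↔ ξ ∈ x)) → y ∈ U := by
    intro x
    obtain ⟨U, hU, hxU⟩ := hcov (mem_univ x)
    obtain ⟨A, hA, hA'⟩ := exists_box hκ.le (h𝒰 U hU) x hxU
    obtain ⟨α, hα⟩ := exists_ub hreg hA
    refine ⟨α, U, hU, fun y hy => hA' y ?_⟩
    ext ξ
    constructor
    · rintro ⟨ha, hb⟩
      exact ⟨(hy ξ (hα ξ hb)).1 ha, hb⟩
    · rintro ⟨ha, hb⟩
      exact ⟨(hy ξ (hα ξ hb)).2 ha, hb⟩
  have h2 : ∀ α : Idx κ, ∃ s : Set (Idx κ), ∀ U ∈ 𝒰,
      ¬ ∀ y : Set (Idx κ), (∀ ξ, ξ < α → (ξ ∈ y ↔ ξ ∈ s)) → y ∈ U := by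
    intro α
    by_contra hcon
    push Not at hcon
    choose U hU hsub using hcon
    refine hno ⟨range fun t : Set (Iio α) => U (Subtype.val '' t), ?_, ?_, ?_⟩
    · rintro _ ⟨t, rfl⟩
      exact hU _
    · refine mk_range_le.trans_lt ?_
      rw [Cardinal.mk_set]
      exact hsl.two_power_lt (mk_Iio_lt α)
    · intro x _
      refine ⟨U (Subtype.val '' {z : Iio α | (z : Idx κ) ∈ x}), ⟨_, rfl⟩, hsub _ x fun ξ hξ => ?_⟩
      constructor
      · intro hx
        exact ⟨⟨ξ, hξ⟩, hx, rfl⟩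
      · rintro ⟨z, hz, rfl⟩
        exact hz
  choose F hF using h2
  obtain ⟨b, hb⟩ := h F
  obtain ⟨α, U, hU, hUb⟩ := h1 b
  obtain ⟨i, hi, hib⟩ := hb α
  refine hF i U hU fun y hy => hUb y fun ξ hξ => ?_
  exact (hy ξ (hξ.trans hi)).trans (hib ξ hξ).symm

end Pool.Agent.H43L
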