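import Pool.Agent.Lib.H43L.T2
import Pool.Agent.Lib.H43L.T3
import Pool.Agent.Lib.H43L.T6
import Pool.Agent.Lib.H43L.T7
import Pool.Agent.Lib.H43L.W3

/-!
# The sentence in the universe of sets gives a scale
-/

set_option autoImplicit false

open Set Function Cardinal

namespace Pool.Agent.H43L

open Pool.Agent.Helper43.KK (IsWeaklyCompact IsScale IsKKappa FinKappa)

theorem exists_scale_of_condIn (h : CondIn (fun x y : ZFSet.{0} => x ∈ y)) :
    ∃ κ : Cardinal.{0}, IsWeaklyCompact κ ∧ ∃ X, IsScale κ X ∧ IsKKappa κ (X ∪ FinKappa κ) := by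
  obtain ⟨w, U, R, G, K, h⟩ := h
  obtain ⟨g, hg⟩ := exists_zData h
  obtain ⟨X, r, g', p, K', h'⟩ := exists_aData hg
  obtain ⟨φ, h1, h2, h3⟩ := exists_phi h'
  have hw : IsWeaklyCompact (#K') :=
    isWeaklyCompact_of_cluster (mem_K_iff h' h1 h2 h3).1 (cluster_of_aData h')
  obtain ⟨𝒜, hA, hC⟩ := exists_alg_of_aData h'
  exact ⟨#K', hw, exists_scale_of_alg hw hA hC⟩

end Pool.Agent.H43L
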