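import Pool.Agent.Lib.H94L.Main

/-!
# Uniformly definable predicates and their closure properties

Copy of `H94L.Dfn` with one formula for all classes `A` of a collection `C`.
-/

set_option autoImplicit false

open Set Function

namespace Pool.Agent.H43L

open Pool.Agent.H94L

/-- `P` is uniformly definable over the structures `(A, ∈, TT, WW)`, `A` in the collection `C` -/
def UD (C : (ZFSet.{0} → Prop) → Prop) (P : (ZFSet.{0} → Prop) → (ℕ → ZFSet.{0}) → Prop) : Prop :=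
  ∃ φ : LF, ∀ A, C A → ∀ v, (∀ i, A (v i)) → (P A v ↔ SatL A φ v)

section

variable {C : (ZFSet.{0} → Prop) → Prop} {P Q : (ZFSet.{0} → Prop) → (ℕ → ZFSet.{0}) → Prop}

theorem UD.congr (hQ : UD C Q) (h : ∀ A, C A → ∀ v, (∀ i, A (v i)) → (P A v ↔ Q A v)) : UD C P := by
  obtain ⟨φ, hφ⟩ := hQ
  exact ⟨φ, fun A hA v hv => (h A hA v hv).trans (hφ A hA v hv)⟩

theorem UD.sat (φ : LF) : UD C fun A => SatL A φ := ⟨φ, fun _ _ _ _ => Iff.rfl⟩

theorem UD.mem (i j : ℕ) : UD C fun _ v => v i ∈ v j := ⟨LF.mem i j, fun _ _ _ _ => Iff.rfl⟩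

theorem UD.eq (i j : ℕ) : UD C fun _ v => v i = v j := ⟨LF.eq i j, fun _ _ _ _ => Iff.rfl⟩

theorem UD.tt (i j k l m : ℕ) : UD C fun _ v => TT (v i) (v j) (v k) (v l) (v m) :=
  ⟨LF.tr i j k l m, fun _ _ _ _ => Iff.rfl⟩

theorem UD.ww (i j : ℕ) : UD C fun _ v => WW (v i) (v j) := ⟨LF.wo i j, fun _ _ _ _ => Iff.rfl⟩

theorem UD.imp (hP : UD C P) (hQ : UD C Q) : UD C fun A v => P A v → Q A v := by
  obtain ⟨φ, hφ⟩ := hP
  obtain ⟨ψ, hψ⟩ := hQ
  exact ⟨LF.imp φ ψ, fun A hA v hv => imp_congr (hφ A hA v hv) (hψ A hA v hv)⟩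

theorem UD.const (p : Prop) : UD C fun _ _ => p := by
  by_cases hp : p
  · exact ⟨LF.imp LF.bot LF.bot, fun A _ v _ => ⟨fun _ h => h, fun _ => hp⟩⟩
  · exact ⟨LF.bot, fun A _ v _ => ⟨fun h => hp h, fun h => h.elim⟩⟩

theorem UD.not (hP : UD C P) : UD C fun A v => ¬ P A v :=
  (hP.imp (UD.const False)).congr fun _ _ _ _ => Iff.rfl

theorem UD.and (hP : UD C P) (hQ : UD C Q) : UD C fun A v => P A v ∧ Q A v :=
  (hP.imp hQ.not).not.congr fun A _ v _ => by tauto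

theorem UD.or (hP : UD C P) (hQ : UD C Q) : UD C fun A v => P A v ∨ Q A v :=
  (hP.not.imp hQ).congr fun A _ v _ => by tauto

theorem UD.iff (hP : UD C P) (hQ : UD C Q) : UD C fun A v => (P A v ↔ Q A v) :=
  ((hP.imp hQ).and (hQ.imp hP)).congr fun A _ v _ => by tauto

theorem UD.all (hP : UD C P) : UD C fun A v => ∀ a, A a → P A (cons a v) := by
  obtain ⟨φ, hφ⟩ := hP
  set g : ℕ → ℕ := fun n => if n = 0 then φ.bd else n - 1 with hg
  refine ⟨LF.all φ.bd (φ.sub g), fun A hA v hv => ?_⟩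
  refine forall_congr' fun a => imp_congr_right fun ha => ?_
  rw [hφ A hA _ (cons_mem ha hv)]
  refine ((SatL_sub A φ g _).trans (SatL_congr A φ _ _ fun j hj => ?_)).symm
  cases j with
  | zero => simp [hg, cons]
  | succ n =>
    have h1 : g (n + 1) = n := by simp [hg]
    rw [comp_apply, h1, update_of_ne (by omega)]
    rfl

theorem UD.ex (hP : UD C P) : UD C fun A v => ∃ a, A a ∧ P A (cons a v) :=
  hP.not.all.not.congr fun A _ v _ => by
    constructor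
    · rintro ⟨a, ha, h⟩ h'
      exact h' a ha h
    · intro h
      by_contra hc
      exact h fun a ha h' => hc ⟨a, ha, h'⟩

theorem UD.comp (hP : UD C P) (f : ℕ → ℕ) : UD C fun A v => P A (v ∘ f) := by
  obtain ⟨φ, hφ⟩ := hP
  exact ⟨φ.sub f, fun A hA v hv => (hφ A hA _ fun i => hv (f i)).trans (SatL_sub A φ f v).symm⟩

theorem UD.comp1 {R : ZFSet.{0} → Prop} (h : UD C fun _ v => R (v 0)) (i : ℕ) :
    UD C fun _ v => R (v i) := h.comp fun _ => i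

theorem UD.comp2 {R : ZFSet.{0} → ZFSet.{0} → Prop} (h : UD C fun _ v => R (v 0) (v 1))
    (i j : ℕ) : UD C fun _ v => R (v i) (v j) :=
  h.comp fun n => match n with
    | 0 => i
    | _ => j

theorem UD.comp3 {R : ZFSet.{0} → ZFSet.{0} → ZFSet.{0} → Prop}
    (h : UD C fun _ v => R (v 0) (v 1) (v 2)) (i j k : ℕ) :
    UD C fun _ v => R (v i) (v j) (v k) :=
  h.comp fun n => match n with
    | 0 => i
    | 1 => j
    | _ => k

theorem UD.comp4 {R : ZFSet.{0} → ZFSet.{0} → ZFSet.{0} → ZFSet.{0} → Prop}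
    (h : UD C fun _ v => R (v 0) (v 1) (v 2) (v 3)) (i j k l : ℕ) :
    UD C fun _ v => R (v i) (v j) (v k) (v l) :=
  h.comp fun n => match n with
    | 0 => i
    | 1 => j
    | 2 => k
    | _ => l

theorem UD.comp5 {R : ZFSet.{0} → ZFSet.{0} → ZFSet.{0} → ZFSet.{0} → ZFSet.{0} → Prop}
    (h : UD C fun _ v => R (v 0) (v 1) (v 2) (v 3) (v 4)) (i j k l m : ℕ) :
    UD C fun _ v => R (v i) (v j) (v k) (v l) (v m) :=
  h.comp fun n => match n with
    | 0 => i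
    | 1 => j
    | 2 => k
    | 3 => l
    | _ => m

theorem UD.dfn (hP : UD C P) {A : ZFSet.{0} → Prop} (hA : C A) : Dfn A (P A) := by
  obtain ⟨φ, hφ⟩ := hP
  exact ⟨φ, hφ A hA⟩

theorem UD.mono {C' : (ZFSet.{0} → Prop) → Prop} (hP : UD C P) (h : ∀ A, C' A → C A) :
    UD C' P := by
  obtain ⟨φ, hφ⟩ := hP
  exact ⟨φ, fun A hA => hφ A (h A hA)⟩

/-- Uniformly definable predicates are preserved by the collapse. -/
theorem UD.coll (hP : UD C P) {δ γ : Ordinal.{0}} {N : ZFSet.{0} → Prop} (hδ : C (cl (Lev δ)))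
    (hγ : C (cl (Lev γ))) (h1 : ∀ w, w ∈ Lev γ ↔ ∃ y, N y ∧ w = H94L.coll N y)
    (h2 : ∀ (φ : LF) (v : ℕ → ZFSet.{0}), (∀ i, N (v i)) →
      (SatL (cl (Lev γ)) φ (H94L.coll N ∘ v) ↔ SatL (cl (Lev δ)) φ v))
    (hN : ∀ x, N x → x ∈ Lev δ) (v : ℕ → ZFSet.{0}) (hv : ∀ i, N (v i)) :
    P (cl (Lev γ)) (H94L.coll N ∘ v) ↔ P (cl (Lev δ)) v := by
  obtain ⟨φ, hφ⟩ := hP
  rw [hφ _ hδ v fun i => hN _ (hv i), hφ _ hγ (H94L.coll N ∘ v) fun i => (h1 _).2 ⟨v i, hv i, rfl⟩]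
  exact h2 φ v hv

end

end Pool.Agent.H43L
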