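import Pool.Agent.Lib.H43L.U1

/-!
# Uniform definability of elementary notions over nice classes

Copy of `H94L.DfnS`.
-/

set_option autoImplicit false

open Set Function

namespace Pool.Agent.H43L

open Pool.Agent.H94L

theorem ud_sub (i j : ℕ) : UD Nice fun _ v => v i ⊆ v j := by
  refine (UD.all ((UD.mem 0 (i + 1)).imp (UD.mem 0 (j + 1)))).congr ?_
  intro A hA v hv
  constructor
  · intro h a _ ha
    exact h ha
  · intro h a ha
    exact h a (hA.trans _ _ (hv i) ha) ha

theorem ud_empty (i : ℕ) : UD Nice fun _ v => v i = ∅ := by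
  refine (UD.all (UD.mem 0 (i + 1)).not).congr ?_
  intro A hA v hv
  constructor
  · intro h a _ ha
    have ha' : a ∈ v i := ha
    rw [h] at ha'
    exact ZFSet.notMem_empty _ ha'
  · intro h
    rw [ZFSet.eq_empty]
    intro a ha
    exact h a (hA.trans _ _ (hv i) ha) ha

theorem ud_upair (i j k : ℕ) :
    UD Nice fun _ v => v i = ({v j, v k} : ZFSet.{0}) := by
  refine (UD.all ((UD.mem 0 (i + 1)).iff ((UD.eq 0 (j + 1)).or (UD.eq 0 (k + 1))))).congr ?_
  intro A hA v hv
  constructor
  · intro h a _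
    show a ∈ v i ↔ a = v j ∨ a = v k
    rw [h, ZFSet.mem_pair]
  · intro h
    ext a
    rw [ZFSet.mem_pair]
    constructor
    · intro ha
      exact (h a (hA.trans _ _ (hv i) ha)).1 ha
    · intro ha
      refine (h a ?_).2 ha
      rcases ha with rfl | rfl
      · exact hv j
      · exact hv k

theorem ud_pair (i j k : ℕ) : UD Nice fun _ v => v i = ZFSet.pair (v j) (v k) := by
  refine (UD.ex ((ud_upair 0 (j + 1) (j + 1)).and (UD.ex
    ((ud_upair 0 (j + 2) (k + 2)).and (ud_upair (i + 2) 1 0))))).congr ?_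
  intro A hA v hv
  have hs : ∀ x : ZFSet.{0}, ({x, x} : ZFSet.{0}) = {x} := by
    intro x
    ext z
    simp
  constructor
  · intro h
    refine ⟨{v j, v j}, hA.pair _ _ (hv j) (hv j), rfl, {v j, v k}, hA.pair _ _ (hv j) (hv k),
      rfl, ?_⟩
    show v i = ({{v j, v j}, {v j, v k}} : ZFSet.{0})
    rw [h, hs, ZFSet.pair]
  · rintro ⟨a, ha, h1, b, hb, h2, h3⟩
    have h1' : a = ({v j, v j} : ZFSet.{0}) := h1
    have h2' : b = ({v j, v k} : ZFSet.{0}) := h2
    have h3' : v i = ({a, b} : ZFSet.{0}) := h3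
    show v i = ZFSet.pair (v j) (v k)
    rw [h3', h1', h2', hs, ZFSet.pair]

theorem ud_pair_mem (i j k : ℕ) :
    UD Nice fun _ v => ZFSet.pair (v i) (v j) ∈ v k := by
  refine (UD.ex ((ud_pair 0 (i + 1) (j + 1)).and (UD.mem 0 (k + 1)))).congr ?_
  intro A hA v hv
  constructor
  · intro h
    exact ⟨_, hA.trans _ _ (hv k) h, rfl, h⟩
  · rintro ⟨a, ha, h1, h2⟩
    have h1' : a = ZFSet.pair (v i) (v j) := h1
    have h2' : a ∈ v k := h2
    rw [h1'] at h2'
    exact h2'

theorem ud_succ (i j : ℕ) : UD Nice fun _ v => v i = insert (v j) (v j) := by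
  refine (UD.all ((UD.mem 0 (i + 1)).iff ((UD.eq 0 (j + 1)).or (UD.mem 0 (j + 1))))).congr ?_
  intro A hA v hv
  constructor
  · intro h a _
    show a ∈ v i ↔ a = v j ∨ a ∈ v j
    rw [h, ZFSet.mem_insert_iff]
  · intro h
    ext a
    rw [ZFSet.mem_insert_iff]
    constructor
    · intro ha
      exact (h a (hA.trans _ _ (hv i) ha)).1 ha
    · intro ha
      refine (h a ?_).2 ha
      rcases ha with rfl | ha
      · exact hv j
      · exact hA.trans _ _ (hv j) ha

theorem ud_nat (i k : ℕ) : UD Nice fun _ v => v i = nat k := by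
  induction k generalizing i with
  | zero => exact ud_empty i
  | succ k ih =>
    refine (UD.ex ((ih 0).and (ud_succ (i + 1) 0))).congr ?_
    intro A hA v hv
    constructor
    · intro h
      exact ⟨nat k, hA.natMem k, rfl, h⟩
    · rintro ⟨a, ha, h1, h2⟩
      have h1' : a = nat k := h1
      have h2' : v i = insert a a := h2
      rw [h1'] at h2'
      exact h2'

/-- bounded universal quantifier -/
theorem ud_ball {P : (ZFSet.{0} → Prop) → (ℕ → ZFSet.{0}) → Prop} (hP : UD Nice P) (i : ℕ) :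
    UD Nice fun A v => ∀ a ∈ v i, P A (cons a v) := by
  refine (UD.all ((UD.mem 0 (i + 1)).imp hP)).congr ?_
  intro A hA v hv
  constructor
  · intro h a _ ha
    exact h a ha
  · intro h a ha
    exact h a (hA.trans _ _ (hv i) ha) ha

/-- bounded existential quantifier -/
theorem ud_bex {P : (ZFSet.{0} → Prop) → (ℕ → ZFSet.{0}) → Prop} (hP : UD Nice P) (i : ℕ) :
    UD Nice fun A v => ∃ a ∈ v i, P A (cons a v) := by
  refine (UD.ex ((UD.mem 0 (i + 1)).and hP)).congr ?_
  intro A hA v hv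
  constructor
  · rintro ⟨a, ha, h⟩
    exact ⟨a, hA.trans _ _ (hv i) ha, ha, h⟩
  · rintro ⟨a, _, ha, h⟩
    exact ⟨a, ha, h⟩

end Pool.Agent.H43L
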