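import Pool.Agent.Lib.H43L.W0

/-!
# Chunk W1: the cluster property implies regularity

Suppose `κ` is not regular: there are `μ < κ` and a function `f : μ.ord.ToType → Idx κ` (or from
any index type of cardinality `< κ`, e.g. a cofinal set of cardinality `cof`) whose range is cofinal.  Identify the
index type with an initial segment of `Idx κ` (of order type `μ.ord`), so `f ν` is defined for
`ν < μ₀ : Idx κ`.  Let `h i` be the least `ν` with `i ≤ f ν`, and `F i = {h i}`; let `b` be a cluster point.  With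
`α = μ₀` there is `i₁ > μ₀` with `b ∩ [0, μ₀) = {h i₁}`.  With `α = max μ₀ (f (h i₁))` there is `i₂ > α` with
`b ∩ [0, μ₀) = {h i₂}`.  So `h i₂ = h i₁` and `i₂ ≤ f (h i₂) = f (h i₁) ≤ α < i₂`, a contradiction.

A set of indices without an upper bound of cardinality `< κ` is what one gets from non-regularity; it may be easier to
show first: every `A : Set (Idx κ)` with `#A < κ` is bounded (same argument: let `g : A ↪` the indices below `μ₀`),
and then `κ.IsRegular` (`Cardinal.isRegular_iff`/`Ordinal.le_cof_iff` or similar).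
-/

set_option autoImplicit false

universe u

namespace Pool.Agent.H43L

open Set Cardinal
open Pool.Agent.Helper43.KK (Idx num idx num_idx num_lt num_lt_num num_le_num num_inj exists_num)

theorem isRegular_of_cluster {κ : Cardinal.{u}} (hκ : ℵ₀ < κ) (h : Cluster κ) :
    κ.IsRegular := by
  refine ⟨hκ.le, ?_⟩
  by_contra hlt
  rw [not_le, ← Ordinal.cof_toType] at hlt
  obtain ⟨s, hs, hsc⟩ := Order.exists_cof_eq (α := Idx κ)
  rw [← hsc] at hlt
  have hord : (#s).ord < κ.ord := ord_lt_ord.mpr hlt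
  obtain ⟨μ₀, hμ⟩ := exists_num hord
  obtain ⟨e⟩ : Nonempty (s ≃ (#s).ord.ToType) := Cardinal.eq.mp (by simp)
  let g : s → Idx κ := fun a =>
    idx (Ordinal.ToType.toOrd (e a) : Ordinal) ((Ordinal.ToType.toOrd (e a)).2.trans hord)
  have hgμ : ∀ a, g a < μ₀ := by
    intro a
    rw [← num_lt_num, num_idx, hμ]
    exact (Ordinal.ToType.toOrd (e a)).2
  have hginj : Function.Injective g := by
    intro a b hab
    have h1 := congrArg num hab
    simp only [g, num_idx] at h1
    exact e.injective (Ordinal.ToType.mk.symm.injective (Subtype.ext h1))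
  choose c hc hc' using hs
  obtain ⟨b, hb⟩ := h (fun i => {g ⟨c i, hc i⟩})
  obtain ⟨i₁, hi₁, hb₁⟩ := hb μ₀
  obtain ⟨i₂, hi₂, hb₂⟩ := hb (max μ₀ (c i₁))
  have h1 : g ⟨c i₁, hc i₁⟩ ∈ b := (hb₁ _ (hgμ _)).mpr rfl
  have h2 := (hb₂ _ ((hgμ ⟨c i₁, hc i₁⟩).trans_le (le_max_left _ _))).mp h1
  have h3 : c i₁ = c i₂ := congrArg Subtype.val (hginj h2)
  have h4 : i₂ ≤ c i₁ := h3 ▸ hc' i₂
  exact absurd (h4.trans (le_max_right μ₀ (c i₁))) (not_le.mpr hi₂)

end Pool.Agent.H43L
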