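import Pool.Agent.Lib.H43L.W0

/-!
# Chunk W4: weak compactness implies the cluster property

Suppose `F` has no cluster point: for each `b` there is `α b` such that for all `i > α b` there is `ξ < α b` with not
`(ξ ∈ b ↔ ξ ∈ F i)`.  The sets `U b = {y | y ∩ Iio (α b) = b ∩ Iio (α b)}` are basic open (`mk_Iio_lt`) and cover;
let `𝒱` be a subcover of cardinality `< κ`; for `V ∈ 𝒱` choose `b V` with `V = U (b V)`.  The indices `α (b V)` have an upper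
bound `i` (`exists_ub`, `h.isRegular`), `F i ∈ V = U (b V)` for some `V ∈ 𝒱`, and `i > α (b V)`: a contradiction.
-/

set_option autoImplicit false

universe u

namespace Pool.Agent.H43L

open Set Cardinal
open Pool.Agent.Helper43.KK (Idx num idx num_idx num_lt num_lt_num num_le_num num_inj exists_num
  IsWeaklyCompact IsKappaCompact boundedTopology exists_box exists_ub mk_Iio_lt)

theorem cluster_of_isWeaklyCompact {κ : Cardinal.{u}} (h : IsWeaklyCompact κ) : Cluster κ := by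
  intro F
  by_contra hcon
  have hcon' : ∀ b : Set (Idx κ), ∃ α : Idx κ, ∀ i, α < i → ¬ ∀ ξ, ξ < α → (ξ ∈ b ↔ ξ ∈ F i) := by
    intro b
    by_contra h1
    refine hcon ⟨b, fun α => ?_⟩
    by_contra h2
    exact h1 ⟨α, fun i hi h3 => h2 ⟨i, hi, h3⟩⟩
  choose α hα using hcon'
  let U : Set (Idx κ) → Set (Set (Idx κ)) := fun b => {y | y ∩ Iio (α b) = b ∩ Iio (α b)}
  obtain ⟨𝒱, h𝒱, hcard, hcov⟩ := h.2 (range U) (by
    rintro _ ⟨b, rfl⟩
    exact TopologicalSpace.isOpen_generateFrom_of_mem ⟨Iio (α b), b, mk_Iio_lt _, rfl⟩)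
    (fun b _ => ⟨U b, mem_range_self b, rfl⟩)
  choose b hb using fun V : 𝒱 => h𝒱 V.2
  obtain ⟨i, hi⟩ := exists_ub h.isRegular (A := range fun V : 𝒱 => α (b V))
    (mk_range_le.trans_lt hcard)
  obtain ⟨V, hV, hFV⟩ := hcov (mem_univ (F i))
  have h1 : α (b ⟨V, hV⟩) < i := hi _ ⟨⟨V, hV⟩, rfl⟩
  have h2 : F i ∈ U (b ⟨V, hV⟩) := by
    rw [hb ⟨V, hV⟩]
    exact hFV
  have h3 : F i ∩ Iio (α (b ⟨V, hV⟩)) = b ⟨V, hV⟩ ∩ Iio (α (b ⟨V, hV⟩)) := h2
  refine hα (b ⟨V, hV⟩) i h1 fun ξ hξ => ?_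
  have h4 : ξ ∈ F i ∩ Iio (α (b ⟨V, hV⟩)) ↔ ξ ∈ b ⟨V, hV⟩ ∩ Iio (α (b ⟨V, hV⟩)) := by rw [h3]
  constructor
  · intro h5
    exact (h4.2 ⟨h5, hξ⟩).1
  · intro h5
    exact (h4.1 ⟨h5, hξ⟩).1

end Pool.Agent.H43L
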